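import Pool.Agent.Q315.PA.Almost

/-!
# Counterexamples to Q1 of MP_52423f_nt: the part which uses only the setting of the problem
-/

set_option autoImplicit false

namespace Pool.Agent.Q229.EX

open Module Pool.Agent.Q315.PA

/-- the facts on `A(ℚ)` and `A(ℚ_p)` of the setting of the problem, with a logarithm -/
structure Base {p : ℕ} [Fact p.Prime] {n : ℕ} {Γ G : Type} [AddCommGroup Γ] [AddCommGroup G] [TopologicalSpace G] (ι : Γ →+ G)
    (log : G →+ (Fin n → ℚ_[p])) : Prop where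
  mordell_weil : Module.Finite ℤ Γ
  inj : Function.Injective ι
  logarithm : IsLog log

section

set_option linter.unusedSectionVars false

variable {p : ℕ} [Fact p.Prime] {n : ℕ} {Γ G : Type} [AddCommGroup Γ] [AddCommGroup G] [TopologicalSpace G]
  [IsTopologicalAddGroup G] [CompactSpace G] [T2Space G] {ι : Γ →+ G} {log : G →+ (Fin n → ℚ_[p])}

lemma log_eq_zero_iff (h : Base ι log) (P : Γ) : log (ι P) = 0 ↔ IsOfFinAddOrder P := by
  constructor
  · intro hP
    obtain ⟨U, hU, hinj⟩ := h.logarithm.inj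
    have hUi := index_ne_zero U hU
    have h1 : U.index • ι P ∈ U := U.nsmul_index_mem _
    have h2 : log (U.index • ι P) = 0 := by rw [map_nsmul, hP, smul_zero]
    have h3 : U.index • ι P = 0 := hinj h1 U.zero_mem (by rw [h2, map_zero])
    rw [← map_nsmul] at h3
    have h4 : U.index • P = 0 := h.inj (by rw [h3, map_zero])
    exact isOfFinAddOrder_iff_nsmul_eq_zero.2 ⟨_, Nat.pos_of_ne_zero hUi, h4⟩
  · intro hP
    obtain ⟨N, hN, h1⟩ := isOfFinAddOrder_iff_nsmul_eq_zero.1 hP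
    have h2 : N • log (ι P) = 0 := by rw [← map_nsmul, ← map_nsmul, h1, map_zero, map_zero]
    rw [← Nat.cast_smul_eq_nsmul ℚ_[p]] at h2
    rcases smul_eq_zero.1 h2 with h3 | h3
    · exact absurd h3 (by exact_mod_cast hN.ne')
    · exact h3

/-- independent points have logarithms which are independent over `ℚ` -/
lemma indep_rat (h : Base ι log) {L : AddSubgroup Γ} {m : ℕ} (P : Fin m → L) (hP : LinearIndependent ℤ P) :
    LinearIndependent ℚ fun i => log (ι (P i)) := by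
  refine (LinearIndependent.iff_fractionRing ℤ ℚ).1 ?_
  rw [Fintype.linearIndependent_iff] at hP ⊢
  intro a ha
  have h1 : log (ι ((∑ i, a i • P i : L) : Γ)) = 0 := by
    rw [← ha]
    simp [map_sum, map_zsmul]
  obtain ⟨M, hM, h3⟩ := isOfFinAddOrder_iff_nsmul_eq_zero.1 ((log_eq_zero_iff h _).1 h1)
  have h4 : ∑ i, ((M : ℤ) * a i) • P i = 0 := by
    simp only [mul_smul]
    rw [← Finset.smul_sum]
    apply Subtype.ext
    rw [AddSubgroup.coe_zsmul, natCast_zsmul, h3]
    rfl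
  intro i
  have h5 := hP _ h4 i
  rcases mul_eq_zero.1 h5 with h6 | h6
  · exact absurd h6 (by exact_mod_cast hM.ne')
  · exact h6

/-- a logarithm -/
lemma exists_log {U : AddSubgroup G} (hU : IsOpen (U : Set G)) (φ : U ≃ₜ+ (Fin n → ℤ_[p])) :
    ∃ log : G →+ (Fin n → ℚ_[p]), IsLog log := by
  have hN := index_ne_zero U hU
  have hNp : ((U.index : ℕ) : ℚ_[p]) ≠ 0 := by exact_mod_cast hN
  let ψ : G →+ U := AddMonoidHom.mk' (fun x => ⟨U.index • x, U.nsmul_index_mem x⟩) fun x y => by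
    apply Subtype.ext
    simp [smul_add]
  let f : G →+ (Fin n → ℚ_[p]) := AddMonoidHom.mk' (fun x i => ((U.index : ℕ) : ℚ_[p])⁻¹ * ((φ (ψ x) i : ℤ_[p]) : ℚ_[p]))
    fun x y => by
      funext i
      simp [mul_add]
  have hf : ∀ x i, f x i = ((U.index : ℕ) : ℚ_[p])⁻¹ * ((φ (ψ x) i : ℤ_[p]) : ℚ_[p]) := fun _ _ => rfl
  refine ⟨f, ?_, U, hU, ?_⟩
  · refine continuous_pi fun i => ?_
    have h1 : Continuous fun x : G => ψ x := Continuous.subtype_mk (continuous_nsmul _) _
    have h2 : Continuous fun x : G => φ (ψ x) i := (continuous_apply i).comp (φ.continuous.comp h1)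
    exact continuous_const.mul (continuous_subtype_val.comp h2)
  · have key : ∀ x (hx : x ∈ U) i, f x i = ((φ ⟨x, hx⟩ i : ℤ_[p]) : ℚ_[p]) := by
      intro x hx i
      have h1 : ψ x = U.index • (⟨x, hx⟩ : U) := Subtype.ext (by simp [ψ])
      rw [hf, h1, map_nsmul, Pi.smul_apply, nsmul_eq_mul]
      push_cast
      rw [← mul_assoc, inv_mul_cancel₀ hNp, one_mul]
    intro x hx y hy hxy
    have h1 : φ ⟨x, hx⟩ = φ ⟨y, hy⟩ := by
      funext i
      have h2 := congrFun hxy i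
      rw [key x hx, key y hy] at h2
      exact Subtype.ext h2
    exact congrArg (fun z : U => (z : G)) (φ.injective h1)

/-- the dimension of the span of the logarithms -/
noncomputable def r (ι : Γ →+ G) (log : G →+ (Fin n → ℚ_[p])) (L : AddSubgroup Γ) : ℕ :=
  finrank ℚ_[p] (lspan log (L.map ι))

lemma rank_iff (h : Base ι log) (L : AddSubgroup Γ) (d : ℕ) :
    HasZpRank p (L.map ι).topologicalClosure d ↔ r ι log L = d := hasZpRank_closure_iff h.logarithm _ _

lemma fin_of (h : Base ι log) (L : AddSubgroup Γ) : Module.Finite ℤ L := by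
  have hfin : Module.Finite ℤ Γ := h.mordell_weil
  have : Module.Finite ℤ (AddSubgroup.toIntSubmodule L) := inferInstance
  exact this

/-- a subgroup of the same rank is of finite index -/
lemma torsion_of_rank (h : Base ι log) {L M : AddSubgroup Γ} (hLM : L ≤ M) (hr : finrank ℤ M ≤ finrank ℤ L) (P : Γ)
    (hP : P ∈ M) : ∃ N : ℕ, N ≠ 0 ∧ N • P ∈ L := by
  have hfM : Module.Finite ℤ M := fin_of h M
  have hfL : Module.Finite ℤ L := fin_of h L
  obtain ⟨b, hb⟩ := exists_linearIndependent_of_le_finrank (R := ℤ) (M := L) hr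
  let c : Fin (finrank ℤ M) → M := fun i => ⟨b i, hLM (b i).2⟩
  let incl : L →ₗ[ℤ] M := (AddSubgroup.inclusion hLM).toIntLinearMap
  have hincl : Function.Injective incl := AddSubgroup.inclusion_injective hLM
  have hc : LinearIndependent ℤ c := hb.map' incl (LinearMap.ker_eq_bot.2 hincl)
  have h1 : finrank ℤ (M ⧸ Submodule.span ℤ (Set.range c)) = 0 := by
    have h2 := Submodule.finrank_quotient_add_finrank (Submodule.span ℤ (Set.range c))
    rw [finrank_span_eq_card hc, Fintype.card_fin] at h2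
    omega
  have h3 : Module.rank ℤ (M ⧸ Submodule.span ℤ (Set.range c)) = 0 := by
    rw [← finrank_eq_rank, h1, Nat.cast_zero]
  obtain ⟨N, hN0, hN⟩ := rank_eq_zero_iff.1 h3 (Submodule.Quotient.mk ⟨P, hP⟩)
  rw [← Submodule.Quotient.mk_smul, Submodule.Quotient.mk_eq_zero] at hN
  obtain ⟨a, ha⟩ := (Submodule.mem_span_range_iff_exists_fun ℤ).1 hN
  have h4 : N • P ∈ L := by
    have h5 : ((∑ i, a i • c i : M) : Γ) = ((N • (⟨P, hP⟩ : M) : M) : Γ) := congrArg _ ha
    have h6 : ((∑ i, a i • c i : M) : Γ) ∈ L := by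
      rw [AddSubgroup.val_finset_sum]
      exact L.sum_mem fun i _ => L.zsmul_mem (b i).2 _
    rw [h5] at h6
    exact h6
  refine ⟨N.natAbs, Int.natAbs_ne_zero.2 hN0, ?_⟩
  have h6 : ((N.natAbs : ℕ) : ℤ) • P ∈ L := by
    rcases Int.natAbs_eq N with h5 | h5
    · rw [← h5]
      exact h4
    · have h7 : ((N.natAbs : ℕ) : ℤ) = -N := by omega
      rw [h7, neg_smul]
      exact L.neg_mem h4
  rwa [natCast_zsmul] at h6

/-- multiples do not change the span of the logarithms -/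
lemma r_le_of_multiples {L M : AddSubgroup Γ} (hM : ∀ P ∈ M, ∃ N : ℕ, N ≠ 0 ∧ N • P ∈ L) :
    r ι log M ≤ r ι log L := by
  refine Submodule.finrank_mono ?_
  unfold lspan qspan
  rw [Submodule.span_le]
  rintro _ ⟨_, ⟨P, hP, rfl⟩, rfl⟩
  obtain ⟨N, hN, h1⟩ := hM P hP
  have h2 : (N : ℚ_[p]) ≠ 0 := by exact_mod_cast hN
  have h3 : log (ι P) = (N : ℚ_[p])⁻¹ • log (ι (N • P)) := by
    rw [map_nsmul, map_nsmul, ← Nat.cast_smul_eq_nsmul ℚ_[p], smul_smul, inv_mul_cancel₀ h2, one_smul]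
  rw [h3]
  exact Submodule.smul_mem _ _ (Submodule.subset_span ⟨_, ⟨_, h1, rfl⟩, rfl⟩)

/-- the span of the logarithms of a maximal independent family -/
lemma r_le (h : Base ι log) (L : AddSubgroup Γ) : r ι log L ≤ finrank ℤ L := by
  have hfL : Module.Finite ℤ L := fin_of h L
  obtain ⟨b, hb⟩ := exists_linearIndependent_of_le_finrank (R := ℤ) (M := L) le_rfl
  let M : AddSubgroup Γ := AddSubgroup.closure (Set.range fun i => (b i : Γ))
  have hML : M ≤ L := by
    rw [AddSubgroup.closure_le]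
    rintro _ ⟨i, rfl⟩
    exact (b i).2
  have hfM : Module.Finite ℤ M := fin_of h M
  have hrk : finrank ℤ L ≤ finrank ℤ M := by
    let c : Fin (finrank ℤ L) → M := fun i => ⟨b i, AddSubgroup.subset_closure ⟨i, rfl⟩⟩
    have hc : LinearIndependent ℤ c := by
      let incl : M →ₗ[ℤ] L := (AddSubgroup.inclusion hML).toIntLinearMap
      exact LinearIndependent.of_comp incl hb
    have := hc.fintype_card_le_finrank
    rwa [Fintype.card_fin] at this
  refine (r_le_of_multiples (torsion_of_rank h hML hrk)).trans ?_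
  unfold r
  rw [lspan_closure_range]
  exact (finrank_range_le_card _).trans (by rw [Fintype.card_fin])

lemma r_mono {L M : AddSubgroup Γ} (hLM : L ≤ M) : r ι log L ≤ r ι log M :=
  Submodule.finrank_mono (lspan_mono (AddSubgroup.map_mono hLM))

/-- **The closure ranks are submodular.** -/
lemma r_sup_inf (L₁ L₂ : AddSubgroup Γ) :
    r ι log (L₁ ⊔ L₂) + r ι log (L₁ ⊓ L₂) ≤ r ι log L₁ + r ι log L₂ := by
  have h1 : lspan log ((L₁ ⊔ L₂).map ι) = lspan log (L₁.map ι) ⊔ lspan log (L₂.map ι) := by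
    unfold lspan qspan
    apply le_antisymm
    · rw [Submodule.span_le]
      rintro _ ⟨_, ⟨P, hP, rfl⟩, rfl⟩
      obtain ⟨y, hy, z, hz, rfl⟩ := AddSubgroup.mem_sup.1 hP
      rw [map_add, map_add]
      exact Submodule.add_mem_sup (Submodule.subset_span ⟨_, ⟨_, hy, rfl⟩, rfl⟩) (Submodule.subset_span ⟨_, ⟨_, hz, rfl⟩, rfl⟩)
    · refine sup_le (Submodule.span_mono ?_) (Submodule.span_mono ?_)
      · exact AddSubgroup.map_mono (AddSubgroup.map_mono le_sup_left)
      · exact AddSubgroup.map_mono (AddSubgroup.map_mono le_sup_right)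
  have h2 : lspan log ((L₁ ⊓ L₂).map ι) ≤ lspan log (L₁.map ι) ⊓ lspan log (L₂.map ι) :=
    le_inf (lspan_mono (AddSubgroup.map_mono inf_le_left)) (lspan_mono (AddSubgroup.map_mono inf_le_right))
  have h3 := Submodule.finrank_sup_add_finrank_inf_eq (lspan log (L₁.map ι)) (lspan log (L₂.map ι))
  have h4 := Submodule.finrank_mono h2
  unfold r
  rw [h1]
  omega

/-- the ranks are modular -/
lemma rank_sup_inf (h : Base ι log) (L₁ L₂ : AddSubgroup Γ) :
    finrank ℤ (L₁ ⊔ L₂ : AddSubgroup Γ) + finrank ℤ (L₁ ⊓ L₂ : AddSubgroup Γ) = finrank ℤ L₁ + finrank ℤ L₂ := by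
  have hfin : Module.Finite ℤ Γ := h.mordell_weil
  have h1 := Submodule.rank_sup_add_rank_inf_eq (AddSubgroup.toIntSubmodule L₁) (AddSubgroup.toIntSubmodule L₂)
  rw [← OrderIso.map_sup, ← OrderIso.map_inf] at h1
  rw [← finrank_eq_rank, ← finrank_eq_rank, ← finrank_eq_rank, ← finrank_eq_rank] at h1
  exact_mod_cast h1

lemma one_le_r (h : Base ι log) {L : AddSubgroup Γ} {P : Γ} (hP : P ∈ L) (hfin : ¬ IsOfFinAddOrder P) : 1 ≤ r ι log L := by
  by_contra hlt
  have h0 : finrank ℚ_[p] (lspan log (L.map ι)) = 0 := by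
    unfold r at hlt
    omega
  rw [Submodule.finrank_eq_zero] at h0
  have h1 : log (ι P) ∈ lspan log (L.map ι) := Submodule.subset_span ⟨_, ⟨P, hP, rfl⟩, rfl⟩
  rw [h0, Submodule.mem_bot] at h1
  exact hfin ((log_eq_zero_iff h P).1 h1)

lemma exists_infinite (h : Base ι log) {L : AddSubgroup Γ} (hL : 1 ≤ finrank ℤ L) : ∃ P ∈ L, ¬ IsOfFinAddOrder P := by
  have hfL : Module.Finite ℤ L := fin_of h L
  obtain ⟨b, hb⟩ := exists_linearIndependent_of_le_finrank (R := ℤ) (M := L) hL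
  have h1 := (indep_rat h b hb).ne_zero 0
  exact ⟨b 0, (b 0).2, fun h2 => h1 ((log_eq_zero_iff h _).2 h2)⟩

/-- the points with logarithm in the line of the logarithm of `P` -/
noncomputable def line (ι : Γ →+ G) (log : G →+ (Fin n → ℚ_[p])) (P : Γ) : AddSubgroup Γ :=
  ((Submodule.span ℚ_[p] {log (ι P)}).toAddSubgroup).comap (log.comp ι)

lemma mem_line (P Q : Γ) : Q ∈ line ι log P ↔ log (ι Q) ∈ Submodule.span ℚ_[p] {log (ι P)} := Iff.rfl

lemma self_mem_line (P : Γ) : P ∈ line ι log P := (mem_line P P).2 (Submodule.mem_span_singleton_self _)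

lemma r_line (P : Γ) : r ι log (line ι log P) ≤ 1 := by
  have h1 : lspan log ((line ι log P).map ι) ≤ Submodule.span ℚ_[p] {log (ι P)} := by
    unfold lspan qspan
    rw [Submodule.span_le]
    rintro _ ⟨_, ⟨Q, hQ, rfl⟩, rfl⟩
    exact hQ
  refine (Submodule.finrank_mono h1).trans ?_
  exact (finrank_span_le_card _).trans (by simp)

lemma lspan_eq_of_le_one (h : Base ι log) {L : AddSubgroup Γ} (hL : r ι log L ≤ 1) {P : Γ} (hP : P ∈ L)
    (hfin : ¬ IsOfFinAddOrder P) : lspan log (L.map ι) = Submodule.span ℚ_[p] {log (ι P)} := by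
  have hv0 : log (ι P) ≠ 0 := fun h1 => hfin ((log_eq_zero_iff h P).1 h1)
  symm
  apply Submodule.eq_of_le_of_finrank_le
  · rw [Submodule.span_singleton_le_iff_mem]
    exact Submodule.subset_span ⟨_, ⟨P, hP, rfl⟩, rfl⟩
  · rw [finrank_span_singleton hv0]
    exact hL

lemma le_line (h : Base ι log) {L : AddSubgroup Γ} (hL : r ι log L ≤ 1) {P : Γ} (hP : P ∈ L)
    (hfin : ¬ IsOfFinAddOrder P) : L ≤ line ι log P := by
  intro Q hQ
  rw [mem_line, ← lspan_eq_of_le_one h hL hP hfin]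
  exact Submodule.subset_span ⟨_, ⟨Q, hQ, rfl⟩, rfl⟩

lemma line_eq (h : Base ι log) {P Q : Γ} (hQ : Q ∈ line ι log P) (hfin : ¬ IsOfFinAddOrder Q) :
    line ι log P = line ι log Q := by
  have h1 := lspan_eq_of_le_one h (r_line P) hQ hfin
  have hPf : ¬ IsOfFinAddOrder P := by
    intro h2
    rw [mem_line, (log_eq_zero_iff h P).2 h2, Submodule.span_zero_singleton, Submodule.mem_bot] at hQ
    exact hfin ((log_eq_zero_iff h Q).1 hQ)
  have h2 := lspan_eq_of_le_one h (r_line P) (self_mem_line P) hPf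
  unfold line
  rw [← h2, ← h1]

lemma violates_iff (h : Base ι log) (L : AddSubgroup Γ) : ¬ HasZpRank p (L.map ι).topologicalClosure (finrank ℤ L) ↔ r ι log L < finrank ℤ L := by
  rw [rank_iff h]
  have := r_le h L
  omega

lemma commens_of (h : Base ι log) {m : ℕ} {L₁ L₂ : AddSubgroup Γ} (h1 : finrank ℤ L₁ = m) (h2 : finrank ℤ L₂ = m)
    (h3 : finrank ℤ (L₁ ⊔ L₂ : AddSubgroup Γ) ≤ m) : (∀ P ∈ L₁, ∃ N : ℕ, N ≠ 0 ∧ N • P ∈ L₂) ∧ ∀ P ∈ L₂, ∃ N : ℕ, N ≠ 0 ∧ N • P ∈ L₁ :=
  ⟨fun P hP => torsion_of_rank h (le_sup_right : L₂ ≤ L₁ ⊔ L₂) (by omega) P (le_sup_left (a := L₁) (b := L₂) hP),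
    fun P hP => torsion_of_rank h (le_sup_left : L₁ ≤ L₁ ⊔ L₂) (by omega) P (le_sup_right (a := L₁) (b := L₂) hP)⟩

end

end Pool.Agent.Q229.EX
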