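import Pool.Agent.Q21.AW.HC

set_option autoImplicit false

/-! Few exceptional rational points: all rational points near almost every real point are not exceptional. -/

namespace Pool.Agent.Q229.RA

open MeasureTheory Filter Set ENNReal NNReal Topology Metric

/-- a rational point as a real point -/
def cast {n : ℕ} (q : Fin n → ℚ) : Fin n → ℝ := fun j => (q j : ℝ)

lemma pow_le {B T T' : ℝ} (hT : 1 ≤ T) (hTT : T ≤ T') (h2 : T' ≤ 2 * T) (hB : (2 : ℝ) ^ (max B 0) ≤ T) :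
    T ^ (-(max B 0 + 1)) ≤ T' ^ (-B) := by
  have hT0 : (0 : ℝ) < T := by linarith
  have hT'0 : (0 : ℝ) < T' := by linarith
  have h3 : T ^ (-(max B 0 + 1)) ≤ (2 * T) ^ (-(max B 0)) := by
    rw [Real.rpow_neg hT0.le, Real.rpow_neg (by positivity), Real.mul_rpow (by norm_num) hT0.le,
      Real.rpow_add hT0, Real.rpow_one]
    have h4 : (0 : ℝ) < T ^ (max B 0) := by positivity
    have h5 : (0 : ℝ) < (2 : ℝ) ^ (max B 0) := by positivity
    apply inv_anti₀ (by positivity)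
    calc (2 : ℝ) ^ (max B 0) * T ^ (max B 0) ≤ T * T ^ (max B 0) :=
          mul_le_mul_of_nonneg_right hB h4.le
      _ = T ^ (max B 0) * T := mul_comm _ _
  have h6 : (2 * T) ^ (-(max B 0)) ≤ T' ^ (-(max B 0)) :=
    Real.rpow_le_rpow_of_nonpos hT'0 h2 (by linarith [le_max_right B 0])
  have h7 : T' ^ (-(max B 0)) ≤ T' ^ (-B) :=
    Real.rpow_le_rpow_of_exponent_le (by linarith) (by linarith [le_max_left B 0])
  exact h3.trans (h6.trans h7)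

/-- Let `Exc B T` be the exceptional rational points at the level `T` (for instance those with denominators at most `T`
for which there is a relation with coefficients at most `T ^ A`, up to `T ^ (-B)`). If there are at most `C T ^ σ` of them
for all `T ≥ 1`, then, with a larger `B`, for all real points `x` outside a set of dimension at most `σ / τ` and all large
`T`, no rational point `q` with `|x_j - q_j| ≤ T ^ (-τ)` for all `j` is exceptional at the level `T`. -/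
theorem near {n : ℕ} (Exc : ℝ → ℝ → Set (Fin n → ℚ)) {σ : ℝ} (hσ : 0 ≤ σ)
    (hmono : ∀ (B T T' : ℝ) (q : Fin n → ℚ), 1 ≤ T → T ≤ T' → T' ≤ 2 * T → (2 : ℝ) ^ (max B 0) ≤ T →
      q ∈ Exc (max B 0 + 1) T → q ∈ Exc B T')
    (h : ∃ B C : ℝ, ∀ T : ℝ, 1 ≤ T → (Exc B T).Finite ∧ ((Exc B T).ncard : ℝ) ≤ C * T ^ σ) :
    ∃ B : ℝ, ∀ τ : ℝ, 0 < τ → ∃ Z : Set (Fin n → ℝ), dimH Z ≤ ENNReal.ofReal (σ / τ) ∧
      (σ < n * τ → volume Z = 0) ∧
      ∀ x : Fin n → ℝ, x ∉ Z → ∀ᶠ T : ℝ in atTop, ∀ q : Fin n → ℚ,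
        (∀ j, |x j - q j| ≤ T ^ (-τ)) → q ∉ Exc B T := by
  classical
  obtain ⟨B, C, h⟩ := h
  refine ⟨max B 0 + 1, fun τ hτ => ?_⟩
  have h1 : ∀ k : ℕ, (1 : ℝ) ≤ 2 ^ k := fun k => one_le_pow₀ (by norm_num)
  set E : ℕ → Set (Fin n → ℚ) := fun k => Exc B (2 ^ k) with hE
  have hfin : ∀ k, (E k).Finite := fun k => (h (2 ^ k) (h1 k)).1
  have hcard : ∀ k, ((hfin k).toFinset.card : ℝ) ≤ |C| * ((2 : ℝ) ^ k) ^ σ := by
    intro k
    have h2 := (h (2 ^ k) (h1 k)).2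
    rw [← Set.ncard_eq_toFinset_card _ (hfin k)]
    exact h2.trans (mul_le_mul_of_nonneg_right (le_abs_self C) (by positivity))
  set r : ℕ → ℝ := fun k => 2 ^ τ * ((2 : ℝ) ^ k) ^ (-τ) with hr
  have hr0 : ∀ k, 0 < r k := fun k => by
    have : (0 : ℝ) < 2 ^ k := by positivity
    rw [hr]
    positivity
  set U : (Σ k : ℕ, ((hfin k).toFinset : Set (Fin n → ℚ))) → Set (Fin n → ℝ) :=
    fun p => closedBall (cast (p.2 : Fin n → ℚ)) (r p.1) with hU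
  have hnull : ∀ s : ℝ, σ / τ < s → μH[s] {x | {p | x ∈ U p}.Infinite} = 0 := by
    intro s hs
    have hs0 : 0 < s := lt_of_le_of_lt (div_nonneg hσ hτ.le) hs
    apply Pool.Agent.Q21.AW.hc hs0 U
    rw [ENNReal.tsum_sigma']
    have h2 : ∀ k : ℕ, (∑' b : ((hfin k).toFinset : Set (Fin n → ℚ)), ediam (U ⟨k, b⟩) ^ s) ≤
        ENNReal.ofReal ((|C| * (2 * 2 ^ τ) ^ s) * ((2 : ℝ) ^ (σ - τ * s)) ^ k) := by
      intro k
      have h3 : ∀ b : ((hfin k).toFinset : Set (Fin n → ℚ)), ediam (U ⟨k, b⟩) ^ s ≤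
          ENNReal.ofReal ((2 * r k) ^ s) := by
        intro b
        rw [← ENNReal.ofReal_rpow_of_pos (by linarith [hr0 k] : 0 < 2 * r k)]
        refine ENNReal.rpow_le_rpow ?_ hs0.le
        refine ediam_le fun y hy z hz => ?_
        rw [edist_dist]
        refine ENNReal.ofReal_le_ofReal ?_
        have hy' := mem_closedBall.1 hy
        have hz' := mem_closedBall.1 hz
        have := dist_triangle_right y z (cast (b : Fin n → ℚ))
        linarith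
      refine (ENNReal.tsum_le_tsum h3).trans ?_
      rw [tsum_fintype, Finset.sum_const, nsmul_eq_mul]
      have h4 : (Finset.univ : Finset ((hfin k).toFinset : Set (Fin n → ℚ))).card = (hfin k).toFinset.card := by
        simp
      rw [h4, ← ENNReal.ofReal_natCast, ← ENNReal.ofReal_mul (by positivity)]
      refine ENNReal.ofReal_le_ofReal ?_
      have h2k : (0 : ℝ) < 2 ^ k := by positivity
      calc ((hfin k).toFinset.card : ℝ) * (2 * r k) ^ s ≤ (|C| * ((2 : ℝ) ^ k) ^ σ) * (2 * r k) ^ s :=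
            mul_le_mul_of_nonneg_right (hcard k) (by have := (hr0 k).le; positivity)
        _ = (|C| * (2 * 2 ^ τ) ^ s) * (((2 : ℝ) ^ k) ^ σ * ((2 : ℝ) ^ k) ^ (-τ * s)) := by
            rw [hr]
            simp only
            rw [← mul_assoc, Real.mul_rpow (by positivity) (by positivity), ← Real.rpow_mul h2k.le]
            ring
        _ = (|C| * (2 * 2 ^ τ) ^ s) * ((2 : ℝ) ^ (σ - τ * s)) ^ k := by
            rw [← Real.rpow_add h2k, ← Real.rpow_natCast, ← Real.rpow_mul (by norm_num), ← Real.rpow_natCast,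
              ← Real.rpow_mul (by norm_num)]
            congr 2
            ring
    refine ne_top_of_le_ne_top ?_ (ENNReal.tsum_le_tsum h2)
    have hlt : (2 : ℝ) ^ (σ - τ * s) < 1 := by
      apply Real.rpow_lt_one_of_one_lt_of_neg (by norm_num)
      rw [div_lt_iff₀ hτ] at hs
      linarith [mul_comm s τ]
    have hsum : Summable (fun k : ℕ => (|C| * (2 * 2 ^ τ) ^ s) * ((2 : ℝ) ^ (σ - τ * s)) ^ k) :=
      (summable_geometric_of_lt_one (by positivity) hlt).mul_left _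
    rw [← ENNReal.ofReal_tsum_of_nonneg (fun k => by positivity) hsum]
    exact ENNReal.ofReal_ne_top
  refine ⟨{x | {p | x ∈ U p}.Infinite}, ?_, ?_, ?_⟩
  · refine ENNReal.le_of_forall_pos_le_add fun ε hε _ => ?_
    have hε' : (0 : ℝ) < ε := by exact_mod_cast hε
    have hst : 0 ≤ σ / τ := div_nonneg hσ hτ.le
    have h2 : dimH {x | {p | x ∈ U p}.Infinite} ≤ (Real.toNNReal (σ / τ + ε) : ℝ≥0∞) := by
      refine dimH_le_of_hausdorffMeasure_ne_top ?_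
      rw [Real.coe_toNNReal _ (by positivity), hnull _ (by linarith)]
      exact ENNReal.zero_ne_top
    refine h2.trans ?_
    have h3 : (Real.toNNReal (σ / τ + ε) : ℝ≥0∞) = ENNReal.ofReal (σ / τ + ε) := rfl
    rw [h3, ENNReal.ofReal_add hst hε'.le, ENNReal.ofReal_coe_nnreal]
  · intro hn
    have h2 := hnull n (by rwa [div_lt_iff₀ hτ])
    have h3 : (μH[(n : ℝ)] : Measure (Fin n → ℝ)) = volume := by
      have := MeasureTheory.hausdorffMeasure_pi_real (ι := Fin n)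
      rwa [Fintype.card_fin] at this
    rwa [h3] at h2
  · intro x hx
    have hx' : {p | x ∈ U p}.Finite := Set.not_infinite.1 hx
    obtain ⟨K, hK⟩ : ∃ K : ℕ, ∀ p ∈ {p | x ∈ U p}, p.1 < K := by
      refine ⟨(hx'.toFinset.sup fun p => p.1) + 1, fun p hp => ?_⟩
      exact Nat.lt_succ_of_le (Finset.le_sup (f := fun p : (Σ k : ℕ, ((hfin k).toFinset : Set (Fin n → ℚ))) => p.1)
        (hx'.mem_toFinset.2 hp))
    filter_upwards [eventually_ge_atTop (max ((2 : ℝ) ^ K) (max ((2 : ℝ) ^ (max B 0)) 1))] with T hT q hxq hq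
    have hTK : (2 : ℝ) ^ K ≤ T := (le_max_left _ _).trans hT
    have hTB : (2 : ℝ) ^ (max B 0) ≤ T := (le_max_left _ _).trans ((le_max_right _ _).trans hT)
    have hT1 : (1 : ℝ) ≤ T := (le_max_right _ _).trans ((le_max_right _ _).trans hT)
    have hT0 : (0 : ℝ) < T := by linarith
    -- the scale
    obtain ⟨k, hk1, hk2⟩ : ∃ k : ℕ, T ≤ 2 ^ k ∧ (2 : ℝ) ^ k ≤ 2 * T := by
      refine ⟨Nat.clog 2 ⌈T⌉₊, ?_, ?_⟩
      · have h3 : ⌈T⌉₊ ≤ 2 ^ Nat.clog 2 ⌈T⌉₊ := Nat.le_pow_clog (by norm_num) _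
        calc T ≤ (⌈T⌉₊ : ℝ) := Nat.le_ceil T
          _ ≤ ((2 ^ Nat.clog 2 ⌈T⌉₊ : ℕ) : ℝ) := by exact_mod_cast h3
          _ = 2 ^ Nat.clog 2 ⌈T⌉₊ := by push_cast; rfl
      · rcases Nat.lt_or_ge ⌈T⌉₊ 2 with h3 | h3
        · rw [Nat.clog_of_right_le_one (by omega)]
          simp only [pow_zero]
          linarith
        · have h4 : 2 ^ (Nat.clog 2 ⌈T⌉₊).pred < ⌈T⌉₊ := Nat.pow_pred_clog_lt_self (by norm_num) (by omega)
          have h5 : 0 < Nat.clog 2 ⌈T⌉₊ := Nat.clog_pos (by norm_num) h3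
          obtain ⟨m, hm⟩ := Nat.exists_eq_succ_of_ne_zero h5.ne'
          rw [hm] at h4 ⊢
          rw [Nat.pred_succ] at h4
          have h6 : ((2 ^ m : ℕ) : ℝ) < T := Nat.lt_ceil.1 h4
          push_cast at h6
          rw [Nat.succ_eq_add_one, pow_succ]
          linarith
    have hkK : K ≤ k := by
      have h3 : (2 : ℝ) ^ K ≤ 2 ^ k := hTK.trans hk1
      exact (pow_le_pow_iff_right₀ (by norm_num : (1 : ℝ) < 2)).1 h3
    have hk0 : (0 : ℝ) < 2 ^ k := by positivity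
    have hmem : q ∈ E k := hmono B T (2 ^ k) q hT1 hk1 hk2 hTB hq
    have hball : x ∈ U ⟨k, ⟨q, by
        rw [Finset.mem_coe, Set.Finite.mem_toFinset]
        exact hmem⟩⟩ := by
      rw [hU]
      simp only
      rw [mem_closedBall, dist_pi_le_iff (hr0 k).le]
      intro j
      rw [Real.dist_eq]
      refine (hxq j).trans ?_
      rw [hr]
      simp only
      have h3 : (2 : ℝ) ^ k / 2 ≤ T := by linarith
      calc T ^ (-τ) ≤ ((2 : ℝ) ^ k / 2) ^ (-τ) :=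
            Real.rpow_le_rpow_of_nonpos (by positivity) h3 (by linarith)
        _ = 2 ^ τ * ((2 : ℝ) ^ k) ^ (-τ) := by
            rw [Real.div_rpow hk0.le (by norm_num), Real.rpow_neg (by norm_num : (0 : ℝ) ≤ 2) τ]
            field_simp
    have h8 := hK _ hball
    simp only at h8
    omega

/-- The form without `β`, for countably many families of exceptional sets at once: if for every `σ > σ₀` there are at
most `C T ^ σ` exceptional points at the level `T`, then the dimension of the exceptional real points is at most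
`σ₀ / τ`. -/
theorem near_all {n : ℕ} {ι : Type} [Countable ι] (Exc : ι → ℝ → ℝ → Set (Fin n → ℚ)) {σ₀ : ℝ} (hσ : 0 ≤ σ₀)
    (hmono : ∀ (i : ι) (B T T' : ℝ) (q : Fin n → ℚ), 1 ≤ T → T ≤ T' → T' ≤ 2 * T → (2 : ℝ) ^ (max B 0) ≤ T →
      q ∈ Exc i (max B 0 + 1) T → q ∈ Exc i B T')
    (h : ∀ (i : ι) (σ : ℝ), σ₀ < σ → ∃ B C : ℝ, ∀ T : ℝ, 1 ≤ T → (Exc i B T).Finite ∧
      ((Exc i B T).ncard : ℝ) ≤ C * T ^ σ) (τ : ℝ) (hτ : 0 < τ) :
    ∃ Z : Set (Fin n → ℝ), dimH Z ≤ ENNReal.ofReal (σ₀ / τ) ∧ (σ₀ < n * τ → volume Z = 0) ∧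
      ∀ x : Fin n → ℝ, x ∉ Z → ∀ i : ι, ∃ B : ℝ, ∀ᶠ T : ℝ in atTop, ∀ q : Fin n → ℚ,
        (∀ j, |x j - q j| ≤ T ^ (-τ)) → q ∉ Exc i B T := by
  have key : ∀ (i : ι) (k : ℕ), ∃ B : ℝ, ∃ Z : Set (Fin n → ℝ),
      dimH Z ≤ ENNReal.ofReal ((σ₀ + 1 / ((k : ℝ) + 1)) / τ) ∧ (σ₀ + 1 / ((k : ℝ) + 1) < n * τ → volume Z = 0) ∧
      ∀ x : Fin n → ℝ, x ∉ Z → ∀ᶠ T : ℝ in atTop, ∀ q : Fin n → ℚ,
        (∀ j, |x j - q j| ≤ T ^ (-τ)) → q ∉ Exc i B T := by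
    intro i k
    have hk : (0 : ℝ) < 1 / ((k : ℝ) + 1) := by positivity
    obtain ⟨B, hB⟩ := near (Exc i) (σ := σ₀ + 1 / ((k : ℝ) + 1)) (by linarith) (hmono i) (h i _ (by linarith))
    exact ⟨B, hB τ hτ⟩
  choose B Z h1 h2 h3 using key
  refine ⟨⋃ i, ⋂ k, Z i k, ?_, ?_, ?_⟩
  · rw [dimH_iUnion]
    refine iSup_le fun i => ENNReal.le_of_forall_pos_le_add fun ε hε _ => ?_
    have hε' : (0 : ℝ) < ε := by exact_mod_cast hε
    obtain ⟨k, hk⟩ := exists_nat_one_div_lt (show (0 : ℝ) < ε * τ by positivity)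
    refine (dimH_mono (Set.iInter_subset _ k)).trans ((h1 i k).trans ?_)
    have h4 : (σ₀ + 1 / ((k : ℝ) + 1)) / τ ≤ σ₀ / τ + ε := by
      rw [div_le_iff₀ hτ, add_mul, div_mul_cancel₀ _ hτ.ne']
      linarith
    refine (ENNReal.ofReal_le_ofReal h4).trans ?_
    rw [ENNReal.ofReal_add (div_nonneg hσ hτ.le) hε'.le, ENNReal.ofReal_coe_nnreal]
  · intro hn
    refine measure_iUnion_null fun i => ?_
    obtain ⟨k, hk⟩ := exists_nat_one_div_lt (show (0 : ℝ) < n * τ - σ₀ by linarith)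
    exact measure_mono_null (Set.iInter_subset _ k) (h2 i k (by linarith))
  · intro x hx i
    have h4 : x ∉ ⋂ k, Z i k := fun h5 => hx (Set.mem_iUnion.2 ⟨i, h5⟩)
    rw [Set.mem_iInter, not_forall] at h4
    obtain ⟨k, hk⟩ := h4
    exact ⟨B i k, h3 i k x hk⟩

/-- all degrees at once, for `τ ≥ 2` -/
theorem union {n : ℕ} {P : ℕ → (Fin n → ℝ) → Prop} {σ : ℕ → ℝ} (hσ : ∀ d, σ d < 2 * n) {τ : ℝ}
    (hτ : 2 ≤ τ)
    (h : ∀ d : ℕ, ∃ Z : Set (Fin n → ℝ), dimH Z ≤ ENNReal.ofReal (σ d / τ) ∧ (σ d < n * τ → volume Z = 0) ∧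
      ∀ x : Fin n → ℝ, x ∉ Z → P d x) :
    ∃ Z : Set (Fin n → ℝ), dimH Z ≤ ENNReal.ofReal (2 * n / τ) ∧ volume Z = 0 ∧
      ∀ x : Fin n → ℝ, x ∉ Z → ∀ d, P d x := by
  choose Z h1 h2 h3 using h
  refine ⟨⋃ d, Z d, ?_, ?_, fun x hx d => h3 d x fun h4 => hx (Set.mem_iUnion.2 ⟨d, h4⟩)⟩
  · rw [dimH_iUnion]
    refine iSup_le fun d => (h1 d).trans (ENNReal.ofReal_le_ofReal ?_)
    exact div_le_div_of_nonneg_right (hσ d).le (by linarith)
  · refine measure_iUnion_null fun d => h2 d ((hσ d).trans_le ?_)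
    have : (0 : ℝ) ≤ n := Nat.cast_nonneg n
    nlinarith

/-- The form used for relations of bounded degree `d` and coefficients at most `T ^ A`. -/
theorem both {n : ℕ} (hn : 1 ≤ n) (Exc : ℕ → ℝ → ℝ → ℝ → Set (Fin n → ℚ)) (N : ℕ → ℝ) (hN : ∀ d, 0 ≤ N d)
    (hmono : ∀ (d : ℕ) (A B T T' : ℝ) (q : Fin n → ℚ), 0 ≤ A → 1 ≤ T → T ≤ T' → T' ≤ 2 * T →
      (2 : ℝ) ^ (max B 0) ≤ T → q ∈ Exc d A (max B 0 + 1) T → q ∈ Exc d A B T')
    (hmonoA : ∀ (d : ℕ) (A A' B T : ℝ) (q : Fin n → ℚ), A ≤ A' → 1 ≤ T → q ∈ Exc d A B T → q ∈ Exc d A' B T)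
    (h : ∀ (d : ℕ) (A β : ℝ), 0 ≤ A → 2 - 2 / (N d + 1) < β → ∃ B C : ℝ, ∀ T : ℝ, 1 ≤ T →
      (Exc d A B T).Finite ∧ ((Exc d A B T).ncard : ℝ) ≤ C * T ^ (2 * ((n : ℝ) - 1) + β)) :
    (∀ (d : ℕ) (τ : ℝ), 0 < τ → ∃ Z : Set (Fin n → ℝ), dimH Z ≤ ENNReal.ofReal ((2 * n - 2 / (N d + 1)) / τ) ∧
      (2 * n - 2 / (N d + 1) < n * τ → volume Z = 0) ∧
      ∀ x : Fin n → ℝ, x ∉ Z → ∀ A : ℝ, ∃ B : ℝ, ∀ᶠ T : ℝ in atTop, ∀ q : Fin n → ℚ,
        (∀ j, |x j - q j| ≤ T ^ (-τ)) → q ∉ Exc d A B T) ∧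
    (∀ τ : ℝ, 2 ≤ τ → ∃ Z : Set (Fin n → ℝ), dimH Z ≤ ENNReal.ofReal (2 * n / τ) ∧ volume Z = 0 ∧
      ∀ x : Fin n → ℝ, x ∉ Z → ∀ (d : ℕ) (A : ℝ), ∃ B : ℝ, ∀ᶠ T : ℝ in atTop, ∀ q : Fin n → ℚ,
        (∀ j, |x j - q j| ≤ T ^ (-τ)) → q ∉ Exc d A B T) := by
  have hn' : (1 : ℝ) ≤ n := by exact_mod_cast hn
  have hN1 : ∀ d, 0 < 2 / (N d + 1) ∧ 2 / (N d + 1) ≤ 2 := by
    intro d
    have h1 : 0 < N d + 1 := by linarith [hN d]
    refine ⟨by positivity, ?_⟩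
    rw [div_le_iff₀ h1]
    linarith [hN d]
  have h1 : ∀ (d : ℕ) (τ : ℝ), 0 < τ → ∃ Z : Set (Fin n → ℝ),
      dimH Z ≤ ENNReal.ofReal ((2 * n - 2 / (N d + 1)) / τ) ∧
      (2 * n - 2 / (N d + 1) < n * τ → volume Z = 0) ∧
      ∀ x : Fin n → ℝ, x ∉ Z → ∀ A : ℝ, ∃ B : ℝ, ∀ᶠ T : ℝ in atTop, ∀ q : Fin n → ℚ,
        (∀ j, |x j - q j| ≤ T ^ (-τ)) → q ∉ Exc d A B T := by
    intro d τ hτ
    obtain ⟨Z, h2, h3, h4⟩ := near_all (ι := ℕ) (fun A B T => Exc d (A : ℝ) B T)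
      (σ₀ := 2 * n - 2 / (N d + 1)) (by linarith [(hN1 d).2])
      (fun A B T T' q => hmono d A B T T' q (Nat.cast_nonneg A))
      (fun A σ hσ => by
        have h5 := h d A (σ - 2 * ((n : ℝ) - 1)) (Nat.cast_nonneg A) (by linarith)
        rwa [add_sub_cancel] at h5) τ hτ
    refine ⟨Z, h2, h3, fun x hx A => ?_⟩
    obtain ⟨k, hk⟩ := exists_nat_ge A
    obtain ⟨B, hB⟩ := h4 x hx k
    refine ⟨B, ?_⟩
    filter_upwards [hB, eventually_ge_atTop 1] with T hT hT1 q hq hmem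
    exact hT q hq (hmonoA d A k B T q hk hT1 hmem)
  refine ⟨h1, fun τ hτ => ?_⟩
  exact union (P := fun d x => ∀ A : ℝ, ∃ B : ℝ, ∀ᶠ T : ℝ in atTop, ∀ q : Fin n → ℚ,
        (∀ j, |x j - q j| ≤ T ^ (-τ)) → q ∉ Exc d A B T) (σ := fun d => 2 * n - 2 / (N d + 1))
    (fun d => by linarith [(hN1 d).1]) hτ (fun d => h1 d τ (by linarith))

end Pool.Agent.Q229.RA
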