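import Pool.Agent.Q229.RA

set_option autoImplicit false

/-! Few exceptional points of a metric space at every level: all points (of the countable set considered) near almost every
point are not exceptional. -/

namespace Pool.Agent.Q229.RAC

open MeasureTheory Filter Set ENNReal NNReal Topology Metric

/-- Let `Exc B T` be the exceptional points at the level `T`. If there are at most `C T ^ σ` of them for all large `T`, then,
with a larger `B`, for all points `x` outside a set of dimension at most `σ / τ` and all large `T`, no point `q` with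
`dist x q ≤ T ^ (-τ)` is exceptional at the level `T`. -/
theorem near {X : Type} [MetricSpace X] (Exc : ℝ → ℝ → Set X) {σ : ℝ} (hσ : 0 ≤ σ)
    (hmono : ∀ (B T T' : ℝ) (q : X), 1 ≤ T → T ≤ T' → T' ≤ 2 * T → (2 : ℝ) ^ (max B 0) ≤ T →
      q ∈ Exc (max B 0 + 1) T → q ∈ Exc B T')
    (h : ∃ B C T₀ : ℝ, ∀ T : ℝ, T₀ ≤ T → (Exc B T).Finite ∧ ((Exc B T).ncard : ℝ) ≤ C * T ^ σ) :
    ∃ B : ℝ, ∀ τ : ℝ, 0 < τ → ∃ Z : Set X, dimH Z ≤ ENNReal.ofReal (σ / τ) ∧
      ∀ x : X, x ∉ Z → ∀ᶠ T : ℝ in atTop, ∀ q : X, dist x q ≤ T ^ (-τ) → q ∉ Exc B T := by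
  classical
  borelize X
  obtain ⟨B, C, T₀, h⟩ := h
  refine ⟨max B 0 + 1, fun τ hτ => ?_⟩
  set E : ℕ → Set X := fun k => if T₀ ≤ (2 : ℝ) ^ k then Exc B (2 ^ k) else ∅ with hE
  have hfin : ∀ k, (E k).Finite := by
    intro k
    simp only [hE]
    split_ifs with hk
    · exact (h (2 ^ k) hk).1
    · exact Set.finite_empty
  have hcard : ∀ k, ((hfin k).toFinset.card : ℝ) ≤ |C| * ((2 : ℝ) ^ k) ^ σ := by
    intro k
    rw [← Set.ncard_eq_toFinset_card _ (hfin k)]
    simp only [hE]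
    split_ifs with hk
    · have h2 := (h (2 ^ k) hk).2
      exact h2.trans (mul_le_mul_of_nonneg_right (le_abs_self C) (by positivity))
    · rw [Set.ncard_empty]
      push_cast
      positivity
  set r : ℕ → ℝ := fun k => 2 ^ τ * ((2 : ℝ) ^ k) ^ (-τ) with hr
  have hr0 : ∀ k, 0 < r k := fun k => by
    have : (0 : ℝ) < 2 ^ k := by positivity
    rw [hr]
    positivity
  set U : (Σ k : ℕ, ((hfin k).toFinset : Set X)) → Set X :=
    fun p => closedBall (p.2 : X) (r p.1) with hU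
  have hnull : ∀ s : ℝ, σ / τ < s → μH[s] {x | {p | x ∈ U p}.Infinite} = 0 := by
    intro s hs
    have hs0 : 0 < s := lt_of_le_of_lt (div_nonneg hσ hτ.le) hs
    apply Pool.Agent.Q21.AW.hc hs0 U
    rw [ENNReal.tsum_sigma']
    have h2 : ∀ k : ℕ, (∑' b : ((hfin k).toFinset : Set X), ediam (U ⟨k, b⟩) ^ s) ≤
        ENNReal.ofReal ((|C| * (2 * 2 ^ τ) ^ s) * ((2 : ℝ) ^ (σ - τ * s)) ^ k) := by
      intro k
      have h3 : ∀ b : ((hfin k).toFinset : Set X), ediam (U ⟨k, b⟩) ^ s ≤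
          ENNReal.ofReal ((2 * r k) ^ s) := by
        intro b
        rw [← ENNReal.ofReal_rpow_of_pos (by linarith [hr0 k] : 0 < 2 * r k)]
        refine ENNReal.rpow_le_rpow ?_ hs0.le
        refine ediam_le fun y hy z hz => ?_
        rw [edist_dist]
        refine ENNReal.ofReal_le_ofReal ?_
        have hy' := mem_closedBall.1 hy
        have hz' := mem_closedBall.1 hz
        have := dist_triangle_right y z (b : X)
        linarith
      refine (ENNReal.tsum_le_tsum h3).trans ?_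
      rw [tsum_fintype, Finset.sum_const, nsmul_eq_mul]
      have h4 : (Finset.univ : Finset ((hfin k).toFinset : Set X)).card = (hfin k).toFinset.card := by
        simp
      rw [h4, ← ENNReal.ofReal_natCast, ← ENNReal.ofReal_mul (by positivity)]
      refine ENNReal.ofReal_le_ofReal ?_
      have h2k : (0 : ℝ) < 2 ^ k := by positivity
      calc ((hfin k).toFinset.card : ℝ) * (2 * r k) ^ s ≤ (|C| * ((2 : ℝ) ^ k) ^ σ) * (2 * r k) ^ s :=
            mul_le_mul_of_nonneg_right (hcard k) (by have := (hr0 k).le; positivity)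
        _ = (|C| * (2 * 2 ^ τ) ^ s) * (((2 : ℝ) ^ k) ^ σ * ((2 : ℝ) ^ k) ^ (-τ * s)) := by
            rw [hr]
            simp only
            rw [← mul_assoc, Real.mul_rpow (by positivity) (by positivity), ← Real.rpow_mul h2k.le]
            ring
        _ = (|C| * (2 * 2 ^ τ) ^ s) * ((2 : ℝ) ^ (σ - τ * s)) ^ k := by
            rw [← Real.rpow_add h2k, ← Real.rpow_natCast, ← Real.rpow_mul (by norm_num), ← Real.rpow_natCast,
              ← Real.rpow_mul (by norm_num)]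
            congr 2
            ring
    refine ne_top_of_le_ne_top ?_ (ENNReal.tsum_le_tsum h2)
    have hlt : (2 : ℝ) ^ (σ - τ * s) < 1 := by
      apply Real.rpow_lt_one_of_one_lt_of_neg (by norm_num)
      rw [div_lt_iff₀ hτ] at hs
      linarith [mul_comm s τ]
    have hsum : Summable (fun k : ℕ => (|C| * (2 * 2 ^ τ) ^ s) * ((2 : ℝ) ^ (σ - τ * s)) ^ k) :=
      (summable_geometric_of_lt_one (by positivity) hlt).mul_left _
    rw [← ENNReal.ofReal_tsum_of_nonneg (fun k => by positivity) hsum]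
    exact ENNReal.ofReal_ne_top
  refine ⟨{x | {p | x ∈ U p}.Infinite}, ?_, ?_⟩
  · refine ENNReal.le_of_forall_pos_le_add fun ε hε _ => ?_
    have hε' : (0 : ℝ) < ε := by exact_mod_cast hε
    have hst : 0 ≤ σ / τ := div_nonneg hσ hτ.le
    have h2 : dimH {x | {p | x ∈ U p}.Infinite} ≤ (Real.toNNReal (σ / τ + ε) : ℝ≥0∞) := by
      refine dimH_le_of_hausdorffMeasure_ne_top ?_
      rw [Real.coe_toNNReal _ (by positivity), hnull _ (by linarith)]
      exact ENNReal.zero_ne_top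
    refine h2.trans ?_
    have h3 : (Real.toNNReal (σ / τ + ε) : ℝ≥0∞) = ENNReal.ofReal (σ / τ + ε) := rfl
    rw [h3, ENNReal.ofReal_add hst hε'.le, ENNReal.ofReal_coe_nnreal]
  · intro x hx
    have hx' : {p | x ∈ U p}.Finite := Set.not_infinite.1 hx
    obtain ⟨K, hK⟩ : ∃ K : ℕ, ∀ p ∈ {p | x ∈ U p}, p.1 < K := by
      refine ⟨(hx'.toFinset.sup fun p => p.1) + 1, fun p hp => ?_⟩
      exact Nat.lt_succ_of_le (Finset.le_sup (f := fun p : (Σ k : ℕ, ((hfin k).toFinset : Set X)) => p.1)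
        (hx'.mem_toFinset.2 hp))
    filter_upwards [eventually_ge_atTop (max ((2 : ℝ) ^ K) (max ((2 : ℝ) ^ (max B 0)) (max 1 T₀)))] with T hT q hxq hq
    have hTK : (2 : ℝ) ^ K ≤ T := (le_max_left _ _).trans hT
    have hTB : (2 : ℝ) ^ (max B 0) ≤ T := (le_max_left _ _).trans ((le_max_right _ _).trans hT)
    have hT1 : (1 : ℝ) ≤ T := (le_max_left _ _).trans ((le_max_right _ _).trans ((le_max_right _ _).trans hT))
    have hT2 : T₀ ≤ T := (le_max_right _ _).trans ((le_max_right _ _).trans ((le_max_right _ _).trans hT))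
    have hT0 : (0 : ℝ) < T := by linarith
    -- the scale
    obtain ⟨k, hk1, hk2⟩ : ∃ k : ℕ, T ≤ 2 ^ k ∧ (2 : ℝ) ^ k ≤ 2 * T := by
      refine ⟨Nat.clog 2 ⌈T⌉₊, ?_, ?_⟩
      · have h3 : ⌈T⌉₊ ≤ 2 ^ Nat.clog 2 ⌈T⌉₊ := Nat.le_pow_clog (by norm_num) _
        calc T ≤ (⌈T⌉₊ : ℝ) := Nat.le_ceil T
          _ ≤ ((2 ^ Nat.clog 2 ⌈T⌉₊ : ℕ) : ℝ) := by exact_mod_cast h3
          _ = 2 ^ Nat.clog 2 ⌈T⌉₊ := by push_cast; rfl
      · rcases Nat.lt_or_ge ⌈T⌉₊ 2 with h3 | h3
        · rw [Nat.clog_of_right_le_one (by omega)]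
          simp only [pow_zero]
          linarith
        · have h4 : 2 ^ (Nat.clog 2 ⌈T⌉₊).pred < ⌈T⌉₊ := Nat.pow_pred_clog_lt_self (by norm_num) (by omega)
          have h5 : 0 < Nat.clog 2 ⌈T⌉₊ := Nat.clog_pos (by norm_num) h3
          obtain ⟨m, hm⟩ := Nat.exists_eq_succ_of_ne_zero h5.ne'
          rw [hm] at h4 ⊢
          rw [Nat.pred_succ] at h4
          have h6 : ((2 ^ m : ℕ) : ℝ) < T := Nat.lt_ceil.1 h4
          push_cast at h6
          rw [Nat.succ_eq_add_one, pow_succ]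
          linarith
    have hkK : K ≤ k := by
      have h3 : (2 : ℝ) ^ K ≤ 2 ^ k := hTK.trans hk1
      exact (pow_le_pow_iff_right₀ (by norm_num : (1 : ℝ) < 2)).1 h3
    have hk0 : (0 : ℝ) < 2 ^ k := by positivity
    have hmem : q ∈ E k := by
      simp only [hE]
      rw [if_pos (hT2.trans hk1)]
      exact hmono B T (2 ^ k) q hT1 hk1 hk2 hTB hq
    have hball : x ∈ U ⟨k, ⟨q, by
        rw [Finset.mem_coe, Set.Finite.mem_toFinset]
        exact hmem⟩⟩ := by
      rw [hU]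
      simp only
      rw [mem_closedBall]
      refine hxq.trans ?_
      rw [hr]
      simp only
      have h3 : (2 : ℝ) ^ k / 2 ≤ T := by linarith
      calc T ^ (-τ) ≤ ((2 : ℝ) ^ k / 2) ^ (-τ) :=
            Real.rpow_le_rpow_of_nonpos (by positivity) h3 (by linarith)
        _ = 2 ^ τ * ((2 : ℝ) ^ k) ^ (-τ) := by
            rw [Real.div_rpow hk0.le (by norm_num), Real.rpow_neg (by norm_num : (0 : ℝ) ≤ 2) τ]
            field_simp
    have h8 := hK _ hball
    simp only at h8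
    omega

/-- For countably many families of exceptional sets at once: if for every `σ > σ₀` there are at most `C T ^ σ` exceptional
points at the level `T`, then the dimension of the exceptional points is at most `σ₀ / τ`. -/
theorem near_all {X : Type} [MetricSpace X] {ι : Type} [Countable ι] (Exc : ι → ℝ → ℝ → Set X) {σ₀ : ℝ} (hσ : 0 ≤ σ₀)
    (hmono : ∀ (i : ι) (B T T' : ℝ) (q : X), 1 ≤ T → T ≤ T' → T' ≤ 2 * T → (2 : ℝ) ^ (max B 0) ≤ T →
      q ∈ Exc i (max B 0 + 1) T → q ∈ Exc i B T')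
    (h : ∀ (i : ι) (σ : ℝ), σ₀ < σ → ∃ B C T₀ : ℝ, ∀ T : ℝ, T₀ ≤ T → (Exc i B T).Finite ∧
      ((Exc i B T).ncard : ℝ) ≤ C * T ^ σ) (τ : ℝ) (hτ : 0 < τ) :
    ∃ Z : Set X, dimH Z ≤ ENNReal.ofReal (σ₀ / τ) ∧
      ∀ x : X, x ∉ Z → ∀ i : ι, ∃ B : ℝ, ∀ᶠ T : ℝ in atTop, ∀ q : X,
        dist x q ≤ T ^ (-τ) → q ∉ Exc i B T := by
  have key : ∀ (i : ι) (k : ℕ), ∃ B : ℝ, ∃ Z : Set X,
      dimH Z ≤ ENNReal.ofReal ((σ₀ + 1 / ((k : ℝ) + 1)) / τ) ∧
      ∀ x : X, x ∉ Z → ∀ᶠ T : ℝ in atTop, ∀ q : X, dist x q ≤ T ^ (-τ) → q ∉ Exc i B T := by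
    intro i k
    have hk : (0 : ℝ) < 1 / ((k : ℝ) + 1) := by positivity
    obtain ⟨B, hB⟩ := near (Exc i) (σ := σ₀ + 1 / ((k : ℝ) + 1)) (by linarith) (hmono i) (h i _ (by linarith))
    exact ⟨B, hB τ hτ⟩
  choose B Z h1 h3 using key
  refine ⟨⋃ i, ⋂ k, Z i k, ?_, ?_⟩
  · rw [dimH_iUnion]
    refine iSup_le fun i => ENNReal.le_of_forall_pos_le_add fun ε hε _ => ?_
    have hε' : (0 : ℝ) < ε := by exact_mod_cast hε
    obtain ⟨k, hk⟩ := exists_nat_one_div_lt (show (0 : ℝ) < ε * τ by positivity)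
    refine (dimH_mono (Set.iInter_subset _ k)).trans ((h1 i k).trans ?_)
    have h4 : (σ₀ + 1 / ((k : ℝ) + 1)) / τ ≤ σ₀ / τ + ε := by
      rw [div_le_iff₀ hτ, add_mul, div_mul_cancel₀ _ hτ.ne']
      linarith
    refine (ENNReal.ofReal_le_ofReal h4).trans ?_
    rw [ENNReal.ofReal_add (div_nonneg hσ hτ.le) hε'.le, ENNReal.ofReal_coe_nnreal]
  · intro x hx i
    have h4 : x ∉ ⋂ k, Z i k := fun h5 => hx (Set.mem_iUnion.2 ⟨i, h5⟩)
    rw [Set.mem_iInter, not_forall] at h4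
    obtain ⟨k, hk⟩ := h4
    exact ⟨B i k, h3 i k x hk⟩

/-- The number fields in `ℂ` are countable. -/
theorem countable_nf : Countable {F : IntermediateField ℚ ℂ // FiniteDimensional ℚ F} := by
  have h1 : Countable {x : ℂ // IsAlgebraic ℚ x} := (Algebraic.countable ℚ ℂ).to_subtype
  refine Function.Surjective.countable (f := fun x : {x : ℂ // IsAlgebraic ℚ x} =>
    (⟨IntermediateField.adjoin ℚ {x.1}, IntermediateField.adjoin.finiteDimensional x.2.isIntegral⟩ :
      {F : IntermediateField ℚ ℂ // FiniteDimensional ℚ F})) ?_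
  rintro ⟨F, hF⟩
  obtain ⟨α, hα⟩ := @Field.exists_primitive_element ℚ F _ _ (IntermediateField.algebra' F) hF inferInstance
  refine ⟨⟨(α : ℂ), ?_⟩, ?_⟩
  · exact (IsAlgebraic.of_finite ℚ α).algebraMap
  · rw [Subtype.mk.injEq]
    have h := congr_arg IntermediateField.lift hα
    rwa [IntermediateField.lift_top, IntermediateField.lift_adjoin_simple] at h

end Pool.Agent.Q229.RAC
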