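import Pool.Agent.Q229.RA
import Pool.Agent.Y120.RealPolys

set_option autoImplicit false

/-! Values of algebraically independent analytic functions at ALL rational points near almost every real point. -/

namespace Pool.Agent.Q229.RA

open MeasureTheory Filter Set Pool.Agent.Y120

/-- The form used for relations of bounded degree `d` and coefficients at most `T ^ A`, if for every `ε > 0` there are at
most `C T ^ (2 (n - 1) + ε)` exceptional points. -/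
theorem eps {n : ℕ} (hn : 1 ≤ n) (Exc : ℕ → ℝ → ℝ → ℝ → Set (Fin n → ℚ))
    (hmono : ∀ (d : ℕ) (A B T T' : ℝ) (q : Fin n → ℚ), 0 ≤ A → 1 ≤ T → T ≤ T' → T' ≤ 2 * T →
      (2 : ℝ) ^ (max B 0) ≤ T → q ∈ Exc d A (max B 0 + 1) T → q ∈ Exc d A B T')
    (hmonoA : ∀ (d : ℕ) (A A' B T : ℝ) (q : Fin n → ℚ), A ≤ A' → 1 ≤ T → q ∈ Exc d A B T → q ∈ Exc d A' B T)
    (h : ∀ (d : ℕ) (A ε : ℝ), 0 ≤ A → 0 < ε → ∃ B C : ℝ, ∀ T : ℝ, 1 ≤ T →
      (Exc d A B T).Finite ∧ ((Exc d A B T).ncard : ℝ) ≤ C * T ^ (2 * ((n : ℝ) - 1) + ε)) (τ : ℝ) (hτ : 0 < τ) :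
    ∃ Z : Set (Fin n → ℝ), dimH Z ≤ ENNReal.ofReal (2 * ((n : ℝ) - 1) / τ) ∧
      (2 * ((n : ℝ) - 1) < n * τ → volume Z = 0) ∧
      ∀ x : Fin n → ℝ, x ∉ Z → ∀ (d : ℕ) (A : ℝ), ∃ B : ℝ, ∀ᶠ T : ℝ in atTop, ∀ q : Fin n → ℚ,
        (∀ j, |x j - q j| ≤ T ^ (-τ)) → q ∉ Exc d A B T := by
  have hn' : (1 : ℝ) ≤ n := by exact_mod_cast hn
  obtain ⟨Z, h2, h3, h4⟩ := near_all (ι := ℕ × ℕ) (fun i B T => Exc i.1 (i.2 : ℝ) B T)
    (σ₀ := 2 * ((n : ℝ) - 1)) (by linarith)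
    (fun i B T T' q => hmono i.1 i.2 B T T' q (Nat.cast_nonneg i.2))
    (fun i σ hσ => by
      have h5 := h i.1 i.2 (σ - 2 * ((n : ℝ) - 1)) (Nat.cast_nonneg _) (by linarith)
      rwa [add_sub_cancel] at h5) τ hτ
  refine ⟨Z, h2, h3, fun x hx d A => ?_⟩
  obtain ⟨k, hk⟩ := exists_nat_ge A
  obtain ⟨B, hB⟩ := h4 x hx (d, k)
  refine ⟨B, ?_⟩
  filter_upwards [hB, eventually_ge_atTop 1] with T hT hT1 q hq hmem
  exact hT q hq (hmonoA d A k B T q hk hT1 hmem)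

/-- Functions `f_(j,i)`, `i ∈ κ`, analytic on `[a_j, b_j]` and algebraically independent over `ℝ(t)`: relations between
`π` and the `i ^ (s i) f_(j,i) (q_j)`. -/
theorem master {κ : Type} [Fintype κ] [DecidableEq κ] {n : ℕ} (hn : 1 ≤ n) (f : Fin n → κ → ℝ → ℝ) (s : κ → ℕ)
    (a b : Fin n → ℝ) (hab : ∀ j, a j < b j)
    (han : ∀ j i, AnalyticOnNhd ℝ (f j i) (Set.Icc (a j) (b j))) (hf : ∀ j, AInd (f j) (a j) (b j))
    (τ : ℝ) (hτ : 0 < τ) :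
    ∃ Z : Set (Fin n → ℝ), dimH Z ≤ ENNReal.ofReal (2 * ((n : ℝ) - 1) / τ) ∧
      (2 * ((n : ℝ) - 1) < n * τ → volume Z = 0) ∧
      ∀ x : Fin n → ℝ, x ∉ Z → ∀ (d : ℕ) (A : ℝ), ∃ B : ℝ, ∀ᶠ T : ℝ in atTop, ∀ q : Fin n → ℚ,
        (∀ j, |x j - q j| ≤ T ^ (-τ)) → q ∉ ExCx d f s a b A B T := by
  refine eps hn (fun d A B T => ExCx d f s a b A B T) ?_ ?_ ?_ τ hτ
  · rintro d A B T T' q hA hT hTT h2 hB ⟨h1, P, hP, hdeg, hcoef, hval⟩
    exact ⟨fun j => ⟨(h1 j).1, (h1 j).2.1, (h1 j).2.2.trans hTT⟩, P, hP, hdeg,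
      fun e => (hcoef e).trans (Real.rpow_le_rpow (by linarith) hTT hA),
      hval.trans (pow_le hT hTT h2 hB)⟩
  · rintro d A A' B T q hAA hT ⟨h1, P, hP, hdeg, hcoef, hval⟩
    exact ⟨h1, P, hP, hdeg, fun e => (hcoef e).trans (Real.rpow_le_rpow_of_exponent_le hT hAA), hval⟩
  · intro d A ε hA hε
    exact polysC_eps (d := d) f s a b hab han hf hn A ε hε

/-- The form with an explicit polynomial: `v q` are the numbers. -/
theorem master' {κ : Type} [Fintype κ] [DecidableEq κ] {n : ℕ} (hn : 1 ≤ n) (f : Fin n → κ → ℝ → ℝ) (s : κ → ℕ)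
    (a b : Fin n → ℝ) (hab : ∀ j, a j < b j)
    (han : ∀ j i, AnalyticOnNhd ℝ (f j i) (Set.Icc (a j) (b j))) (hf : ∀ j, AInd (f j) (a j) (b j))
    (v : (Fin n → ℚ) → Option (Fin n × κ) → ℂ) (hv0 : ∀ q, v q none = (Real.pi : ℂ))
    (hv : ∀ q : Fin n → ℚ, (∀ j, a j ≤ q j ∧ (q j : ℝ) ≤ b j) →
      ∀ (j : Fin n) (i : κ), v q (some (j, i)) = Complex.I ^ s i * ((f j i (q j) : ℝ) : ℂ))
    (τ : ℝ) (hτ : 0 < τ) :
    ∃ Z : Set (Fin n → ℝ), dimH Z ≤ ENNReal.ofReal (2 * ((n : ℝ) - 1) / τ) ∧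
      (2 * ((n : ℝ) - 1) < n * τ → volume Z = 0) ∧
      ∀ x : Fin n → ℝ, x ∉ Z → ∀ (d : ℕ) (A : ℝ), ∃ B : ℝ, ∀ᶠ T : ℝ in atTop, ∀ q : Fin n → ℚ,
        (∀ j, |x j - q j| ≤ T ^ (-τ)) → (∀ j, a j ≤ q j ∧ (q j : ℝ) ≤ b j ∧ ((q j).den : ℝ) ≤ T) →
        ∀ P : MvPolynomial (Option (Fin n × κ)) ℤ, P ≠ 0 → (∀ x, P.degreeOf x ≤ d) →
          (∀ u, |((P.coeff u : ℤ) : ℝ)| ≤ T ^ A) → T ^ (-B) < ‖MvPolynomial.aeval (v q) P‖ := by
  obtain ⟨Z, h1, h2, h3⟩ := master hn f s a b hab han hf τ hτ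
  refine ⟨Z, h1, h2, fun x hx d A => ?_⟩
  obtain ⟨B, hB⟩ := h3 x hx d A
  refine ⟨B, ?_⟩
  filter_upwards [hB] with T hT q hq hqq P hP hdeg hcoef
  by_contra hlt
  refine hT q hq ⟨hqq, P, hP, hdeg, hcoef, ?_⟩
  have heq : vCx f s q = v q := by
    funext z
    rcases z with _ | ⟨j, i⟩
    · exact (hv0 q).symm
    · exact (hv q (fun j => ⟨(hqq j).1, (hqq j).2.1⟩) j i).symm
  rw [heq]
  exact not_lt.1 hlt

/-- The real form. -/
theorem masterR {κ : Type} [Fintype κ] [DecidableEq κ] {n : ℕ} (hn : 1 ≤ n) (f : Fin n → κ → ℝ → ℝ)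
    (a b : Fin n → ℝ) (hab : ∀ j, a j < b j)
    (han : ∀ j i, AnalyticOnNhd ℝ (f j i) (Set.Icc (a j) (b j))) (hf : ∀ j, AInd (f j) (a j) (b j))
    (v : (Fin n → ℚ) → Option (Fin n × κ) → ℝ) (hv0 : ∀ q, v q none = Real.pi)
    (hv : ∀ q : Fin n → ℚ, (∀ j, a j ≤ q j ∧ (q j : ℝ) ≤ b j) →
      ∀ (j : Fin n) (i : κ), v q (some (j, i)) = f j i (q j))
    (τ : ℝ) (hτ : 0 < τ) :
    ∃ Z : Set (Fin n → ℝ), dimH Z ≤ ENNReal.ofReal (2 * ((n : ℝ) - 1) / τ) ∧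
      (2 * ((n : ℝ) - 1) < n * τ → volume Z = 0) ∧
      ∀ x : Fin n → ℝ, x ∉ Z → ∀ (d : ℕ) (A : ℝ), ∃ B : ℝ, ∀ᶠ T : ℝ in atTop, ∀ q : Fin n → ℚ,
        (∀ j, |x j - q j| ≤ T ^ (-τ)) → (∀ j, a j ≤ q j ∧ (q j : ℝ) ≤ b j ∧ ((q j).den : ℝ) ≤ T) →
        ∀ P : MvPolynomial (Option (Fin n × κ)) ℤ, P ≠ 0 → (∀ x, P.degreeOf x ≤ d) →
          (∀ u, |((P.coeff u : ℤ) : ℝ)| ≤ T ^ A) → T ^ (-B) < |MvPolynomial.aeval (v q) P| := by
  obtain ⟨Z, h1, h2, h3⟩ := master' hn f (fun _ => 0) a b hab han hf (fun q => (algebraMap ℝ ℂ) ∘ v q)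
    (fun q => by simp [hv0 q]) (fun q hq j i => by simp [hv q hq j i]) τ hτ
  refine ⟨Z, h1, h2, fun x hx d A => ?_⟩
  obtain ⟨B, hB⟩ := h3 x hx d A
  refine ⟨B, ?_⟩
  filter_upwards [hB] with T hT q hq hqq P hP hdeg hcoef
  have h4 := hT q hq hqq P hP hdeg hcoef
  have h5 : MvPolynomial.aeval ((algebraMap ℝ ℂ) ∘ v q) P = ((MvPolynomial.aeval (v q) P : ℝ) : ℂ) := by
    rw [MvPolynomial.aeval_algebraMap_apply]
    rfl
  rw [h5, Complex.norm_real, Real.norm_eq_abs] at h4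
  exact h4

/-- one function in each coordinate -/
theorem aind_unit {f : ℝ → ℝ} {a b : ℝ}
    (h : ∀ d : ℕ, Pool.Agent.TH818.AP.RIndep (fun (l : Fin (d + 1)) (t : ℝ) => f t ^ (l : ℕ)) a b) :
    AInd (fun _ : Unit => f) a b := by
  intro d P hP
  have h1 := h d (fun l => P (fun _ => l)) (fun t ht => by
    rw [← hP t ht]
    refine Fintype.sum_equiv (Equiv.funUnique Unit (Fin (d + 1))).symm _ _ fun l => ?_
    have h3 : (Equiv.funUnique Unit (Fin (d + 1))).symm l = fun _ => l := by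
      funext u
      cases u
      rfl
    simp only [h3, Finset.univ_unique, Finset.prod_singleton])
  funext e
  have h2 := congrFun h1 (e ())
  exact h2

/-- Functions `f_(j,i)` on open sets `D_j`, analytic and algebraically independent over `ℝ(t)` on all compact
intervals contained in `D_j`. -/
theorem masterO {κ : Type} [Fintype κ] [DecidableEq κ] {n : ℕ} (hn : 1 ≤ n) (f : Fin n → κ → ℝ → ℝ) (s : κ → ℕ)
    (D : Fin n → Set ℝ) (hD : ∀ j, IsOpen (D j))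
    (han : ∀ j i, AnalyticOnNhd ℝ (f j i) (D j))
    (hf : ∀ j (a b : ℝ), a < b → Set.Icc a b ⊆ D j → AInd (f j) a b)
    (v : (Fin n → ℚ) → Option (Fin n × κ) → ℂ) (hv0 : ∀ q, v q none = (Real.pi : ℂ))
    (hv : ∀ q : Fin n → ℚ, (∀ j, (q j : ℝ) ∈ D j) →
      ∀ (j : Fin n) (i : κ), v q (some (j, i)) = Complex.I ^ s i * ((f j i (q j) : ℝ) : ℂ))
    (τ : ℝ) (hτ : 0 < τ) :
    ∃ Z : Set (Fin n → ℝ), dimH Z ≤ ENNReal.ofReal (2 * ((n : ℝ) - 1) / τ) ∧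
      (2 * ((n : ℝ) - 1) < n * τ → volume Z = 0) ∧
      ∀ x : Fin n → ℝ, (∀ j, x j ∈ D j) → x ∉ Z → ∀ (d : ℕ) (A : ℝ), ∃ B : ℝ, ∀ᶠ T : ℝ in atTop,
        ∀ q : Fin n → ℚ, (∀ j, ((q j).den : ℝ) ≤ T ∧ |x j - q j| ≤ T ^ (-τ)) →
        ∀ P : MvPolynomial (Option (Fin n × κ)) ℤ, P ≠ 0 → (∀ x, P.degreeOf x ≤ d) →
          (∀ u, |((P.coeff u : ℤ) : ℝ)| ≤ T ^ A) → T ^ (-B) < ‖MvPolynomial.aeval (v q) P‖ := by
  classical
  have key : ∀ c : (Fin n → ℚ) × (Fin n → ℚ), ∃ Z : Set (Fin n → ℝ),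
      dimH Z ≤ ENNReal.ofReal (2 * ((n : ℝ) - 1) / τ) ∧
      (2 * ((n : ℝ) - 1) < n * τ → volume Z = 0) ∧
      ((∀ j, c.1 j < c.2 j ∧ Set.Icc (c.1 j : ℝ) (c.2 j) ⊆ D j) →
      ∀ x : Fin n → ℝ, x ∉ Z → ∀ (d : ℕ) (A : ℝ), ∃ B : ℝ, ∀ᶠ T : ℝ in atTop, ∀ q : Fin n → ℚ,
        (∀ j, |x j - q j| ≤ T ^ (-τ)) → (∀ j, (c.1 j : ℝ) ≤ q j ∧ (q j : ℝ) ≤ c.2 j ∧ ((q j).den : ℝ) ≤ T) →
        ∀ P : MvPolynomial (Option (Fin n × κ)) ℤ, P ≠ 0 → (∀ x, P.degreeOf x ≤ d) →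
          (∀ u, |((P.coeff u : ℤ) : ℝ)| ≤ T ^ A) → T ^ (-B) < ‖MvPolynomial.aeval (v q) P‖) := by
    intro c
    by_cases hc : ∀ j, c.1 j < c.2 j ∧ Set.Icc (c.1 j : ℝ) (c.2 j) ⊆ D j
    · have hc' : ∀ j, (c.1 j : ℝ) < c.2 j := fun j => by exact_mod_cast (hc j).1
      obtain ⟨Z, h1, h2, h3⟩ := master' hn f s (fun j => (c.1 j : ℝ)) (fun j => (c.2 j : ℝ)) hc'
        (fun j i => (han j i).mono (hc j).2) (fun j => hf j _ _ (hc' j) (hc j).2) v hv0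
        (fun q hq j i => hv q (fun j => (hc j).2 ⟨(hq j).1, (hq j).2⟩) j i) τ hτ
      exact ⟨Z, h1, h2, fun _ => h3⟩
    · exact ⟨∅, by simp, by simp, fun h => absurd h hc⟩
  choose Z h1 h2 h3 using key
  refine ⟨⋃ c, Z c, ?_, ?_, ?_⟩
  · rw [dimH_iUnion]
    exact iSup_le h1
  · intro hlt
    exact measure_iUnion_null fun c => h2 c hlt
  · intro x hxD hx d A
    have hab : ∀ j, ∃ a b : ℚ, (a : ℝ) < x j ∧ x j < b ∧ Set.Icc (a : ℝ) b ⊆ D j := by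
      intro j
      obtain ⟨ε, hε, hball⟩ := Metric.isOpen_iff.1 (hD j) (x j) (hxD j)
      obtain ⟨a, ha1, ha2⟩ := exists_rat_btwn (show x j - ε < x j by linarith)
      obtain ⟨b, hb1, hb2⟩ := exists_rat_btwn (show x j < x j + ε by linarith)
      refine ⟨a, b, ha2, hb1, fun y hy => hball ?_⟩
      rw [Metric.mem_ball, Real.dist_eq, abs_lt]
      exact ⟨by linarith [hy.1], by linarith [hy.2]⟩
    choose a b ha hb hsub using hab
    have hc : ∀ j, a j < b j ∧ Set.Icc (a j : ℝ) (b j) ⊆ D j := fun j =>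
      ⟨by exact_mod_cast (ha j).trans (hb j), hsub j⟩
    obtain ⟨B, hB⟩ := h3 (a, b) hc x (fun h => hx (Set.mem_iUnion.2 ⟨(a, b), h⟩)) d A
    refine ⟨B, ?_⟩
    have htend : Tendsto (fun T : ℝ => T ^ (-τ)) atTop (nhds 0) := tendsto_rpow_neg_atTop hτ
    have hsmall : ∀ᶠ T : ℝ in atTop, ∀ j, T ^ (-τ) < x j - a j ∧ T ^ (-τ) < b j - x j := by
      rw [eventually_all]
      intro j
      exact (htend.eventually_lt_const (by linarith [ha j])).and (htend.eventually_lt_const (by linarith [hb j]))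
    filter_upwards [hB, hsmall] with T hT hTs q hq P hP hdeg hcoef
    refine hT q (fun j => (hq j).2) (fun j => ?_) P hP hdeg hcoef
    have h5 := abs_le.1 (hq j).2
    exact ⟨by linarith [(hTs j).1], by linarith [(hTs j).2], (hq j).1⟩

/-- The real form. -/
theorem masterOR {κ : Type} [Fintype κ] [DecidableEq κ] {n : ℕ} (hn : 1 ≤ n) (f : Fin n → κ → ℝ → ℝ)
    (D : Fin n → Set ℝ) (hD : ∀ j, IsOpen (D j))
    (han : ∀ j i, AnalyticOnNhd ℝ (f j i) (D j))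
    (hf : ∀ j (a b : ℝ), a < b → Set.Icc a b ⊆ D j → AInd (f j) a b)
    (v : (Fin n → ℚ) → Option (Fin n × κ) → ℝ) (hv0 : ∀ q, v q none = Real.pi)
    (hv : ∀ q : Fin n → ℚ, (∀ j, (q j : ℝ) ∈ D j) → ∀ (j : Fin n) (i : κ), v q (some (j, i)) = f j i (q j))
    (τ : ℝ) (hτ : 0 < τ) :
    ∃ Z : Set (Fin n → ℝ), dimH Z ≤ ENNReal.ofReal (2 * ((n : ℝ) - 1) / τ) ∧
      (2 * ((n : ℝ) - 1) < n * τ → volume Z = 0) ∧
      ∀ x : Fin n → ℝ, (∀ j, x j ∈ D j) → x ∉ Z → ∀ (d : ℕ) (A : ℝ), ∃ B : ℝ, ∀ᶠ T : ℝ in atTop,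
        ∀ q : Fin n → ℚ, (∀ j, ((q j).den : ℝ) ≤ T ∧ |x j - q j| ≤ T ^ (-τ)) →
        ∀ P : MvPolynomial (Option (Fin n × κ)) ℤ, P ≠ 0 → (∀ x, P.degreeOf x ≤ d) →
          (∀ u, |((P.coeff u : ℤ) : ℝ)| ≤ T ^ A) → T ^ (-B) < |MvPolynomial.aeval (v q) P| := by
  obtain ⟨Z, h1, h2, h3⟩ := masterO hn f (fun _ => 0) D hD han hf (fun q => (algebraMap ℝ ℂ) ∘ v q)
    (fun q => by simp [hv0 q]) (fun q hq j i => by simp [hv q hq j i]) τ hτ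
  refine ⟨Z, h1, h2, fun x hxD hx d A => ?_⟩
  obtain ⟨B, hB⟩ := h3 x hxD hx d A
  refine ⟨B, ?_⟩
  filter_upwards [hB] with T hT q hq P hP hdeg hcoef
  have h4 := hT q hq P hP hdeg hcoef
  have h5 : MvPolynomial.aeval ((algebraMap ℝ ℂ) ∘ v q) P = ((MvPolynomial.aeval (v q) P : ℝ) : ℂ) := by
    rw [MvPolynomial.aeval_algebraMap_apply]
    rfl
  rw [h5, Complex.norm_real, Real.norm_eq_abs] at h4
  exact h4

/-- algebraic independence on one interval gives it on all intervals, by analytic continuation -/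
theorem aind_of {κ : Type} [Fintype κ] [DecidableEq κ] {f : κ → ℝ → ℝ} {D : Set ℝ} (hD : IsPreconnected D)
    (han : ∀ i, AnalyticOnNhd ℝ (f i) D) {a b a' b' : ℝ} (hab : a < b) (h1 : Set.Icc a b ⊆ D)
    (h2 : Set.Icc a' b' ⊆ D) (h : AInd f a' b') : AInd f a b := by
  intro d p hp
  apply h d p
  have hF : AnalyticOnNhd ℝ (fun t => ∑ e : κ → Fin (d + 1), (p e).eval t * ∏ i, f i t ^ (e i : ℕ)) D := by
    intro t ht
    refine Finset.analyticAt_fun_sum _ fun e _ => AnalyticAt.fun_mul ?_ ?_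
    · exact (AnalyticOnNhd.eval_polynomial (𝕜 := ℝ) (p e)) t (Set.mem_univ t)
    · exact Finset.analyticAt_fun_prod _ fun i _ => (han i t ht).fun_pow _
  have hmem : (a + b) / 2 ∈ Set.Ioo a b := ⟨by linarith, by linarith⟩
  have hev : (fun t => ∑ e : κ → Fin (d + 1), (p e).eval t * ∏ i, f i t ^ (e i : ℕ)) =ᶠ[nhds ((a + b) / 2)] 0 := by
    filter_upwards [Ioo_mem_nhds hmem.1 hmem.2] with t ht
    exact hp t ⟨ht.1.le, ht.2.le⟩
  have h0 := hF.eqOn_zero_of_preconnected_of_eventuallyEq_zero hD (h1 ⟨hmem.1.le, hmem.2.le⟩) hev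
  intro t ht
  exact h0 (h2 ht)

/-- renaming of the variables -/
theorem rename_bound {σ σ' : Type} (e : σ ≃ σ') {d : ℕ} {c δ : ℝ} {v : σ' → ℂ}
    (h : ∀ P : MvPolynomial σ' ℤ, P ≠ 0 → (∀ x, P.degreeOf x ≤ d) → (∀ u, |((P.coeff u : ℤ) : ℝ)| ≤ c) →
      δ < ‖MvPolynomial.aeval v P‖)
    (P : MvPolynomial σ ℤ) (hP : P ≠ 0) (hdeg : ∀ x, P.degreeOf x ≤ d) (hc : ∀ u, |((P.coeff u : ℤ) : ℝ)| ≤ c) :
    δ < ‖MvPolynomial.aeval (fun x => v (e x)) P‖ := by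
  have h1 := h (MvPolynomial.rename e P) ?_ ?_ ?_
  · rwa [MvPolynomial.aeval_rename] at h1
  · intro h0
    exact hP (MvPolynomial.rename_injective e e.injective (by rw [h0, map_zero]))
  · intro x
    obtain ⟨y, rfl⟩ := e.surjective x
    rw [MvPolynomial.degreeOf_rename_of_injective e.injective]
    exact hdeg y
  · intro u
    have h2 : u = (u.mapDomain e.symm).mapDomain e := by
      rw [← Finsupp.mapDomain_comp]
      simp
    rw [h2, MvPolynomial.coeff_rename_mapDomain e e.injective]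
    exact hc _

/-- linear forms as polynomials -/
theorem lin {σ : Type} [Fintype σ] [DecidableEq σ] (c : σ → ℤ) (hc : c ≠ 0) {K : ℝ} (hK : 0 ≤ K)
    (hcK : ∀ z, |(c z : ℝ)| ≤ K) (v : σ → ℝ) :
    ∃ P : MvPolynomial σ ℤ, P ≠ 0 ∧ (∀ z, P.degreeOf z ≤ 1) ∧ (∀ u, |((P.coeff u : ℤ) : ℝ)| ≤ K) ∧
      MvPolynomial.aeval v P = ∑ z, (c z : ℝ) * v z := by
  classical
  set P : MvPolynomial σ ℤ := ∑ z, MvPolynomial.monomial (Finsupp.single z 1) (c z) with hP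
  have hcoeff : ∀ u, P.coeff u = ∑ z, if Finsupp.single z 1 = u then c z else 0 := by
    intro u
    rw [hP, MvPolynomial.coeff_sum]
    refine Finset.sum_congr rfl fun z _ => ?_
    rw [MvPolynomial.coeff_monomial]
  have hinj : ∀ z z' : σ, Finsupp.single z (1 : ℕ) = Finsupp.single z' 1 ↔ z = z' := fun z z' => by
    constructor
    · intro h
      exact (Finsupp.single_left_injective one_ne_zero) h
    · rintro rfl
      rfl
  have hsingle : ∀ z', P.coeff (Finsupp.single z' 1) = c z' := by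
    intro z'
    rw [hcoeff]
    simp only [hinj]
    simp
  refine ⟨P, ?_, ?_, ?_, ?_⟩
  · obtain ⟨z, hz⟩ := Function.ne_iff.1 hc
    intro h0
    apply hz
    rw [← hsingle z, h0, MvPolynomial.coeff_zero]
    rfl
  · intro z
    rw [MvPolynomial.degreeOf_le_iff]
    intro u hu
    rw [MvPolynomial.mem_support_iff, hcoeff] at hu
    obtain ⟨z', _, hz'⟩ := Finset.exists_ne_zero_of_sum_ne_zero hu
    have h1 : Finsupp.single z' 1 = u := by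
      by_contra h
      simp [h] at hz'
    rw [← h1, Finsupp.single_apply]
    split_ifs <;> omega
  · intro u
    by_cases h : ∃ z', Finsupp.single z' 1 = u
    · obtain ⟨z', rfl⟩ := h
      rw [hsingle]
      exact hcK z'
    · have : P.coeff u = 0 := by
        rw [hcoeff]
        refine Finset.sum_eq_zero fun z' _ => ?_
        rw [if_neg fun h1 => h ⟨z', h1⟩]
      rw [this]
      simpa using hK
  · rw [hP, map_sum]
    refine Finset.sum_congr rfl fun z _ => ?_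
    rw [MvPolynomial.aeval_monomial]
    simp

end Pool.Agent.Q229.RA
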