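import Pool.Agent.Q229.RAH

set_option autoImplicit false

/-! Good approximations of almost every complex (real) number by elements of all number fields in `ℂ` at once. -/

namespace Pool.Agent.Q229.RAF

open MeasureTheory Filter Set Metric ENNReal NNReal

theorem countable : Countable {K : IntermediateField ℚ ℂ // NumberField K} := by
  have h1 := Pool.Agent.Q229.RAC.countable_nf
  refine Function.Injective.countable (f := fun K : {K : IntermediateField ℚ ℂ // NumberField K} =>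
    (⟨K.1, K.2.to_finiteDimensional⟩ : {F : IntermediateField ℚ ℂ // FiniteDimensional ℚ F})) ?_
  intro K K' h
  apply Subtype.ext
  have h2 := Subtype.ext_iff.1 h
  exact h2

variable (E : ∀ (K : Type) [Field K] [NumberField K], ℕ → Set K) (H : ∀ (K : Type) [Field K] [NumberField K], K → ℝ)
  (σ : ∀ (K : Type) [Field K] [NumberField K], ℕ → ℝ) (e : ∀ (K : Type) [Field K] [NumberField K], ℝ)

/-- almost every complex number -/
theorem complex
    (h : ∀ (K : Type) [Field K] [NumberField K] (k : ℕ) (σ' : ℝ), σ K k < σ' → ∃ C T₀ : ℝ, ∀ T : ℝ, T₀ ≤ T →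
      {x | x ∈ E K k ∧ H K x ≤ T}.Finite ∧ ({x | x ∈ E K k ∧ H K x ≤ T}.ncard : ℝ) ≤ C * T ^ σ')
    (he : ∀ (K : Type) [Field K] [NumberField K], 0 < e K)
    (hlt : ∀ (K : Type) [Field K] [NumberField K] (k : ℕ), σ K k < 2 * e K) :
    ∀ᵐ z : ℂ, ∀ (K : IntermediateField ℚ ℂ) [NumberField K] (k : ℕ),
      {x : K | x ∈ E K k ∧ ‖(x : ℂ) - z‖ ≤ H K x ^ (-e K)}.Finite := by
  have hc := countable
  have h0 : ∀ K : {K : IntermediateField ℚ ℂ // NumberField K}, ∀ᵐ z : ℂ,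
      (haveI := K.2; ∀ k : ℕ, {x : K.1 | x ∈ E K.1 k ∧ ‖(x : ℂ) - z‖ ≤ H K.1 x ^ (-e K.1)}.Finite) := by
    rintro ⟨K, hK⟩
    rw [ae_all_iff]
    intro k
    have h1 := Pool.Agent.Q229.RAH.dim (fun x : K => (x : ℂ)) (E K k) (H K) (h K k) (e K) (he K)
    simp only [dist_eq_norm] at h1
    have h2 : volume {z : ℂ | {x | x ∈ E K k ∧ ‖(x : ℂ) - z‖ ≤ H K x ^ (-e K)}.Infinite} = 0 := by
      refine Pool.Agent.Q229.RAG.null_of_dimH volume (lt_of_le_of_lt h1 ?_)
      rw [Complex.finrank_real_complex, show ((2 : ℕ) : ENNReal) = ENNReal.ofReal 2 by simp,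
        ENNReal.ofReal_lt_ofReal_iff (by norm_num), div_lt_iff₀ (he K)]
      exact hlt K k
    filter_upwards [measure_eq_zero_iff_ae_notMem.1 h2] with z hz
    exact Set.not_infinite.1 hz
  rw [← ae_all_iff] at h0
  filter_upwards [h0] with z hz K hK k
  exact hz ⟨K, hK⟩ k

/-- almost every real number -/
theorem real
    (h : ∀ (K : Type) [Field K] [NumberField K] (k : ℕ) (σ' : ℝ), σ K k < σ' → ∃ C T₀ : ℝ, ∀ T : ℝ, T₀ ≤ T →
      {x | x ∈ E K k ∧ H K x ≤ T}.Finite ∧ ({x | x ∈ E K k ∧ H K x ≤ T}.ncard : ℝ) ≤ C * T ^ σ')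
    (he : ∀ (K : Type) [Field K] [NumberField K], 0 < e K)
    (hlt : ∀ (K : Type) [Field K] [NumberField K] (k : ℕ), σ K k < 2 * e K) :
    ∀ᵐ t : ℝ, ∀ (K : IntermediateField ℚ ℂ) [NumberField K] (k : ℕ),
      {x : K | x ∈ E K k ∧ ‖(x : ℂ) - t‖ ≤ H K x ^ (-(2 * e K))}.Finite := by
  have hc := countable
  have h0 : ∀ K : {K : IntermediateField ℚ ℂ // NumberField K}, ∀ᵐ t : ℝ,
      (haveI := K.2; ∀ k : ℕ, {x : K.1 | x ∈ E K.1 k ∧ ‖(x : ℂ) - t‖ ≤ H K.1 x ^ (-(2 * e K.1))}.Finite) := by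
    rintro ⟨K, hK⟩
    rw [ae_all_iff]
    intro k
    have he2 : 0 < 2 * e K := by have := he K; linarith
    have h1 := Pool.Agent.Q229.RAH.dim (fun x : K => (x : ℂ)) (E K k) (H K) (h K k) (2 * e K) he2
    simp only [dist_eq_norm] at h1
    have h2 : volume {t : ℝ | {x : K | x ∈ E K k ∧ ‖(x : ℂ) - t‖ ≤ H K x ^ (-(2 * e K))}.Infinite} = 0 := by
      have h3 : dimH {t : ℝ | {x : K | x ∈ E K k ∧ ‖(x : ℂ) - t‖ ≤ H K x ^ (-(2 * e K))}.Infinite} ≤
          dimH {z : ℂ | {x : K | x ∈ E K k ∧ ‖(x : ℂ) - z‖ ≤ H K x ^ (-(2 * e K))}.Infinite} := by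
        rw [← Complex.isometry_ofReal.dimH_image]
        refine dimH_mono ?_
        rintro _ ⟨t, ht, rfl⟩
        exact ht
      refine Pool.Agent.Q229.RAG.null_of_dimH volume (lt_of_le_of_lt (h3.trans h1) ?_)
      rw [Module.finrank_self, show ((1 : ℕ) : ENNReal) = ENNReal.ofReal 1 by simp,
        ENNReal.ofReal_lt_ofReal_iff (by norm_num), div_lt_iff₀ he2]
      have := hlt K k
      linarith
    filter_upwards [measure_eq_zero_iff_ae_notMem.1 h2] with z hz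
    exact Set.not_infinite.1 hz
  rw [← ae_all_iff] at h0
  filter_upwards [h0] with z hz K hK k
  exact hz ⟨K, hK⟩ k

end Pool.Agent.Q229.RAF
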