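import Pool.Agent.Q229.RAF

set_option autoImplicit false

/-! Variants of `RAF` with one exponent for each field and index. -/

namespace Pool.Agent.Q229.RAF2

open MeasureTheory Filter Set Metric ENNReal NNReal

variable (E : ∀ (K : Type) [Field K] [NumberField K], ℕ → Set K) (H : ∀ (K : Type) [Field K] [NumberField K], K → ℝ)
  (e : ∀ (K : Type) [Field K] [NumberField K], ℝ)

theorem up {K : Type} {E : Set K} {H : K → ℝ} {s C T₀ : ℝ} (h : ∀ T : ℝ, T₀ ≤ T →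
    {x | x ∈ E ∧ H x ≤ T}.Finite ∧ ({x | x ∈ E ∧ H x ≤ T}.ncard : ℝ) ≤ C * T ^ s) (σ' : ℝ) (hσ : s < σ') :
    ∃ C T₀ : ℝ, ∀ T : ℝ, T₀ ≤ T → {x | x ∈ E ∧ H x ≤ T}.Finite ∧ ({x | x ∈ E ∧ H x ≤ T}.ncard : ℝ) ≤ C * T ^ σ' := by
  refine ⟨|C|, max T₀ 1, fun T hT => ?_⟩
  obtain ⟨h1, h2⟩ := h T ((le_max_left _ _).trans hT)
  have hT1 : 1 ≤ T := (le_max_right _ _).trans hT
  refine ⟨h1, h2.trans ?_⟩
  calc C * T ^ s ≤ |C| * T ^ s := mul_le_mul_of_nonneg_right (le_abs_self C) (Real.rpow_nonneg (by linarith) _)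
    _ ≤ |C| * T ^ σ' := mul_le_mul_of_nonneg_left (Real.rpow_le_rpow_of_exponent_le hT1 hσ.le) (abs_nonneg C)

/-- almost every complex number -/
theorem complex
    (h : ∀ (K : Type) [Field K] [NumberField K] (k : ℕ), ∃ s C T₀ : ℝ, s < 2 * e K ∧ ∀ T : ℝ, T₀ ≤ T →
      {x | x ∈ E K k ∧ H K x ≤ T}.Finite ∧ ({x | x ∈ E K k ∧ H K x ≤ T}.ncard : ℝ) ≤ C * T ^ s)
    (he : ∀ (K : Type) [Field K] [NumberField K], 0 < e K) :
    ∀ᵐ z : ℂ, ∀ (K : IntermediateField ℚ ℂ) [NumberField K] (k : ℕ),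
      {x : K | x ∈ E K k ∧ ‖(x : ℂ) - z‖ ≤ H K x ^ (-e K)}.Finite := by
  refine Pool.Agent.Q229.RAF.complex E H (fun K _ _ k => (h K k).choose) e (fun K _ _ k σ' hσ => ?_) he (fun K _ _ k => ?_)
  · obtain ⟨C, T₀, -, h2⟩ := (h K k).choose_spec
    exact up h2 σ' hσ
  · obtain ⟨C, T₀, h1, -⟩ := (h K k).choose_spec
    exact h1

/-- almost every real number -/
theorem real
    (h : ∀ (K : Type) [Field K] [NumberField K] (k : ℕ), ∃ s C T₀ : ℝ, s < 2 * e K ∧ ∀ T : ℝ, T₀ ≤ T →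
      {x | x ∈ E K k ∧ H K x ≤ T}.Finite ∧ ({x | x ∈ E K k ∧ H K x ≤ T}.ncard : ℝ) ≤ C * T ^ s)
    (he : ∀ (K : Type) [Field K] [NumberField K], 0 < e K) :
    ∀ᵐ t : ℝ, ∀ (K : IntermediateField ℚ ℂ) [NumberField K] (k : ℕ),
      {x : K | x ∈ E K k ∧ ‖(x : ℂ) - t‖ ≤ H K x ^ (-(2 * e K))}.Finite := by
  refine Pool.Agent.Q229.RAF.real E H (fun K _ _ k => (h K k).choose) e (fun K _ _ k σ' hσ => ?_) he (fun K _ _ k => ?_)
  · obtain ⟨C, T₀, -, h2⟩ := (h K k).choose_spec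
    exact up h2 σ' hσ
  · obtain ⟨C, T₀, h1, -⟩ := (h K k).choose_spec
    exact h1

end Pool.Agent.Q229.RAF2
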