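import Pool.Agent.Q229.RAC

set_option autoImplicit false

/-! Good approximations by the elements of a set with few elements of bounded height. -/

namespace Pool.Agent.Q229.RAG

open MeasureTheory Filter Set Metric ENNReal NNReal

/-- sets of small Hausdorff dimension are null sets -/
theorem null_of_dimH {E : Type} [NormedAddCommGroup E] [NormedSpace ℝ E] [FiniteDimensional ℝ E] [MeasurableSpace E]
    [BorelSpace E] (μ : Measure E) [μ.IsAddHaarMeasure] {Z : Set E} (h : dimH Z < Module.finrank ℝ E) : μ Z = 0 := by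
  refine measure_zero_of_dimH_lt (d := (Module.finrank ℝ E : ℝ≥0)) ?_ (by simpa using h)
  have h1 : Measure.IsAddHaarMeasure (μH[((Module.finrank ℝ E : ℝ≥0) : ℝ)] : Measure E) := by
    have := MeasureTheory.isAddHaarMeasure_hausdorffMeasure (E := E)
    simpa using this
  exact Measure.absolutelyContinuous_isAddHaarMeasure _ _

/-- Let `E` be a set of elements `x` with heights `H x` and points `φ x` of a metric space, such that for every `σ' > σ`
there are at most `C T ^ σ'` elements of height at most `T`. The points which have infinitely many approximations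
`φ x`, `x ∈ E`, of distance at most `H(x)^(-τ)` form a set of dimension at most `σ / τ`. -/
theorem good {X K : Type} [MetricSpace X] (φ : K → X) (E : Set K) (H : K → ℝ) {σ : ℝ} (hσ : 0 ≤ σ)
    (h : ∀ σ' : ℝ, σ < σ' → ∃ C T₀ : ℝ, ∀ T : ℝ, T₀ ≤ T → {x | x ∈ E ∧ H x ≤ T}.Finite ∧
      ({x | x ∈ E ∧ H x ≤ T}.ncard : ℝ) ≤ C * T ^ σ') (τ : ℝ) (hτ : 0 < τ) :
    dimH {z : X | {x | x ∈ E ∧ dist (φ x) z ≤ (H x) ^ (-τ)}.Infinite} ≤ ENNReal.ofReal (σ / τ) := by
  obtain ⟨Z, hZ, hz⟩ := Pool.Agent.Q229.RAC.near_all (X := X) (ι := Unit)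
    (fun _ _ T => φ '' {x | x ∈ E ∧ H x ≤ T}) hσ
    (fun _ B T T' q hT hTT _ _ hq => by
      obtain ⟨x, hx, rfl⟩ := hq
      exact ⟨x, ⟨hx.1, hx.2.trans hTT⟩, rfl⟩)
    (fun _ σ' hσ' => by
      obtain ⟨C, T₀, hT⟩ := h σ' hσ'
      refine ⟨0, C, T₀, fun T hTT => ⟨(hT T hTT).1.image φ, le_trans ?_ (hT T hTT).2⟩⟩
      exact_mod_cast Set.ncard_image_le (hT T hTT).1) τ hτ
  refine (dimH_mono fun z hzz => ?_).trans hZ
  by_contra hcon
  obtain ⟨B, hB⟩ := hz z hcon ()
  obtain ⟨T₁, hT₁⟩ := eventually_atTop.1 hB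
  obtain ⟨C, T₀, hT⟩ := h (σ + 1) (by linarith)
  apply hzz
  refine (hT (max T₀ T₁) (le_max_left _ _)).1.subset fun x hx => ⟨hx.1, ?_⟩
  rcases le_or_gt (H x) T₁ with h1 | h1
  · exact h1.trans (le_max_right _ _)
  · exfalso
    refine hT₁ (H x) h1.le (φ x) ?_ ⟨x, ⟨hx.1, le_rfl⟩, rfl⟩
    rw [dist_comm]
    exact hx.2

end Pool.Agent.Q229.RAG
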