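import Pool.Agent.Q229.RAG

set_option autoImplicit false

/-! Good approximations of almost every complex (real) vector by elements of a set with few elements of bounded height. -/

namespace Pool.Agent.Q229.RAH

open MeasureTheory Filter Set Metric ENNReal NNReal

/-- the exponent may be any real number -/
theorem dim {X K : Type} [MetricSpace X] (φ : K → X) (E : Set K) (H : K → ℝ) {σ : ℝ}
    (h : ∀ σ' : ℝ, σ < σ' → ∃ C T₀ : ℝ, ∀ T : ℝ, T₀ ≤ T → {x | x ∈ E ∧ H x ≤ T}.Finite ∧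
      ({x | x ∈ E ∧ H x ≤ T}.ncard : ℝ) ≤ C * T ^ σ') (τ : ℝ) (hτ : 0 < τ) :
    dimH {z : X | {x | x ∈ E ∧ dist (φ x) z ≤ (H x) ^ (-τ)}.Infinite} ≤ ENNReal.ofReal (σ / τ) := by
  have h1 := Pool.Agent.Q229.RAG.good φ E H (σ := max σ 0) (le_max_right _ _)
    (fun σ' hσ => h σ' (lt_of_le_of_lt (le_max_left _ _) hσ)) τ hτ
  refine h1.trans (le_of_eq ?_)
  rcases le_total σ 0 with h2 | h2
  · rw [max_eq_right h2, zero_div, ENNReal.ofReal_zero, ENNReal.ofReal_of_nonpos]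
    exact div_nonpos_of_nonpos_of_nonneg h2 hτ.le
  · rw [max_eq_left h2]

/-- almost every complex vector -/
theorem ae_complex {K : Type} {n : ℕ} (hn : 0 < n) (coord : K → Fin n → ℂ) (H : K → ℝ) (E : ℕ → Set K) (σ : ℕ → ℝ)
    (h : ∀ k, ∀ σ' : ℝ, σ k < σ' → ∃ C T₀ : ℝ, ∀ T : ℝ, T₀ ≤ T → {x | x ∈ E k ∧ H x ≤ T}.Finite ∧
      ({x | x ∈ E k ∧ H x ≤ T}.ncard : ℝ) ≤ C * T ^ σ') (τ : ℝ) (hτ : 0 < τ) (hlt : ∀ k, σ k < 2 * n * τ) :
    ∀ᵐ z : Fin n → ℂ, ∀ k, {x | x ∈ E k ∧ ‖coord x - z‖ ≤ (H x) ^ (-τ)}.Finite := by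
  rw [ae_all_iff]
  intro k
  have h0 : volume {z : Fin n → ℂ | {x | x ∈ E k ∧ ‖coord x - z‖ ≤ (H x) ^ (-τ)}.Infinite} = 0 := by
    refine Pool.Agent.Q229.RAG.null_of_dimH volume ?_
    have h1 := dim coord (E k) H (h k) τ hτ
    simp only [dist_eq_norm] at h1
    refine lt_of_le_of_lt h1 ?_
    have h2 : Module.finrank ℝ (Fin n → ℂ) = 2 * n := by
      rw [Module.finrank_pi_fintype]
      simp [Complex.finrank_real_complex, mul_comm]
    rw [h2, show ((2 * n : ℕ) : ENNReal) = ENNReal.ofReal (2 * n) by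
      rw [show (2 * (n : ℝ)) = ((2 * n : ℕ) : ℝ) by push_cast; ring, ENNReal.ofReal_natCast],
      ENNReal.ofReal_lt_ofReal_iff (by positivity), div_lt_iff₀ hτ]
    exact hlt k
  filter_upwards [measure_eq_zero_iff_ae_notMem.1 h0] with z hz
  exact Set.not_infinite.1 hz

/-- almost every real vector -/
theorem ae_real {K : Type} {n : ℕ} (hn : 0 < n) (coord : K → Fin n → ℂ) (H : K → ℝ) (E : ℕ → Set K) (σ : ℕ → ℝ)
    (h : ∀ k, ∀ σ' : ℝ, σ k < σ' → ∃ C T₀ : ℝ, ∀ T : ℝ, T₀ ≤ T → {x | x ∈ E k ∧ H x ≤ T}.Finite ∧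
      ({x | x ∈ E k ∧ H x ≤ T}.ncard : ℝ) ≤ C * T ^ σ') (τ : ℝ) (hτ : 0 < τ) (hlt : ∀ k, σ k < n * τ) :
    ∀ᵐ t : Fin n → ℝ, ∀ k, {x | x ∈ E k ∧ ‖coord x - (fun j => (t j : ℂ))‖ ≤ (H x) ^ (-τ)}.Finite := by
  rw [ae_all_iff]
  intro k
  have hiso : Isometry (fun (t : Fin n → ℝ) (j : Fin n) => (t j : ℂ)) := by
    refine Isometry.of_dist_eq fun s t => ?_
    rw [dist_pi_def, dist_pi_def]
    congr 1
    refine Finset.sup_congr rfl fun j _ => ?_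
    exact Complex.isometry_ofReal.nndist_eq _ _
  have h0 : volume {t : Fin n → ℝ | {x | x ∈ E k ∧ ‖coord x - (fun j => (t j : ℂ))‖ ≤ (H x) ^ (-τ)}.Infinite} = 0 := by
    refine Pool.Agent.Q229.RAG.null_of_dimH volume ?_
    have h1 := dim coord (E k) H (h k) τ hτ
    simp only [dist_eq_norm] at h1
    have h3 : dimH {t : Fin n → ℝ | {x | x ∈ E k ∧ ‖coord x - (fun j => (t j : ℂ))‖ ≤ (H x) ^ (-τ)}.Infinite} ≤
        dimH {z : Fin n → ℂ | {x | x ∈ E k ∧ ‖coord x - z‖ ≤ (H x) ^ (-τ)}.Infinite} := by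
      rw [← hiso.dimH_image]
      refine dimH_mono ?_
      rintro _ ⟨t, ht, rfl⟩
      exact ht
    refine lt_of_le_of_lt (h3.trans h1) ?_
    rw [Module.finrank_fin_fun, show ((n : ℕ) : ENNReal) = ENNReal.ofReal n by rw [ENNReal.ofReal_natCast],
      ENNReal.ofReal_lt_ofReal_iff (by positivity), div_lt_iff₀ hτ]
    exact hlt k
  filter_upwards [measure_eq_zero_iff_ae_notMem.1 h0] with z hz
  exact Set.not_infinite.1 hz

end Pool.Agent.Q229.RAH
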