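import Pool.Agent.Q229.RAQ
import Pool.Agent.H328R2.ABC.RadSum

/-!
# Rational numbers whose denominator has a small radical, near almost every real number (helper229)
-/

set_option autoImplicit false

namespace Pool.Agent.Q229.RAJ

open MeasureTheory Filter Set
open Pool.Agent.Q229.RAQ (Pts near1)
open Pool.Agent.H328R2.ABC (rad sum_inv_rad)

/-- the version of `near1` with the infimum of the exponents -/
theorem near2 (E : Set ℚ) {σ₀ : ℝ} (hσ₀ : 0 ≤ σ₀)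
    (h : ∀ σ : ℝ, σ₀ < σ → ∀ M : ℕ, ∃ C : ℝ, ∀ T : ℝ, 1 ≤ T → (Pts E M T).Finite ∧
      ((Pts E M T).ncard : ℝ) ≤ C * T ^ σ)
    (τ : ℝ) (hτ : 0 < τ) :
    ∃ Z : Set ℝ, dimH Z ≤ ENNReal.ofReal (σ₀ / τ) ∧ (σ₀ < τ → volume Z = 0) ∧
      ∀ y : ℝ, y ∉ Z → Irrational y ∧ ∀ᶠ T : ℝ in atTop, ∀ x : ℚ, (x.den : ℝ) ≤ T → |y - x| ≤ T ^ (-τ) → x ∉ E := by
  have key : ∀ k : ℕ, ∃ Z : Set ℝ, dimH Z ≤ ENNReal.ofReal ((σ₀ + 1 / ((k : ℝ) + 1)) / τ) ∧
      (σ₀ + 1 / ((k : ℝ) + 1) < τ → volume Z = 0) ∧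
      ∀ y : ℝ, y ∉ Z → Irrational y ∧ ∀ᶠ T : ℝ in atTop, ∀ x : ℚ, (x.den : ℝ) ≤ T → |y - x| ≤ T ^ (-τ) → x ∉ E := by
    intro k
    have hk : (0 : ℝ) < 1 / ((k : ℝ) + 1) := by positivity
    exact near1 E (by linarith) (h _ (by linarith)) τ hτ
  choose Z h1 h2 h3 using key
  refine ⟨⋂ k, Z k, ?_, ?_, ?_⟩
  · have hle : ∀ k : ℕ, dimH (⋂ k, Z k) ≤ ENNReal.ofReal ((σ₀ + 1 / ((k : ℝ) + 1)) / τ) :=
      fun k => (dimH_mono (iInter_subset _ k)).trans (h1 k)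
    have hlim : Tendsto (fun k : ℕ => ENNReal.ofReal ((σ₀ + 1 / ((k : ℝ) + 1)) / τ)) atTop
        (nhds (ENNReal.ofReal ((σ₀ + 0) / τ))) :=
      ENNReal.tendsto_ofReal ((tendsto_const_nhds.add tendsto_one_div_add_atTop_nhds_zero_nat).div_const τ)
    rw [add_zero] at hlim
    exact ge_of_tendsto' hlim hle
  · intro hlt
    obtain ⟨k, hk⟩ := exists_nat_one_div_lt (sub_pos.2 hlt)
    exact measure_mono_null (iInter_subset _ k) (h2 k (by linarith))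
  · intro y hy
    rw [mem_iInter, not_forall] at hy
    obtain ⟨k, hk⟩ := hy
    exact h3 k y hk

/-- The rational numbers `x` such that `rad (den x) ^ s` is smaller than the height of `x`. -/
def Ex (s : ℝ) : Set ℚ := {x : ℚ | s * Real.log (rad x.den) < Real.log ((max x.num.natAbs x.den : ℕ) : ℝ)}

theorem rad_pos (n : ℕ) : 0 < rad n := Finset.prod_pos fun _ hp => (Nat.prime_of_mem_primeFactors hp).pos

/-- integers with a small radical -/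
theorem count_rad (ε : ℝ) (hε : 0 < ε) : ∃ C : ℝ, 0 < C ∧ ∀ (N : ℕ) (Y : ℝ), 1 ≤ N → 0 ≤ Y →
    (((Finset.Icc 1 N).filter fun n => (rad n : ℝ) ≤ Y).card : ℝ) ≤ C * Y * (N : ℝ) ^ ε := by
  obtain ⟨C, hC, h⟩ := sum_inv_rad ε hε
  refine ⟨C, hC, fun N Y hN hY => ?_⟩
  calc (((Finset.Icc 1 N).filter fun n => (rad n : ℝ) ≤ Y).card : ℝ)
      = ∑ n ∈ (Finset.Icc 1 N).filter (fun n => (rad n : ℝ) ≤ Y), (1 : ℝ) := by simp
    _ ≤ ∑ n ∈ (Finset.Icc 1 N).filter (fun n => (rad n : ℝ) ≤ Y), Y * (1 / (rad n : ℝ)) := by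
        refine Finset.sum_le_sum fun n hn => ?_
        have h1 := (Finset.mem_filter.1 hn).2
        have h2 : (0 : ℝ) < rad n := by exact_mod_cast rad_pos n
        rw [mul_one_div, le_div_iff₀ h2]
        linarith
    _ ≤ ∑ n ∈ Finset.Icc 1 N, Y * (1 / (rad n : ℝ)) :=
        Finset.sum_le_sum_of_subset_of_nonneg (Finset.filter_subset _ _) fun n _ _ => by positivity
    _ = Y * ∑ n ∈ Finset.Icc 1 N, (1 / (rad n : ℝ)) := by rw [Finset.mul_sum]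
    _ ≤ Y * (C * (N : ℝ) ^ ε) := mul_le_mul_of_nonneg_left (h N hN) hY
    _ = _ := by ring

theorem count_ex {s : ℝ} (hs : 0 < s) {σ : ℝ} (hσ : 1 + 1 / s < σ) (M : ℕ) :
    ∃ C : ℝ, ∀ T : ℝ, 1 ≤ T → (Pts (Ex s) M T).Finite ∧ ((Pts (Ex s) M T).ncard : ℝ) ≤ C * T ^ σ := by
  classical
  obtain ⟨C, hC, h⟩ := count_rad (σ - 1 - 1 / s) (by linarith)
  refine ⟨(2 * M + 1) * (C * ((M : ℝ) + 1) ^ (1 / s)), fun T hT => ?_⟩
  have hT0 : 0 < T := by linarith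
  obtain ⟨N, hN⟩ : ∃ N : ℕ, N = ⌊T⌋₊ := ⟨_, rfl⟩
  have hN1 : 1 ≤ N := by
    rw [hN]
    exact Nat.le_floor (by exact_mod_cast hT)
  have hNT : (N : ℝ) ≤ T := by
    rw [hN]
    exact Nat.floor_le hT0.le
  obtain ⟨Y, hY⟩ : ∃ Y : ℝ, Y = (((M : ℝ) + 1) * T) ^ (1 / s) := ⟨_, rfl⟩
  have hMT : 0 < ((M : ℝ) + 1) * T := by positivity
  have hY0 : 0 ≤ Y := by rw [hY]; positivity
  obtain ⟨A, hA⟩ : ∃ A : Finset (ℤ × ℕ), A = (Finset.Icc (-(M * N : ℤ)) (M * N)) ×ˢ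
      ((Finset.Icc 1 N).filter fun n => (rad n : ℝ) ≤ Y) := ⟨_, rfl⟩
  have hsub : Pts (Ex s) M T ⊆ (fun p : ℤ × ℕ => (p.1 : ℚ) / p.2) '' (A : Set (ℤ × ℕ)) := by
    rintro x ⟨h1, h2, h3⟩
    have hd0 : 0 < x.den := x.pos
    have hdN : x.den ≤ N := by
      rw [hN]
      exact Nat.le_floor h3
    have hnum : |(x.num : ℝ)| ≤ M * x.den := by
      have hd : (0 : ℝ) < x.den := by exact_mod_cast hd0
      have e : (x.num : ℝ) = x * x.den := by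
        exact_mod_cast (Rat.mul_den_eq_num x).symm
      rw [e, abs_mul, abs_of_pos hd]
      exact mul_le_mul_of_nonneg_right h2 hd.le
    refine ⟨(x.num, x.den), ?_, Rat.num_div_den x⟩
    rw [hA, Finset.mem_coe, Finset.mem_product]
    constructor
    · rw [Finset.mem_Icc]
      have h5 : |(x.num : ℝ)| ≤ M * N := hnum.trans (mul_le_mul_of_nonneg_left (by exact_mod_cast hdN)
        (Nat.cast_nonneg _))
      have h4 : |x.num| ≤ (M * N : ℤ) := by exact_mod_cast h5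
      exact ⟨(abs_le.1 h4).1, (abs_le.1 h4).2⟩
    · rw [Finset.mem_filter, Finset.mem_Icc]
      refine ⟨⟨hd0, hdN⟩, ?_⟩
      have h6 : ((max x.num.natAbs x.den : ℕ) : ℝ) ≤ ((M : ℝ) + 1) * T := by
        rw [Nat.cast_max, Nat.cast_natAbs, Int.cast_abs]
        refine max_le ?_ ?_
        · nlinarith [hnum, h3, (Nat.cast_nonneg M : (0 : ℝ) ≤ M)]
        · nlinarith [h3, (Nat.cast_nonneg M : (0 : ℝ) ≤ M)]
      have h7 : (0 : ℝ) < ((max x.num.natAbs x.den : ℕ) : ℝ) := by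
        exact_mod_cast lt_of_lt_of_le hd0 (le_max_right _ _)
      have h8 : s * Real.log (rad x.den) ≤ Real.log (((M : ℝ) + 1) * T) :=
        (le_of_lt h1).trans (Real.log_le_log h7 h6)
      have h9 : (0 : ℝ) < rad x.den := by exact_mod_cast rad_pos x.den
      rw [hY, ← Real.log_le_log_iff h9 (Real.rpow_pos_of_pos hMT _), Real.log_rpow hMT, div_mul_eq_mul_div, one_mul,
        le_div_iff₀ hs, mul_comm]
      exact h8
  have hfin : ((fun p : ℤ × ℕ => (p.1 : ℚ) / p.2) '' (A : Set (ℤ × ℕ))).Finite := (Finset.finite_toSet A).image _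
  refine ⟨hfin.subset hsub, ?_⟩
  have h1 : ((Pts (Ex s) M T).ncard : ℝ) ≤ A.card := by
    have h2 := Set.ncard_le_ncard hsub hfin
    have h3 := Set.ncard_image_le (f := fun p : ℤ × ℕ => (p.1 : ℚ) / p.2) (Finset.finite_toSet A)
    rw [Set.ncard_coe_finset] at h3
    exact_mod_cast h2.trans h3
  have h2 : (A.card : ℝ) = (2 * (M * N) + 1) * (((Finset.Icc 1 N).filter fun n => (rad n : ℝ) ≤ Y).card : ℝ) := by
    rw [hA, Finset.card_product, Int.card_Icc]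
    push_cast
    congr 1
    have e : ((M * N : ℤ) + 1 - -(M * N : ℤ)).toNat = 2 * (M * N) + 1 := by omega
    rw [e]
    push_cast
    ring
  have h3 := h N Y hN1 hY0
  have hT1 : (2 * ((M : ℝ) * N) + 1) ≤ (2 * M + 1) * T := by
    nlinarith [hNT, hT, (Nat.cast_nonneg M : (0 : ℝ) ≤ M), mul_le_mul_of_nonneg_left hNT (Nat.cast_nonneg M : (0 : ℝ) ≤ M)]
  have hNε : (N : ℝ) ^ (σ - 1 - 1 / s) ≤ T ^ (σ - 1 - 1 / s) :=
    Real.rpow_le_rpow (Nat.cast_nonneg _) hNT (by linarith)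
  have hYe : Y = ((M : ℝ) + 1) ^ (1 / s) * T ^ (1 / s) := by
    rw [hY, Real.mul_rpow (by positivity) hT0.le]
  have hpow : T * (T ^ (1 / s) * T ^ (σ - 1 - 1 / s)) = T ^ σ := by
    rw [← Real.rpow_add hT0]
    nth_rewrite 1 [← Real.rpow_one T]
    rw [← Real.rpow_add hT0]
    congr 1
    ring
  calc ((Pts (Ex s) M T).ncard : ℝ) ≤ A.card := h1
    _ = (2 * (M * N) + 1) * (((Finset.Icc 1 N).filter fun n => (rad n : ℝ) ≤ Y).card : ℝ) := h2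
    _ ≤ ((2 * M + 1) * T) * (C * Y * (N : ℝ) ^ (σ - 1 - 1 / s)) :=
        mul_le_mul hT1 h3 (Nat.cast_nonneg _) (by positivity)
    _ ≤ ((2 * M + 1) * T) * (C * Y * T ^ (σ - 1 - 1 / s)) :=
        mul_le_mul_of_nonneg_left (mul_le_mul_of_nonneg_left hNε (by positivity)) (by positivity)
    _ = (2 * M + 1) * (C * ((M : ℝ) + 1) ^ (1 / s)) * (T * (T ^ (1 / s) * T ^ (σ - 1 - 1 / s))) := by
        rw [hYe]
        ring
    _ = _ := by rw [hpow]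

/-- near real numbers there are only rational numbers whose denominators have large radicals -/
theorem near_rad {s : ℝ} (hs : 0 < s) (τ : ℝ) (hτ : 0 < τ) :
    ∃ Z : Set ℝ, dimH Z ≤ ENNReal.ofReal ((1 + 1 / s) / τ) ∧ (1 + 1 / s < τ → volume Z = 0) ∧
      ∀ y : ℝ, y ∉ Z → Irrational y ∧ ∀ᶠ T : ℝ in atTop, ∀ x : ℚ, (x.den : ℝ) ≤ T → |y - x| ≤ T ^ (-τ) →
        Real.log ((max x.num.natAbs x.den : ℕ) : ℝ) ≤ s * Real.log (rad x.den) := by
  obtain ⟨Z, h1, h2, h3⟩ := near2 (Ex s) (by positivity) (fun σ hσ M => count_ex hs hσ M) τ hτ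
  refine ⟨Z, h1, h2, fun y hy => ⟨(h3 y hy).1, ?_⟩⟩
  filter_upwards [(h3 y hy).2] with T hT x hx hxy
  exact not_lt.1 (hT x hx hxy)

end Pool.Agent.Q229.RAJ
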