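import Pool.Agent.Q229.RAQ
import Pool.Agent.Y728.AK.QLow
import Pool.Agent.Y728.AK.ValK

/-!
# The counting function of a divisor on the line at rational numbers of bounded numerator and denominator (helper229)
-/

set_option autoImplicit false

namespace Pool.Agent.Q229.RAK

open NumberField IsDedekindDomain Pool.Agent.H691R3
open Pool.Agent.TH876.KR (form localHeight counting localHeight_eq)

/-- invariance of the counting function -/
theorem counting_smul {K : Type} [Field K] [NumberField K] (S : Set (HeightOneSpectrum (𝓞 K))) {q : ℕ}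
    (a : Fin q → Fin 2 → K) {c : K} (hc : c ≠ 0) (x : Fin 2 → K) : counting S a (c • x) = counting S a x := by
  have key : ∀ (v : HeightOneSpectrum (𝓞 K)) (i : Fin q), localHeight v (a i) (c • x) = localHeight v (a i) x := by
    intro v i
    unfold localHeight
    have hc' : FinitePlace.mk v c ≠ 0 := by simpa using hc
    have e2 : form (a i) (c • x) = c * form (a i) x := by
      unfold form
      rw [Pi.smul_apply, Pi.smul_apply, smul_eq_mul, smul_eq_mul]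
      ring
    have e1 : max (FinitePlace.mk v ((c • x) 0)) (FinitePlace.mk v ((c • x) 1)) =
        FinitePlace.mk v c * max (FinitePlace.mk v (x 0)) (FinitePlace.mk v (x 1)) := by
      rw [Pi.smul_apply, Pi.smul_apply, smul_eq_mul, smul_eq_mul, map_mul, map_mul,
        mul_max_of_nonneg _ _ (apply_nonneg _ _)]
    rw [e1, e2, map_mul, mul_left_comm, mul_div_mul_left _ _ hc']
  unfold counting
  simp only [key]

/-- the trivial bound at rational numbers -/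
theorem kr_rat {q : ℕ} (a : Fin q → Fin 2 → ℚ) (ha : ∀ i, a i ≠ 0) :
    ∃ C : ℝ, 1 ≤ C ∧ ∀ (S : Set (HeightOneSpectrum (𝓞 ℚ))) (x : ℚ) (T : ℝ), 1 ≤ T → x ≠ 0 →
      |(x.num : ℝ)| ≤ T → (x.den : ℝ) ≤ T → (∀ i, form (a i) ![x, 1] ≠ 0) →
      counting S a ![x, 1] ≤ q * Real.log (C * T) := by
  obtain ⟨C, hC1, hC⟩ := Pool.Agent.Y730.QP.cnt_le a ha
  refine ⟨C, hC1, fun S x T hT hx hnum hden hf => ?_⟩
  have hd : (x.den : ℚ) ≠ 0 := by exact_mod_cast x.pos.ne'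
  have hn : ((x.num : 𝓞 ℚ) : ℚ) = x.num := by simp
  have hdd : (((x.den : ℤ) : 𝓞 ℚ) : ℚ) = x.den := by simp
  have e : (![x, 1] : Fin 2 → ℚ) = ((x.den : ℚ)⁻¹) • ![((x.num : 𝓞 ℚ) : ℚ), (((x.den : ℤ) : 𝓞 ℚ) : ℚ)] := by
    rw [hn, hdd]
    funext i
    fin_cases i
    · show x = (x.den : ℚ)⁻¹ * x.num
      rw [mul_comm]
      exact (Rat.num_div_den x).symm
    · show (1 : ℚ) = (x.den : ℚ)⁻¹ * x.den
      rw [inv_mul_cancel₀ hd]
  have hf' : ∀ i, form (a i) ![((x.num : 𝓞 ℚ) : ℚ), (((x.den : ℤ) : 𝓞 ℚ) : ℚ)] ≠ 0 := by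
    intro i h
    apply hf i
    rw [e]
    unfold form at h ⊢
    rw [Pi.smul_apply, Pi.smul_apply, smul_eq_mul, smul_eq_mul]
    linear_combination (x.den : ℚ)⁻¹ * h
  have hnum0 : x.num ≠ 0 := Rat.num_ne_zero.2 hx
  have hn0 : (x.num : 𝓞 ℚ) ≠ 0 := by exact_mod_cast hnum0
  have h0 : (![((x.num : 𝓞 ℚ) : ℚ), (((x.den : ℤ) : 𝓞 ℚ) : ℚ)] : Fin 2 → ℚ) ≠ 0 := by
    intro h
    have := congrFun h 1
    rw [hdd] at this
    exact hd this
  rw [e, counting_smul S a (inv_ne_zero hd)]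
  refine (Pool.Agent.Y730.QP.counting_le S ha h0 hf').trans ?_
  have h1 := hC S (x.num : 𝓞 ℚ) ((x.den : ℤ) : 𝓞 ℚ) T hT hn0 (by
    rw [hn, house_intCast]
    exact_mod_cast hnum) (by
    rw [hdd]
    have := house_intCast (K := ℚ) (x.den : ℤ)
    rw [show ((x.den : ℚ)) = (((x.den : ℤ)) : ℚ) by push_cast; rfl, this]
    simpa using hden) hf'
  rw [Module.finrank_self, Nat.cast_one, one_mul] at h1
  exact h1

/-- the coordinates of a rational number in `[-M, M]` -/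
theorem num_le {x : ℚ} {M T : ℝ} (hM : 0 ≤ M) (hx : |(x : ℝ)| ≤ M) (hd : (x.den : ℝ) ≤ T) : |(x.num : ℝ)| ≤ M * T := by
  have hd0 : (0 : ℝ) < x.den := by exact_mod_cast x.pos
  have e : (x.num : ℝ) = x * x.den := by
    exact_mod_cast (Rat.mul_den_eq_num x).symm
  rw [e, abs_mul, abs_of_pos hd0]
  exact mul_le_mul hx hd hd0.le hM

/-- in the form needed for `RAQ.pts_of` -/
theorem kr_real {q : ℕ} (a : Fin q → Fin 2 → ℚ) (ha : ∀ i, a i ≠ 0) (M : ℕ) :
    ∃ C : ℝ, 1 ≤ C ∧ ∀ T : ℝ, 1 ≤ T → ∀ (S : Set (HeightOneSpectrum (𝓞 ℚ))) (x : ℚ), x ≠ 0 → |(x : ℝ)| ≤ M →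
      (x.den : ℝ) ≤ T → (∀ i, form (a i) ![x, 1] ≠ 0) → counting S a ![x, 1] ≤ Real.log (C * T ^ (q : ℝ)) := by
  obtain ⟨C, hC1, hC⟩ := kr_rat a ha
  have hM1 : (1 : ℝ) ≤ max (M : ℝ) 1 := le_max_right _ _
  refine ⟨(C * max (M : ℝ) 1) ^ q, one_le_pow₀ (by nlinarith), fun T hT S x hx hxM hxT hf => ?_⟩
  have hT0 : 0 < T := by linarith
  have h1 := hC S x (max (M : ℝ) 1 * T) (by nlinarith) hx
    (num_le (by positivity) (hxM.trans (le_max_left _ _)) hxT) (by nlinarith) hf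
  refine h1.trans (le_of_eq ?_)
  rw [Real.rpow_natCast, ← mul_pow, Real.log_pow, mul_assoc]

end Pool.Agent.Q229.RAK
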