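import Pool.Agent.Q229.RAN

set_option autoImplicit false

/-! All points of all number fields near almost every point of `ℂ^N`: values of independent analytic functions. -/

namespace Pool.Agent.Q229.RAN

open MeasureTheory Filter Set Pool.Agent.Q192.QD Topology
open Pool.Agent.Y124 (LocInd)

/-- the closed balls with centers in a countable dense set -/
noncomputable def cb (c : ℕ × ℕ) : Set ℂ := Metric.closedBall (TopologicalSpace.denseSeq ℂ c.1) (1 / ((c.2 : ℝ) + 1))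

/-- the relation between the values -/
def Rel {N : ℕ} {κ : Fin N → Type} {η : Type} [Fintype η] (y : ∀ j, κ j → ℂ → ℂ) (ξ : η → ℂ) (d : ℕ) (A B T : ℝ)
    (a : Fin N → ℂ) : Prop :=
  ∃ P : MvPolynomial (Σ j, κ j) ℂ, (∀ x, P.degreeOf x ≤ d) ∧
    (∀ s, ∃ c : η → ℂ, (∀ i, SInt (Set.range a) (T ^ A) (c i)) ∧ P.coeff s = ∑ i, ξ i * c i) ∧
    ∃ s₀, P.coeff s₀ ≠ 0 ∧ ‖MvPolynomial.aeval (fun z : Σ j, κ j => y z.1 z.2 (a z.1)) P‖ ≤ T ^ (-B) * ‖P.coeff s₀‖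

/-- the exceptional points -/
def Exc {N : ℕ} {κ : Fin N → Type} {η : Type} [Fintype η] (U : Fin N → Set ℂ) (y : ∀ j, κ j → ℂ → ℂ) (ξ : η → ℂ)
    (m : ℕ) (c : Fin N → ℕ × ℕ) (F : Fin N → IntermediateField ℚ ℂ) (d : ℕ) (A B T : ℝ) : Set (Fin N → ℂ) :=
  {a | (∀ j, cb (c j) ⊆ U j ∧ a j ∈ cb (c j) ∧ AlgLe m T (a j) ∧ a j ∈ F j) ∧
    Rel y ξ d A B T a}

theorem exc_mono {N : ℕ} {κ : Fin N → Type} {η : Type} [Fintype η] (U : Fin N → Set ℂ) (y : ∀ j, κ j → ℂ → ℂ)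
    (ξ : η → ℂ) (m : ℕ) (c : Fin N → ℕ × ℕ) (F : Fin N → IntermediateField ℚ ℂ) (d : ℕ) {A : ℝ} (hA : 0 ≤ A) (B T T' : ℝ) (q : Fin N → ℂ)
    (hT : 1 ≤ T) (hTT : T ≤ T') (h2 : T' ≤ 2 * T) (hB : (2 : ℝ) ^ (max B 0) ≤ T)
    (hq : q ∈ Exc U y ξ m c F d A (max B 0 + 1) T) : q ∈ Exc U y ξ m c F d A B T' := by
  obtain ⟨h1, P, hP, hc, s₀, hs, hv⟩ := hq
  refine ⟨fun j => ⟨(h1 j).1, (h1 j).2.1, ?_, (h1 j).2.2.2⟩, P, hP, fun s => ?_, s₀, hs, ?_⟩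
  · obtain ⟨Q, hQ0, hQd, hQc, hQx⟩ := (h1 j).2.2.1
    exact ⟨Q, hQ0, hQd, fun i => (hQc i).trans hTT, hQx⟩
  · obtain ⟨e, he, he2⟩ := hc s
    exact ⟨e, fun i => ⟨(he i).1, (he i).2.1, fun z hz => ((he i).2.2 z hz).trans
      (Real.rpow_le_rpow (by linarith) hTT hA)⟩, he2⟩
  · exact hv.trans (mul_le_mul_of_nonneg_right (Pool.Agent.Q229.RA.pow_le hT hTT h2 hB) (norm_nonneg _))

theorem exc_count {N : ℕ} (hN : 1 ≤ N) {κ : Fin N → Type} [∀ j, Fintype (κ j)] {η : Type} [Fintype η] [DecidableEq η]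
    {U : Fin N → Set ℂ} (hU : ∀ j, IsOpen (U j)) (hc : ∀ j, IsPreconnected (U j)) {y : ∀ j, κ j → ℂ → ℂ}
    (hy : ∀ j i, AnalyticOnNhd ℂ (y j i) (U j)) (hl : ∀ j, ∀ t ∈ U j, LocInd (y j) t) (ξ : η → ℂ) (m : ℕ)
    (c : Fin N → ℕ × ℕ) (F : Fin N → IntermediateField ℚ ℂ) (hF : ∀ j, FiniteDimensional ℚ (F j)) (d : ℕ) (A ε : ℝ)
    (hε : 0 < ε) :
    ∃ B C T₀ : ℝ, ∀ T : ℝ, T₀ ≤ T → (Exc U y ξ m c F d A B T).Finite ∧
      ((Exc U y ξ m c F d A B T).ncard : ℝ) ≤ C * T ^ (((m : ℝ) + 1) * ((N : ℝ) - 1) + ε) := by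
  classical
  by_cases hball : ∀ j, cb (c j) ⊆ U j
  · obtain ⟨B, C, T₀, H⟩ := fields_sigma (η := η) m N d hU hc hy hl (K := fun j => cb (c j))
      (fun j => isCompact_closedBall _ _) hball A ε hε
    set n0 : Fin N → ℕ := fun j => {G : IntermediateField ℚ ℂ | G ≤ F j}.ncard with hn0
    set W : ℝ := (m * 3 ^ (m + 1) : ℝ) with hW
    have hW0 : 0 ≤ W := by positivity
    refine ⟨B, |C| * ((∑ j, (n0 j : ℝ)) * W ^ (N - 1)), max T₀ 1, fun T hT => ?_⟩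
    have hT0 : T₀ ≤ T := (le_max_left _ _).trans hT
    have hT1 : 1 ≤ T := (le_max_right _ _).trans hT
    have hT' : (0 : ℝ) < T := by linarith
    set X : Fin N → Finset ℂ := fun j => (alg_fin m T hT1).1.toFinset.filter
      fun x => x ∈ cb (c j) ∧ x ∈ F j with hX
    have h1 := H ξ T hT0 X (fun j x hx => by
      rw [hX, Finset.mem_filter, Set.Finite.mem_toFinset] at hx
      exact ⟨hx.2.1, hx.1⟩) (Exc U y ξ m c F d A B T) (fun a ha => ⟨fun j => by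
        rw [hX, Finset.mem_filter, Set.Finite.mem_toFinset]
        exact ⟨(ha.1 j).2.2.1, (ha.1 j).2.1, (ha.1 j).2.2.2⟩, ha.2⟩)
    refine ⟨h1.1, h1.2.trans ?_⟩
    have hXc : ∀ j, ((X j).card : ℝ) ≤ W * T ^ ((m : ℝ) + 1) := by
      intro j
      refine le_trans ?_ (alg_fin m T hT1).2
      rw [Set.ncard_eq_toFinset_card _ (alg_fin m T hT1).1]
      exact_mod_cast Finset.card_le_card (Finset.filter_subset _ _)
    have hn : ∀ j, (nfd (X j) : ℝ) ≤ n0 j := by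
      intro j
      have h3 := nfd_le (F j) (X j) (fun x hx => by
        rw [hX, Finset.mem_filter] at hx
        exact hx.2.2)
      exact_mod_cast h3
    have hM : MgF X ≤ ((∑ j, (n0 j : ℝ)) * W ^ (N - 1)) * T ^ (((m : ℝ) + 1) * ((N : ℝ) - 1)) := by
      rw [MgF, mul_assoc, Finset.sum_mul]
      refine Finset.sum_le_sum fun j _ => ?_
      refine mul_le_mul (hn j) ?_ (Finset.prod_nonneg fun i _ => Nat.cast_nonneg _) (Nat.cast_nonneg _)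
      calc ∏ i ∈ Finset.univ.erase j, ((X i).card : ℝ) ≤ ∏ i ∈ Finset.univ.erase j, (W * T ^ ((m : ℝ) + 1)) :=
            Finset.prod_le_prod (fun i _ => Nat.cast_nonneg _) fun i _ => hXc i
        _ = W ^ (N - 1) * T ^ (((m : ℝ) + 1) * ((N : ℝ) - 1)) := by
            rw [Finset.prod_const, Finset.card_erase_of_mem (Finset.mem_univ j), Finset.card_univ, Fintype.card_fin,
              mul_pow]
            congr 1
            rw [← Real.rpow_natCast, ← Real.rpow_mul hT'.le, Nat.cast_sub hN, Nat.cast_one]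
    calc C * T ^ ε * MgF X ≤ |C| * T ^ ε * MgF X := by
          refine mul_le_mul_of_nonneg_right (mul_le_mul_of_nonneg_right (le_abs_self C) (by positivity)) ?_
          exact Finset.sum_nonneg fun j _ => mul_nonneg (Nat.cast_nonneg _)
            (Finset.prod_nonneg fun i _ => Nat.cast_nonneg _)
      _ ≤ |C| * T ^ ε * (((∑ j, (n0 j : ℝ)) * W ^ (N - 1)) * T ^ (((m : ℝ) + 1) * ((N : ℝ) - 1))) :=
          mul_le_mul_of_nonneg_left hM (by positivity)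
      _ = |C| * ((∑ j, (n0 j : ℝ)) * W ^ (N - 1)) * T ^ (((m : ℝ) + 1) * ((N : ℝ) - 1) + ε) := by
          rw [Real.rpow_add hT']
          ring
  · have hemp : ∀ B T, Exc U y ξ m c F d A B T = ∅ := by
      intro B T
      rw [Set.eq_empty_iff_forall_notMem]
      intro a ha
      exact hball fun j => (ha.1 j).1
    refine ⟨0, 1, 0, fun T hT => ?_⟩
    rw [hemp, Set.ncard_empty]
    exact ⟨Set.finite_empty, by push_cast; positivity⟩

/-- Let `y_(j,i)` be analytic functions on `U_j`, `z` and the `y_(j,i)` algebraically independent, and `ξ` complex numbers. For every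
`m` and `τ > 0` there is a set `Z` in `ℂ^N` of Hausdorff dimension at most `(m + 1) (N - 1) / τ` (dimension `0` for `N = 1`)
such that for all `x ∉ Z` in `U_1 × ⋯ × U_N`, all number fields `F_j`, all `d`, `A`, some `B` and all large `T`: for ALL points
`a_j` of `F_j` of degree at most `m` and height at most `T` with `|x_j - a_j| ≤ T ^ (-τ)` there is no relation. -/
theorem tuples {N : ℕ} (hN : 1 ≤ N) {κ : Fin N → Type} [∀ j, Fintype (κ j)] {η : Type} [Fintype η] [DecidableEq η]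
    {U : Fin N → Set ℂ} (hU : ∀ j, IsOpen (U j)) (hc : ∀ j, IsPreconnected (U j)) {y : ∀ j, κ j → ℂ → ℂ}
    (hy : ∀ j i, AnalyticOnNhd ℂ (y j i) (U j)) (hl : ∀ j, ∀ t ∈ U j, LocInd (y j) t) (ξ : η → ℂ) (m : ℕ)
    (τ : ℝ) (hτ : 0 < τ) :
    ∃ Z : Set (Fin N → ℂ), dimH Z ≤ ENNReal.ofReal (((m : ℝ) + 1) * ((N : ℝ) - 1) / τ) ∧
      ∀ x : Fin N → ℂ, (∀ j, x j ∈ U j) → x ∉ Z → ∀ F : Fin N → IntermediateField ℚ ℂ,
        (∀ j, FiniteDimensional ℚ (F j)) → ∀ (d : ℕ) (A : ℝ), ∃ B : ℝ, ∀ᶠ T : ℝ in atTop, ∀ a : Fin N → ℂ,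
          (∀ j, a j ∈ F j ∧ AlgLe m T (a j) ∧ ‖x j - a j‖ ≤ T ^ (-τ)) →
          ¬ Rel y ξ d A B T a := by
  have hN' : (1 : ℝ) ≤ N := by exact_mod_cast hN
  have hcount : Countable {F : IntermediateField ℚ ℂ // FiniteDimensional ℚ F} := Pool.Agent.Q229.RAC.countable_nf
  obtain ⟨Z, hZ, h⟩ := Pool.Agent.Q229.RAC.near_all
    (ι := (Fin N → ℕ × ℕ) × (Fin N → {F : IntermediateField ℚ ℂ // FiniteDimensional ℚ F}) × ℕ × ℕ)
    (fun i B T => Exc U y ξ m i.1 (fun j => (i.2.1 j).1) i.2.2.1 (i.2.2.2 : ℝ) B T)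
    (σ₀ := ((m : ℝ) + 1) * ((N : ℝ) - 1)) (mul_nonneg (by positivity) (by linarith))
    (fun i B T T' q => exc_mono U y ξ m i.1 (fun j => (i.2.1 j).1) i.2.2.1 (Nat.cast_nonneg i.2.2.2) B T T' q)
    (fun i σ hσ => by
      have h1 := exc_count hN hU hc hy hl ξ m i.1 (fun j => (i.2.1 j).1) (fun j => (i.2.1 j).2) i.2.2.1
        (i.2.2.2 : ℝ) (σ - ((m : ℝ) + 1) * ((N : ℝ) - 1)) (by linarith)
      rwa [add_sub_cancel] at h1) τ hτ
  refine ⟨Z, hZ, fun x hx hxZ F hF d A => ?_⟩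
  -- the balls
  have hb : ∀ j, ∃ c : ℕ × ℕ, cb c ⊆ U j ∧ ∃ δ > 0, Metric.ball (x j) δ ⊆ cb c := by
    intro j
    obtain ⟨ε, hε, hball⟩ := Metric.isOpen_iff.1 (hU j) (x j) (hx j)
    obtain ⟨k, hk⟩ := exists_nat_one_div_lt (show (0 : ℝ) < ε / 2 by positivity)
    have hk0 : (0 : ℝ) < 1 / ((k : ℝ) + 1) := by positivity
    obtain ⟨n, hn⟩ := (TopologicalSpace.denseRange_denseSeq ℂ).exists_dist_lt (x j)
      (show (0 : ℝ) < 1 / ((k : ℝ) + 1) / 2 by positivity)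
    refine ⟨(n, k), fun z hz => hball ?_, 1 / ((k : ℝ) + 1) / 2, by positivity, fun z hz => ?_⟩
    · have h1 := Metric.mem_closedBall.1 hz
      rw [Metric.mem_ball]
      have h2 := dist_triangle_right z (x j) (TopologicalSpace.denseSeq ℂ n)
      simp only at h1
      linarith
    · have h1 := Metric.mem_ball.1 hz
      rw [cb, Metric.mem_closedBall]
      have h2 := dist_triangle z (x j) (TopologicalSpace.denseSeq ℂ n)
      simp only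
      linarith
  choose c hcU δ hδ hcb using hb
  obtain ⟨k, hk⟩ := exists_nat_ge A
  obtain ⟨B, hB⟩ := h x hxZ (c, fun j => ⟨F j, hF j⟩, d, k)
  refine ⟨B, ?_⟩
  have htend : Tendsto (fun T : ℝ => T ^ (-τ)) atTop (𝓝 0) := tendsto_rpow_neg_atTop hτ
  have hsmall : ∀ᶠ T : ℝ in atTop, ∀ j, T ^ (-τ) < δ j := by
    rw [eventually_all]
    intro j
    exact htend.eventually_lt_const (hδ j)
  filter_upwards [hB, hsmall, eventually_ge_atTop 1] with T hT hTs hT1 a ha hrel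
  refine hT a ?_ ⟨fun j => ⟨hcU j, hcb j ?_, (ha j).2.1, (ha j).1⟩, ?_⟩
  · rw [dist_pi_le_iff (by positivity)]
    intro j
    rw [dist_eq_norm]
    exact (ha j).2.2
  · rw [Metric.mem_ball, dist_comm, dist_eq_norm]
    exact (ha j).2.2.trans_lt (hTs j)
  · obtain ⟨P, hP, hcP, s₀, hs, hv⟩ := hrel
    refine ⟨P, hP, fun s => ?_, s₀, hs, hv⟩
    obtain ⟨e, he, he2⟩ := hcP s
    exact ⟨e, fun i => ⟨(he i).1, (he i).2.1, fun z hz => ((he i).2.2 z hz).trans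
      (Real.rpow_le_rpow_of_exponent_le hT1 hk)⟩, he2⟩

/-- One parameter: a single set `Z` of dimension `0` for all degrees `m` and all `τ`. -/
theorem one {N : ℕ} (hN : N = 1) {κ : Fin N → Type} [∀ j, Fintype (κ j)] {η : Type} [Fintype η] [DecidableEq η]
    {U : Fin N → Set ℂ} (hU : ∀ j, IsOpen (U j)) (hc : ∀ j, IsPreconnected (U j)) {y : ∀ j, κ j → ℂ → ℂ}
    (hy : ∀ j i, AnalyticOnNhd ℂ (y j i) (U j)) (hl : ∀ j, ∀ t ∈ U j, LocInd (y j) t) (ξ : η → ℂ) :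
    ∃ Z : Set (Fin N → ℂ), dimH Z = 0 ∧
      ∀ x : Fin N → ℂ, (∀ j, x j ∈ U j) → x ∉ Z → ∀ F : Fin N → IntermediateField ℚ ℂ,
        (∀ j, FiniteDimensional ℚ (F j)) → ∀ (m d : ℕ) (τ A : ℝ), 0 < τ → ∃ B : ℝ, ∀ᶠ T : ℝ in atTop, ∀ a : Fin N → ℂ,
          (∀ j, a j ∈ F j ∧ AlgLe m T (a j) ∧ ‖x j - a j‖ ≤ T ^ (-τ)) → ¬ Rel y ξ d A B T a := by
  have key := fun (m k : ℕ) => tuples (show 1 ≤ N by omega) hU hc hy hl ξ m (1 / ((k : ℝ) + 1)) (by positivity)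
  choose Z h1 h2 using key
  refine ⟨⋃ m, ⋃ k, Z m k, ?_, fun x hx hxZ F hF m d τ A hτ => ?_⟩
  · rw [dimH_iUnion]
    simp only [dimH_iUnion, ENNReal.iSup_eq_zero]
    intro m k
    have h3 := h1 m k
    rw [show ((N : ℝ) - 1) = 0 by rw [hN]; norm_num, mul_zero, zero_div, ENNReal.ofReal_zero] at h3
    exact nonpos_iff_eq_zero.1 h3
  · obtain ⟨k, hk⟩ := exists_nat_one_div_lt hτ
    obtain ⟨B, hB⟩ := h2 m k x hx (fun h => hxZ (Set.mem_iUnion.2 ⟨m, Set.mem_iUnion.2 ⟨k, h⟩⟩)) F hF d A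
    refine ⟨B, ?_⟩
    filter_upwards [hB, eventually_ge_atTop 1] with T hT hT1 a ha
    exact hT a fun j => ⟨(ha j).1, (ha j).2.1, (ha j).2.2.trans (Real.rpow_le_rpow_of_exponent_le hT1 (by linarith))⟩

/-- The algebraic numbers which are zeros of nonzero polynomials of degree at most `m` with integral coefficients of
absolute value at most `T`. -/
def Numbers (m : ℕ) (T : ℝ) : Set ℂ :=
  {x | ∃ P : Polynomial ℤ, P ≠ 0 ∧ P.natDegree ≤ m ∧ (∀ i, |(P.coeff i : ℝ)| ≤ T) ∧ Polynomial.aeval x P = 0}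

/-- The algebraic integers of the field generated by `S` all of whose conjugates have absolute value at most `H`. -/
def Integers (S : Set ℂ) (H : ℝ) : Set ℂ :=
  {c | c ∈ IntermediateField.adjoin ℚ S ∧ IsIntegral ℤ c ∧ ∀ z ∈ (minpoly ℚ c).aroots ℂ, ‖z‖ ≤ H}

/-- `a_j` is a number of the field `F_j` of degree at most `m` and height at most `T` with `|x_j - a_j| ≤ T ^ (-τ)`. -/
def Near {N : ℕ} (m : ℕ) (F : Fin N → IntermediateField ℚ ℂ) (τ T : ℝ) (x a : Fin N → ℂ) : Prop :=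
  ∀ j, a j ∈ F j ∧ a j ∈ Numbers m T ∧ ‖x j - a j‖ ≤ T ^ (-τ)

/-- The values `y_(j,i)(a_j)` do not satisfy an approximate relation of degree at most `d` in each variable with coefficients
`∑ ξ_i c_i`, where the `c_i` are integers of the field `ℚ(a_1, …, a_N)` with all conjugates at most `T ^ A`: the value of the
polynomial is more than `T ^ (-B)` times the absolute value of each of its nonzero coefficients. -/
def NoRelation {N : ℕ} {κ : Fin N → Type} {g : ℕ} (y : ∀ j, κ j → ℂ → ℂ) (ξ : Fin g → ℂ) (d : ℕ) (A B T : ℝ)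
    (a : Fin N → ℂ) : Prop :=
  ∀ P : MvPolynomial (Σ j, κ j) ℂ, (∀ v, P.degreeOf v ≤ d) →
    (∀ s, ∃ c : Fin g → ℂ, (∀ i, c i ∈ Integers (Set.range a) (T ^ A)) ∧ P.coeff s = ∑ i, ξ i * c i) →
    ∀ s₀, P.coeff s₀ ≠ 0 → T ^ (-B) * ‖P.coeff s₀‖ < ‖MvPolynomial.aeval (fun z : Σ j, κ j => y z.1 z.2 (a z.1)) P‖

/-- The final form. -/
theorem main {N : ℕ} (hN : 1 ≤ N) {κ : Fin N → Type} [∀ j, Fintype (κ j)] {g : ℕ}
    {U : Fin N → Set ℂ} (hU : ∀ j, IsOpen (U j)) (hc : ∀ j, IsPreconnected (U j)) {y : ∀ j, κ j → ℂ → ℂ}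
    (hy : ∀ j i, AnalyticOnNhd ℂ (y j i) (U j)) (hl : ∀ j, ∀ t ∈ U j, LocInd (y j) t) (ξ : Fin g → ℂ) :
    (∀ (m : ℕ) (τ : ℝ), 0 < τ →
      ∃ Z : Set (Fin N → ℂ), dimH Z ≤ ENNReal.ofReal (((m : ℝ) + 1) * ((N : ℝ) - 1) / τ) ∧
      ∀ x : Fin N → ℂ, (∀ j, x j ∈ U j) → x ∉ Z → ∀ F : Fin N → IntermediateField ℚ ℂ,
        (∀ j, FiniteDimensional ℚ (F j)) → ∀ (d : ℕ) (A : ℝ), ∃ B : ℝ, ∀ᶠ T : ℝ in atTop, ∀ a : Fin N → ℂ,
          Near m F τ T x a → NoRelation y ξ d A B T a) ∧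
    (N = 1 → ∃ Z : Set (Fin N → ℂ), dimH Z = 0 ∧
      ∀ x : Fin N → ℂ, (∀ j, x j ∈ U j) → x ∉ Z → ∀ F : Fin N → IntermediateField ℚ ℂ,
        (∀ j, FiniteDimensional ℚ (F j)) → ∀ (m d : ℕ) (τ A : ℝ), 0 < τ → ∃ B : ℝ, ∀ᶠ T : ℝ in atTop,
          ∀ a : Fin N → ℂ, Near m F τ T x a → NoRelation y ξ d A B T a) := by
  have hno : ∀ (d : ℕ) (A B T : ℝ) (a : Fin N → ℂ), ¬ Rel y ξ d A B T a → NoRelation y ξ d A B T a := by
    intro d A B T a hrel P hP hcP s₀ hs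
    by_contra hlt
    exact hrel ⟨P, hP, hcP, s₀, hs, not_lt.1 hlt⟩
  refine ⟨fun m τ hτ => ?_, fun h1 => ?_⟩
  · obtain ⟨Z, hZ, h⟩ := tuples hN hU hc hy hl ξ m τ hτ
    refine ⟨Z, hZ, fun x hx hxZ F hF d A => ?_⟩
    obtain ⟨B, hB⟩ := h x hx hxZ F hF d A
    exact ⟨B, hB.mono fun T hT a ha => hno d A B T a (hT a ha)⟩
  · obtain ⟨Z, hZ, h⟩ := one h1 hU hc hy hl ξ
    refine ⟨Z, hZ, fun x hx hxZ F hF m d τ A hτ => ?_⟩
    obtain ⟨B, hB⟩ := h x hx hxZ F hF m d τ A hτ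
    exact ⟨B, hB.mono fun T hT a ha => hno d A B T a (hT a ha)⟩

end Pool.Agent.Q229.RAN
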