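import Pool.Agent.Q229.RAC
import Pool.Agent.Q192.QD.Sigma

set_option autoImplicit false

/-! All points of all number fields near almost every point of `ℂ^N`: values of independent analytic functions. -/

namespace Pool.Agent.Q229.RAN

open MeasureTheory Filter Set Pool.Agent.Q192.QD
open Pool.Agent.Y124 (LocInd)

/-- There are at most `m (2T+1)^(m+1)` algebraic numbers of degree at most `m` and height at most `T`. -/
theorem alg_fin (m : ℕ) (T : ℝ) (hT : 1 ≤ T) :
    {x : ℂ | AlgLe m T x}.Finite ∧ ({x : ℂ | AlgLe m T x}.ncard : ℝ) ≤ (m * 3 ^ (m + 1)) * T ^ ((m : ℝ) + 1) := by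
  classical
  set M : ℤ := ⌊T⌋ with hM
  have hM1 : 1 ≤ M := Int.le_floor.2 (by exact_mod_cast hT)
  set S : Finset (Fin (m + 1) → ℤ) := Fintype.piFinset fun _ => Finset.Icc (-M) M with hS
  set pol : (Fin (m + 1) → ℤ) → Polynomial ℤ := fun v => ∑ i, Polynomial.C (v i) * Polynomial.X ^ (i : ℕ) with hpol
  set R : Finset ℂ := S.biUnion fun v => if (pol v).natDegree ≤ m then ((pol v).aroots ℂ).toFinset else ∅ with hR
  have hsub : {x : ℂ | AlgLe m T x} ⊆ (R : Set ℂ) := by
    rintro x ⟨P, hP0, hPd, hPc, hPx⟩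
    rw [Finset.mem_coe, hR, Finset.mem_biUnion]
    have hpe : pol (fun i => P.coeff i) = P := by
      rw [hpol]
      simp only
      rw [Fin.sum_univ_eq_sum_range (fun i => Polynomial.C (P.coeff i) * Polynomial.X ^ i) (m + 1)]
      exact (P.as_sum_range_C_mul_X_pow' (Nat.lt_succ_of_le hPd)).symm
    refine ⟨fun i => P.coeff i, ?_, ?_⟩
    · rw [hS, Fintype.mem_piFinset]
      intro i
      have h1 := abs_le.1 (hPc i)
      rw [Finset.mem_Icc, hM]
      constructor
      · rw [neg_le, Int.le_floor]
        push_cast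
        linarith [h1.1]
      · exact Int.le_floor.2 h1.2
    · rw [hpe, if_pos hPd, Multiset.mem_toFinset, Polynomial.mem_aroots]
      exact ⟨hP0, hPx⟩
  have hcard : (R.card : ℝ) ≤ (m * 3 ^ (m + 1)) * T ^ ((m : ℝ) + 1) := by
    have h1 : R.card ≤ ∑ v ∈ S, m := by
      refine Finset.card_biUnion_le.trans (Finset.sum_le_sum fun v _ => ?_)
      split_ifs with hv
      · refine (Multiset.toFinset_card_le _).trans ?_
        refine (Polynomial.card_roots' _).trans ((Polynomial.natDegree_map_le).trans hv)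
      · simp
    rw [Finset.sum_const, smul_eq_mul] at h1
    have h2 : (S.card : ℝ) ≤ (3 * T) ^ (m + 1) := by
      rw [hS, Fintype.card_piFinset]
      simp only [Finset.prod_const, Finset.card_univ, Fintype.card_fin, Int.card_Icc]
      push_cast
      refine pow_le_pow_left₀ (by positivity) ?_ _
      have h3 : ((M + 1 - -M).toNat : ℝ) = ((M + 1 - -M : ℤ) : ℝ) := by
        have h5 : (0 : ℤ) ≤ M + 1 - -M := by linarith
        exact_mod_cast Int.toNat_of_nonneg h5
      rw [h3]
      push_cast
      have h4 : (M : ℝ) ≤ T := Int.floor_le T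
      linarith
    calc (R.card : ℝ) ≤ (S.card * m : ℕ) := by exact_mod_cast h1
      _ = (S.card : ℝ) * m := by push_cast; rfl
      _ ≤ (3 * T) ^ (m + 1) * m := mul_le_mul_of_nonneg_right h2 (Nat.cast_nonneg m)
      _ = (m * 3 ^ (m + 1)) * T ^ ((m : ℝ) + 1) := by
        rw [mul_pow, show ((m : ℝ) + 1) = ((m + 1 : ℕ) : ℝ) by push_cast; rfl, Real.rpow_natCast]
        ring
  refine ⟨R.finite_toSet.subset hsub, ?_⟩
  refine le_trans ?_ hcard
  have h1 := Set.ncard_le_ncard hsub R.finite_toSet
  rw [Set.ncard_coe_finset] at h1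
  exact_mod_cast h1

/-- There are only finitely many subfields of a number field. -/
theorem sub_fin (F : IntermediateField ℚ ℂ) [FiniteDimensional ℚ F] : {G : IntermediateField ℚ ℂ | G ≤ F}.Finite := by
  have h1 : Finite (IntermediateField ℚ F) :=
    @Field.finite_intermediateField_of_exists_primitive_element ℚ F _ _ (IntermediateField.algebra' F) inferInstance
      (@Field.exists_primitive_element ℚ F _ _ (IntermediateField.algebra' F) inferInstance inferInstance)
  refine (Set.finite_range (fun G : IntermediateField ℚ F => IntermediateField.lift G)).subset ?_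
  intro G hG
  exact ⟨IntermediateField.restrict hG, IntermediateField.lift_restrict hG⟩

theorem nfd_le (F : IntermediateField ℚ ℂ) [FiniteDimensional ℚ F] (X : Finset ℂ) (hX : ∀ x ∈ X, x ∈ F) :
    nfd X ≤ {G : IntermediateField ℚ ℂ | G ≤ F}.ncard := by
  refine Set.ncard_le_ncard ?_ (sub_fin F)
  rintro G ⟨x, hx, rfl⟩
  exact IntermediateField.adjoin_simple_le_iff.2 (hX x hx)

end Pool.Agent.Q229.RAN
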