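import Mathlib

/-!
# Integers with a small part made of simple primes (helper229)

The proof follows `Pool.Agent.H328R2.ABC.RadSum`.
-/

set_option autoImplicit false

namespace Pool.Agent.Q229.RAP

open Finset

/-- the product of the primes which divide `n` exactly once and do not divide `6` -/
def sf (n : ℕ) : ℕ := ∏ p ∈ n.primeFactors.filter (fun p => n.factorization p = 1 ∧ ¬ p ∣ 6), p

theorem sf_pos (n : ℕ) : 0 < sf n :=
  Finset.prod_pos fun _ hp => (Nat.prime_of_mem_primeFactors (Finset.mem_filter.1 hp).1).pos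

theorem sf_mul {m n : ℕ} (h : Nat.Coprime m n) : sf (m * n) = sf m * sf n := by
  unfold sf
  rw [h.primeFactors_mul, Finset.filter_union, Finset.prod_union]
  · congr 1
    · refine Finset.prod_congr (Finset.filter_congr fun p hp => ?_) fun _ _ => rfl
      rw [Nat.factorization_eq_of_coprime_left h (Nat.mem_primeFactors_iff_mem_primeFactorsList.1 hp)]
    · refine Finset.prod_congr (Finset.filter_congr fun p hp => ?_) fun _ _ => rfl
      rw [Nat.factorization_eq_of_coprime_right h (Nat.mem_primeFactors_iff_mem_primeFactorsList.1 hp)]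
  · exact Finset.disjoint_filter_filter h.disjoint_primeFactors

theorem sf_pp {p k : ℕ} (hp : p.Prime) : sf (p ^ k) = if k = 1 ∧ ¬ p ∣ 6 then p else 1 := by
  unfold sf
  rcases Nat.eq_zero_or_pos k with h | h
  · subst h
    simp
  · rw [Nat.primeFactors_prime_pow h.ne' hp, Finset.filter_singleton, hp.factorization_pow]
    simp only [Finsupp.single_eq_same]
    split_ifs
    · exact Finset.prod_singleton _ _
    · exact Finset.prod_empty

/-- the multiplicative function `n ^ (-a) / sf n ^ (1/2)` -/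
noncomputable def ff (a : ℝ) (n : ℕ) : ℝ := (n : ℝ) ^ (-a) * (sf n : ℝ) ^ (-(1 / 2 : ℝ))

lemma ff_one (a : ℝ) : ff a 1 = 1 := by simp [ff, sf]

lemma ff_mul (a : ℝ) {m n : ℕ} (h : Nat.Coprime m n) : ff a (m * n) = ff a m * ff a n := by
  unfold ff
  rw [sf_mul h]
  push_cast
  rw [Real.mul_rpow (by positivity) (by positivity), Real.mul_rpow (by positivity) (by positivity)]
  ring

lemma ff_nonneg (a : ℝ) (n : ℕ) : 0 ≤ ff a n := by unfold ff; positivity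

/-- the factor at a simple prime -/
noncomputable def uu (p : ℕ) : ℝ := if p ∣ 6 then 1 else (p : ℝ) ^ (-(1 / 2 : ℝ))

lemma ff_pp (a : ℝ) {p : ℕ} (hp : p.Prime) (n : ℕ) :
    ff a (p ^ n) = ((p : ℝ) ^ (-a)) ^ n + (if n = 1 then (p : ℝ) ^ (-a) * (uu p - 1) else 0) := by
  have hpow : ((p ^ n : ℕ) : ℝ) ^ (-a) = ((p : ℝ) ^ (-a)) ^ n := by
    push_cast
    rw [← Real.rpow_natCast ((p : ℝ) ^ (-a)) n, ← Real.rpow_natCast (p : ℝ) n,
      ← Real.rpow_mul (by positivity), ← Real.rpow_mul (by positivity), mul_comm (n : ℝ) (-a)]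
  unfold ff
  rw [sf_pp hp, hpow]
  by_cases h1 : n = 1
  · subst h1
    unfold uu
    by_cases h6 : p ∣ 6
    · simp [h6]
    · simp [h6]
      ring
  · simp [h1]

lemma hasSum_ff (a : ℝ) (ha : 0 < a) {p : ℕ} (hp : p.Prime) :
    HasSum (fun n : ℕ => ff a (p ^ n)) ((1 - (p : ℝ) ^ (-a))⁻¹ + (p : ℝ) ^ (-a) * (uu p - 1)) := by
  have hx0 : 0 ≤ (p : ℝ) ^ (-a) := by positivity
  have hp1 : (1 : ℝ) < p := by exact_mod_cast hp.one_lt
  have hx1 : (p : ℝ) ^ (-a) < 1 := Real.rpow_lt_one_of_one_lt_of_neg hp1 (by linarith)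
  have h1 := hasSum_geometric_of_lt_one hx0 hx1
  have h2 : HasSum (fun n : ℕ => if n = 1 then (p : ℝ) ^ (-a) * (uu p - 1) else 0)
      ((p : ℝ) ^ (-a) * (uu p - 1)) := by
    have := hasSum_ite_eq (1 : ℕ) ((p : ℝ) ^ (-a) * (uu p - 1))
    simpa using this
  have h3 := h1.add h2
  refine h3.congr_fun ?_
  intro n
  exact ff_pp a hp n

lemma local_le (ε : ℝ) (hε : 0 < ε) {p : ℕ} (hp : p.Prime) :
    ∑' n : ℕ, ff (1 / 2 + ε) (p ^ n) ≤
      Real.exp ((1 + 2 * (1 - (2 : ℝ) ^ (-(1 / 2 + ε)))⁻¹) * (p : ℝ) ^ (-(1 + ε))) := by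
  rw [(hasSum_ff (1 / 2 + ε) (by positivity) hp).tsum_eq]
  have hp2 : (2 : ℝ) ≤ p := by exact_mod_cast hp.two_le
  have hp0 : (0 : ℝ) < p := by linarith
  have hp1 : (1 : ℝ) < p := by linarith
  obtain ⟨x, hx⟩ : ∃ x : ℝ, x = (p : ℝ) ^ (-(1 / 2 + ε)) := ⟨_, rfl⟩
  obtain ⟨y, hy⟩ : ∃ y : ℝ, y = (2 : ℝ) ^ (-(1 / 2 + ε)) := ⟨_, rfl⟩
  obtain ⟨z, hz⟩ : ∃ z : ℝ, z = (p : ℝ) ^ (-(1 + ε)) := ⟨_, rfl⟩
  rw [← hx, ← hy, ← hz]
  have hx0 : 0 < x := by rw [hx]; positivity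
  have hy0 : 0 < y := by rw [hy]; positivity
  have hz0 : 0 < z := by rw [hz]; positivity
  have hx1 : x < 1 := by rw [hx]; exact Real.rpow_lt_one_of_one_lt_of_neg hp1 (by linarith)
  have hy1 : y < 1 := by rw [hy]; exact Real.rpow_lt_one_of_one_lt_of_neg (by norm_num) (by linarith)
  have hxy : x ≤ y := by
    rw [hx, hy]
    exact Real.rpow_le_rpow_of_nonpos (by norm_num) hp2 (by linarith)
  have hinv : (1 - x)⁻¹ ≤ (1 - y)⁻¹ := inv_anti₀ (by linarith) (by linarith)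
  have hK0 : 0 ≤ (1 - y)⁻¹ := inv_nonneg.2 (by linarith)
  have hix : (1 - x)⁻¹ * (1 - x) = 1 := inv_mul_cancel₀ (by linarith)
  refine le_trans ?_ ((Real.add_one_le_exp _))
  by_cases h6 : p ∣ 6
  · have hu : uu p = 1 := by unfold uu; rw [if_pos h6]
    rw [hu, sub_self, mul_zero, add_zero]
    have hp4 : (p : ℝ) ≤ 4 := by
      have h7 : p ≤ 6 := Nat.le_of_dvd (by norm_num) h6
      have h8 : p ≠ 5 := by
        rintro rfl
        revert h6
        decide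
      have h9 : p ≠ 6 := by
        rintro rfl
        revert hp
        decide
      have : p ≤ 4 := by omega
      exact_mod_cast this
    have hxz : x ≤ 2 * z := by
      have e : x = (p : ℝ) ^ (1 / 2 : ℝ) * z := by
        rw [hx, hz, ← Real.rpow_add hp0]
        congr 1
        ring
      have h10 : (p : ℝ) ^ (1 / 2 : ℝ) ≤ 2 := by
        calc (p : ℝ) ^ (1 / 2 : ℝ) ≤ (4 : ℝ) ^ (1 / 2 : ℝ) := Real.rpow_le_rpow hp0.le hp4 (by norm_num)
          _ = 2 := by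
            rw [show (4 : ℝ) = 2 ^ (2 : ℝ) by norm_num, ← Real.rpow_mul (by norm_num)]
            norm_num
      rw [e]
      exact mul_le_mul_of_nonneg_right h10 hz0.le
    have h11 : (1 - x)⁻¹ = 1 + x * (1 - x)⁻¹ := by linear_combination hix
    have h12 : x * (1 - x)⁻¹ ≤ (2 * z) * (1 - y)⁻¹ :=
      mul_le_mul hxz hinv (inv_nonneg.2 (by linarith)) (by positivity)
    rw [h11]
    nlinarith
  · have hu : uu p = (p : ℝ) ^ (-(1 / 2 : ℝ)) := by unfold uu; rw [if_neg h6]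
    have hxu : x * (p : ℝ) ^ (-(1 / 2 : ℝ)) = z := by
      rw [hx, hz, ← Real.rpow_add hp0]
      congr 1
      ring
    have hx2 : x * x ≤ z := by
      rw [hx, hz, ← Real.rpow_add hp0]
      exact Real.rpow_le_rpow_of_exponent_le hp1.le (by linarith)
    rw [hu, mul_sub, hxu, mul_one]
    have h11 : (1 - x)⁻¹ = 1 + x + x * x * (1 - x)⁻¹ := by linear_combination (1 + x) * hix
    have h12 : x * x * (1 - x)⁻¹ ≤ z * (1 - y)⁻¹ :=
      mul_le_mul hx2 hinv (inv_nonneg.2 (by linarith)) hz0.le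
    have h13 : 0 ≤ z * (1 - y)⁻¹ := by positivity
    rw [h11]
    nlinarith

/-- the sum of `ff` is bounded -/
theorem sum_ff (ε : ℝ) (hε : 0 < ε) : ∃ C : ℝ, 0 < C ∧ ∀ X : ℕ, ∑ n ∈ Finset.Icc 1 X, ff (1 / 2 + ε) n ≤ C := by
  have hs : Summable (fun n : ℕ => (n : ℝ) ^ (-(1 + ε))) :=
    Real.summable_nat_rpow.2 (by linarith)
  have hy1 : (2 : ℝ) ^ (-(1 / 2 + ε)) < 1 := Real.rpow_lt_one_of_one_lt_of_neg (by norm_num) (by linarith)
  have hy2 : 0 ≤ 1 + 2 * (1 - (2 : ℝ) ^ (-(1 / 2 + ε)))⁻¹ := by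
    have := inv_nonneg.2 (sub_nonneg.2 hy1.le)
    linarith
  refine ⟨Real.exp ((1 + 2 * (1 - (2 : ℝ) ^ (-(1 / 2 + ε)))⁻¹) * ∑' n : ℕ, (n : ℝ) ^ (-(1 + ε))),
    Real.exp_pos _, ?_⟩
  intro X
  have h1 := (EulerProduct.summable_and_hasSum_smoothNumbers_prod_primesBelow_tsum
    (f := ff (1 / 2 + ε)) (ff_one _) (fun h => ff_mul _ h) (by
      intro p hp
      exact summable_norm_iff.2 (hasSum_ff (1 / 2 + ε) (by positivity) hp).summable) (X + 1)).2
  have h2 : HasSum ((Nat.smoothNumbers (X + 1)).indicator (ff (1 / 2 + ε)))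
      (∏ p ∈ (X + 1).primesBelow, ∑' n : ℕ, ff (1 / 2 + ε) (p ^ n)) := by
    rw [← hasSum_subtype_iff_indicator]
    exact h1
  have h3 := sum_le_hasSum (Finset.Icc 1 X) (fun n _ => by
    apply Set.indicator_nonneg
    intro n _
    exact ff_nonneg _ n) h2
  have h4 : ∀ V ∈ Finset.Icc 1 X, ff (1 / 2 + ε) V =
      (Nat.smoothNumbers (X + 1)).indicator (ff (1 / 2 + ε)) V := by
    intro V hV
    rw [Finset.mem_Icc] at hV
    have hmem : V ∈ Nat.smoothNumbers (X + 1) := by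
      rw [Nat.mem_smoothNumbers']
      intro p _ hpV
      have := Nat.le_of_dvd (by omega) hpV
      omega
    rw [Set.indicator_of_mem hmem]
  have h5 : ∏ p ∈ (X + 1).primesBelow, ∑' n : ℕ, ff (1 / 2 + ε) (p ^ n) ≤
      Real.exp ((1 + 2 * (1 - (2 : ℝ) ^ (-(1 / 2 + ε)))⁻¹) * ∑' n : ℕ, (n : ℝ) ^ (-(1 + ε))) := by
    calc ∏ p ∈ (X + 1).primesBelow, ∑' n : ℕ, ff (1 / 2 + ε) (p ^ n)
        ≤ ∏ p ∈ (X + 1).primesBelow,
            Real.exp ((1 + 2 * (1 - (2 : ℝ) ^ (-(1 / 2 + ε)))⁻¹) * (p : ℝ) ^ (-(1 + ε))) := by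
          apply Finset.prod_le_prod
          · intro p _
            exact tsum_nonneg fun n => ff_nonneg _ _
          · intro p hp
            exact local_le ε hε (Nat.prime_of_mem_primesBelow hp)
      _ = Real.exp (∑ p ∈ (X + 1).primesBelow,
            (1 + 2 * (1 - (2 : ℝ) ^ (-(1 / 2 + ε)))⁻¹) * (p : ℝ) ^ (-(1 + ε))) := by
          rw [Real.exp_sum]
      _ ≤ _ := by
          apply Real.exp_le_exp.2
          rw [← Finset.mul_sum]
          apply mul_le_mul_of_nonneg_left _ hy2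
          exact hs.sum_le_tsum _ (fun n _ => by positivity)
  rw [Finset.sum_congr rfl h4]
  exact h3.trans h5

/-- **integers with a small simple part** -/
theorem count_sf (ε : ℝ) (hε : 0 < ε) : ∃ C : ℝ, 0 < C ∧ ∀ (N : ℕ) (Y : ℝ), 0 ≤ Y →
    (((Finset.Icc 1 N).filter fun n => (sf n : ℝ) ≤ Y).card : ℝ) ≤
      C * Y ^ (1 / 2 : ℝ) * (N : ℝ) ^ (1 / 2 + ε) := by
  obtain ⟨C, hC, h⟩ := sum_ff ε hε
  refine ⟨C, hC, fun N Y hY => ?_⟩
  calc (((Finset.Icc 1 N).filter fun n => (sf n : ℝ) ≤ Y).card : ℝ)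
      = ∑ n ∈ (Finset.Icc 1 N).filter (fun n => (sf n : ℝ) ≤ Y), (1 : ℝ) := by simp
    _ ≤ ∑ n ∈ (Finset.Icc 1 N).filter (fun n => (sf n : ℝ) ≤ Y),
          (Y ^ (1 / 2 : ℝ) * (N : ℝ) ^ (1 / 2 + ε)) * ff (1 / 2 + ε) n := by
        refine Finset.sum_le_sum fun n hn => ?_
        obtain ⟨h0, h1⟩ := Finset.mem_filter.1 hn
        rw [Finset.mem_Icc] at h0
        have h2 : (0 : ℝ) < sf n := by exact_mod_cast sf_pos n
        have h3 : (0 : ℝ) < n := by exact_mod_cast h0.1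
        have h4 : (n : ℝ) ≤ N := by exact_mod_cast h0.2
        unfold ff
        have e1 : 1 ≤ (N : ℝ) ^ (1 / 2 + ε) * (n : ℝ) ^ (-(1 / 2 + ε)) := by
          rw [Real.rpow_neg h3.le, ← div_eq_mul_inv, one_le_div (by positivity)]
          exact Real.rpow_le_rpow h3.le h4 (by positivity)
        have e2 : 1 ≤ Y ^ (1 / 2 : ℝ) * (sf n : ℝ) ^ (-(1 / 2 : ℝ)) := by
          rw [Real.rpow_neg h2.le, ← div_eq_mul_inv, one_le_div (by positivity)]
          exact Real.rpow_le_rpow h2.le h1 (by norm_num)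
        calc (1 : ℝ) = 1 * 1 := (mul_one 1).symm
          _ ≤ (Y ^ (1 / 2 : ℝ) * (sf n : ℝ) ^ (-(1 / 2 : ℝ))) *
              ((N : ℝ) ^ (1 / 2 + ε) * (n : ℝ) ^ (-(1 / 2 + ε))) :=
            mul_le_mul e2 e1 zero_le_one (by positivity)
          _ = _ := by ring
    _ ≤ ∑ n ∈ Finset.Icc 1 N, (Y ^ (1 / 2 : ℝ) * (N : ℝ) ^ (1 / 2 + ε)) * ff (1 / 2 + ε) n :=
        Finset.sum_le_sum_of_subset_of_nonneg (Finset.filter_subset _ _) fun n _ _ =>
          mul_nonneg (by positivity) (ff_nonneg _ _)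
    _ = (Y ^ (1 / 2 : ℝ) * (N : ℝ) ^ (1 / 2 + ε)) * ∑ n ∈ Finset.Icc 1 N, ff (1 / 2 + ε) n := by
        rw [Finset.mul_sum]
    _ ≤ (Y ^ (1 / 2 : ℝ) * (N : ℝ) ^ (1 / 2 + ε)) * C := mul_le_mul_of_nonneg_left (h N) (by positivity)
    _ = _ := by ring

end Pool.Agent.Q229.RAP
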