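import Pool.Agent.Q229.RAJ
import Pool.Agent.Q229.RAP

/-!
# Rational numbers whose denominator has a small simple part, near almost every real number (helper229)
-/

set_option autoImplicit false

namespace Pool.Agent.Q229.RAP

open MeasureTheory Filter Set
open Pool.Agent.Q229.RAQ (Pts near1)
open Pool.Agent.Q229.RAJ (near2)

/-- The rational numbers `x` such that the simple part (prime to six) of the denominator is smaller than the power `1 - η` of the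
height of `x`. -/
def Ex (η : ℝ) : Set ℚ :=
  {x : ℚ | Real.log (sf x.den) < (1 - η) * Real.log ((max x.num.natAbs x.den : ℕ) : ℝ)}

theorem count_ex {η : ℝ} (hη0 : 0 ≤ η) (hη : η ≤ 1) {σ : ℝ} (hσ : 2 - η / 2 < σ) (M : ℕ) :
    ∃ C : ℝ, ∀ T : ℝ, 1 ≤ T → (Pts (Ex η) M T).Finite ∧ ((Pts (Ex η) M T).ncard : ℝ) ≤ C * T ^ σ := by
  classical
  obtain ⟨ε, hε⟩ : ∃ ε : ℝ, ε = σ - (2 - η / 2) := ⟨_, rfl⟩
  have hε0 : 0 < ε := by rw [hε]; linarith
  obtain ⟨C, hC, h⟩ := count_sf ε hε0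
  refine ⟨(2 * M + 1) * (C * (((M : ℝ) + 1) ^ (1 - η)) ^ (1 / 2 : ℝ)), fun T hT => ?_⟩
  have hT0 : 0 < T := by linarith
  obtain ⟨N, hN⟩ : ∃ N : ℕ, N = ⌊T⌋₊ := ⟨_, rfl⟩
  have hNT : (N : ℝ) ≤ T := by
    rw [hN]
    exact Nat.floor_le hT0.le
  obtain ⟨Y, hY⟩ : ∃ Y : ℝ, Y = (((M : ℝ) + 1) * T) ^ (1 - η) := ⟨_, rfl⟩
  have hMT : 0 < ((M : ℝ) + 1) * T := by positivity
  have hY0 : 0 ≤ Y := by rw [hY]; positivity
  obtain ⟨A, hA⟩ : ∃ A : Finset (ℤ × ℕ), A = (Finset.Icc (-(M * N : ℤ)) (M * N)) ×ˢ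
      ((Finset.Icc 1 N).filter fun n => (sf n : ℝ) ≤ Y) := ⟨_, rfl⟩
  have hsub : Pts (Ex η) M T ⊆ (fun p : ℤ × ℕ => (p.1 : ℚ) / p.2) '' (A : Set (ℤ × ℕ)) := by
    rintro x ⟨h1, h2, h3⟩
    have hd0 : 0 < x.den := x.pos
    have hdN : x.den ≤ N := by
      rw [hN]
      exact Nat.le_floor h3
    have hnum : |(x.num : ℝ)| ≤ M * x.den := by
      have hd : (0 : ℝ) < x.den := by exact_mod_cast hd0
      have e : (x.num : ℝ) = x * x.den := by
        exact_mod_cast (Rat.mul_den_eq_num x).symm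
      rw [e, abs_mul, abs_of_pos hd]
      exact mul_le_mul_of_nonneg_right h2 hd.le
    refine ⟨(x.num, x.den), ?_, Rat.num_div_den x⟩
    rw [hA, Finset.mem_coe, Finset.mem_product]
    constructor
    · rw [Finset.mem_Icc]
      have h5 : |(x.num : ℝ)| ≤ M * N := hnum.trans (mul_le_mul_of_nonneg_left (by exact_mod_cast hdN)
        (Nat.cast_nonneg _))
      have h4 : |x.num| ≤ (M * N : ℤ) := by exact_mod_cast h5
      exact ⟨(abs_le.1 h4).1, (abs_le.1 h4).2⟩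
    · rw [Finset.mem_filter, Finset.mem_Icc]
      refine ⟨⟨hd0, hdN⟩, ?_⟩
      have h6 : ((max x.num.natAbs x.den : ℕ) : ℝ) ≤ ((M : ℝ) + 1) * T := by
        rw [Nat.cast_max, Nat.cast_natAbs, Int.cast_abs]
        refine max_le ?_ ?_
        · nlinarith [hnum, h3, (Nat.cast_nonneg M : (0 : ℝ) ≤ M)]
        · nlinarith [h3, (Nat.cast_nonneg M : (0 : ℝ) ≤ M)]
      have h7 : (0 : ℝ) < ((max x.num.natAbs x.den : ℕ) : ℝ) := by
        exact_mod_cast lt_of_lt_of_le hd0 (le_max_right _ _)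
      have h8 : Real.log (sf x.den) ≤ (1 - η) * Real.log (((M : ℝ) + 1) * T) :=
        (le_of_lt h1).trans (mul_le_mul_of_nonneg_left (Real.log_le_log h7 h6) (by linarith))
      have h9 : (0 : ℝ) < sf x.den := by exact_mod_cast sf_pos x.den
      rw [hY, ← Real.log_le_log_iff h9 (Real.rpow_pos_of_pos hMT _), Real.log_rpow hMT]
      exact h8
  have hfin : ((fun p : ℤ × ℕ => (p.1 : ℚ) / p.2) '' (A : Set (ℤ × ℕ))).Finite := (Finset.finite_toSet A).image _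
  refine ⟨hfin.subset hsub, ?_⟩
  have h1 : ((Pts (Ex η) M T).ncard : ℝ) ≤ A.card := by
    have h2 := Set.ncard_le_ncard hsub hfin
    have h3 := Set.ncard_image_le (f := fun p : ℤ × ℕ => (p.1 : ℚ) / p.2) (Finset.finite_toSet A)
    rw [Set.ncard_coe_finset] at h3
    exact_mod_cast h2.trans h3
  have h2 : (A.card : ℝ) = (2 * (M * N) + 1) * (((Finset.Icc 1 N).filter fun n => (sf n : ℝ) ≤ Y).card : ℝ) := by
    rw [hA, Finset.card_product, Int.card_Icc]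
    push_cast
    congr 1
    have e : ((M * N : ℤ) + 1 - -(M * N : ℤ)).toNat = 2 * (M * N) + 1 := by omega
    rw [e]
    push_cast
    ring
  have h3 := h N Y hY0
  have hT1 : (2 * ((M : ℝ) * N) + 1) ≤ (2 * M + 1) * T := by
    nlinarith [hNT, hT, (Nat.cast_nonneg M : (0 : ℝ) ≤ M), mul_le_mul_of_nonneg_left hNT (Nat.cast_nonneg M : (0 : ℝ) ≤ M)]
  have hNε : (N : ℝ) ^ (1 / 2 + ε) ≤ T ^ (1 / 2 + ε) :=
    Real.rpow_le_rpow (Nat.cast_nonneg _) hNT (by linarith)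
  have hYe : Y ^ (1 / 2 : ℝ) = (((M : ℝ) + 1) ^ (1 - η)) ^ (1 / 2 : ℝ) * T ^ ((1 - η) * (1 / 2)) := by
    rw [hY, Real.mul_rpow (by positivity) hT0.le, Real.mul_rpow (by positivity) (by positivity),
      ← Real.rpow_mul hT0.le]
  have hpow : T * (T ^ ((1 - η) * (1 / 2)) * T ^ (1 / 2 + ε)) = T ^ σ := by
    rw [← Real.rpow_add hT0]
    nth_rewrite 1 [← Real.rpow_one T]
    rw [← Real.rpow_add hT0]
    congr 1
    rw [hε]
    ring
  have hYp : 0 ≤ Y ^ (1 / 2 : ℝ) := by positivity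
  calc ((Pts (Ex η) M T).ncard : ℝ) ≤ A.card := h1
    _ = (2 * (M * N) + 1) * (((Finset.Icc 1 N).filter fun n => (sf n : ℝ) ≤ Y).card : ℝ) := h2
    _ ≤ ((2 * M + 1) * T) * (C * Y ^ (1 / 2 : ℝ) * (N : ℝ) ^ (1 / 2 + ε)) :=
        mul_le_mul hT1 h3 (Nat.cast_nonneg _) (by positivity)
    _ ≤ ((2 * M + 1) * T) * (C * Y ^ (1 / 2 : ℝ) * T ^ (1 / 2 + ε)) :=
        mul_le_mul_of_nonneg_left (mul_le_mul_of_nonneg_left hNε (by positivity)) (by positivity)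
    _ = (2 * M + 1) * (C * (((M : ℝ) + 1) ^ (1 - η)) ^ (1 / 2 : ℝ)) *
          (T * (T ^ ((1 - η) * (1 / 2)) * T ^ (1 / 2 + ε))) := by
        rw [hYe]
        ring
    _ = _ := by rw [hpow]

/-- near real numbers outside a small set there are no elements of `E`, if almost all elements of `E` have denominators with a
small simple part -/
theorem near_sf (E : Set ℚ) {η₀ : ℝ} (h0 : 0 < η₀) (h1 : η₀ ≤ 1)
    (h : ∀ η : ℝ, 0 < η → η < η₀ → ∃ F : Set ℚ, F.Finite ∧ ∀ x ∈ E, x ∉ F → x ∈ Ex η) (τ : ℝ) (hτ : 0 < τ) :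
    ∃ Z : Set ℝ, dimH Z ≤ ENNReal.ofReal ((2 - η₀ / 2) / τ) ∧ (2 - η₀ / 2 < τ → volume Z = 0) ∧
      ∀ y : ℝ, y ∉ Z → Irrational y ∧ ∀ᶠ T : ℝ in atTop, ∀ x : ℚ, (x.den : ℝ) ≤ T → |y - x| ≤ T ^ (-τ) → x ∉ E := by
  refine near2 E (by linarith) (fun σ hσ M => ?_) τ hτ
  obtain ⟨m, hm⟩ : ∃ m : ℝ, m = min (η₀ / 2) (σ - (2 - η₀ / 2)) := ⟨_, rfl⟩
  have hm0 : 0 < m := by
    rw [hm]
    exact lt_min (by linarith) (by linarith)
  have hm1 : m ≤ η₀ / 2 := by rw [hm]; exact min_le_left _ _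
  have hm2 : m ≤ σ - (2 - η₀ / 2) := by rw [hm]; exact min_le_right _ _
  obtain ⟨F, hF, hFE⟩ := h (η₀ - m) (by linarith) (by linarith)
  obtain ⟨C, hC⟩ := count_ex (η := η₀ - m) (by linarith) (by linarith) (σ := σ) (by linarith) M
  refine ⟨F.ncard + C, fun T hT => ?_⟩
  obtain ⟨h2, h3⟩ := hC T hT
  have hsub : Pts E M T ⊆ F ∪ Pts (Ex (η₀ - m)) M T := by
    rintro x ⟨hx, h4⟩
    by_cases hxF : x ∈ F
    · exact Or.inl hxF
    · exact Or.inr ⟨hFE x hx hxF, h4⟩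
  refine ⟨(hF.union h2).subset hsub, ?_⟩
  have h5 : ((Pts E M T).ncard : ℝ) ≤ F.ncard + (Pts (Ex (η₀ - m)) M T).ncard := by
    exact_mod_cast (Set.ncard_le_ncard hsub (hF.union h2)).trans (Set.ncard_union_le _ _)
  have hσ0 : 0 ≤ σ := by linarith
  have h6 : (F.ncard : ℝ) ≤ F.ncard * T ^ σ :=
    le_mul_of_one_le_right (Nat.cast_nonneg _) (Real.one_le_rpow hT hσ0)
  linarith

end Pool.Agent.Q229.RAP
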