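import Pool.Agent.Q229.RA

/-!
# Sets of rational numbers with a power saving count, near almost every real number (helper229)
-/

set_option autoImplicit false

namespace Pool.Agent.Q229.RAQ

open MeasureTheory Filter Set

/-- The rational numbers `x ∈ E` with `|x| ≤ M` and denominator at most `T`. -/
def Pts (E : Set ℚ) (M T : ℝ) : Set ℚ := {x : ℚ | x ∈ E ∧ |(x : ℝ)| ≤ M ∧ (x.den : ℝ) ≤ T}

/-- If `E` contains at most `C (M) T ^ σ` rational numbers of denominator `≤ T` in `[-M, M]`, then there are no elements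
of `E` near real numbers outside a small set. -/
theorem near1 (E : Set ℚ) {σ : ℝ} (hσ : 0 ≤ σ)
    (h : ∀ M : ℕ, ∃ C : ℝ, ∀ T : ℝ, 1 ≤ T → (Pts E M T).Finite ∧ ((Pts E M T).ncard : ℝ) ≤ C * T ^ σ)
    (τ : ℝ) (hτ : 0 < τ) :
    ∃ Z : Set ℝ, dimH Z ≤ ENNReal.ofReal (σ / τ) ∧ (σ < τ → volume Z = 0) ∧
      ∀ y : ℝ, y ∉ Z → Irrational y ∧ ∀ᶠ T : ℝ in atTop, ∀ x : ℚ, (x.den : ℝ) ≤ T → |y - x| ≤ T ^ (-τ) → x ∉ E := by
  classical
  set one : ℚ → Fin 1 → ℚ := fun x _ => x with hone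
  have honeinj : Function.Injective one := fun x y hxy => congrFun hxy 0
  obtain ⟨Z, hZ1, hZ2, hZ3⟩ := RA.near_all (n := 1) (ι := ℕ) (fun M _ T => one '' Pts E M T) (σ₀ := σ) hσ
    (by
      rintro M B T T' q h1 hT - - ⟨x, hx, rfl⟩
      exact ⟨x, ⟨hx.1, hx.2.1, hx.2.2.trans hT⟩, rfl⟩)
    (by
      intro M σ' hσ'
      obtain ⟨C, hC⟩ := h M
      refine ⟨0, max C 0, fun T hT => ?_⟩
      obtain ⟨h1, h2⟩ := hC T hT
      refine ⟨h1.image _, ?_⟩
      rw [Set.ncard_image_of_injective _ honeinj]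
      calc ((Pts E M T).ncard : ℝ) ≤ C * T ^ σ := h2
        _ ≤ max C 0 * T ^ σ := mul_le_mul_of_nonneg_right (le_max_left _ _) (Real.rpow_nonneg (by linarith) _)
        _ ≤ max C 0 * T ^ σ' := mul_le_mul_of_nonneg_left (Real.rpow_le_rpow_of_exponent_le hT hσ'.le)
            (le_max_right _ _)) τ hτ
  -- the projection
  set Z' : Set ℝ := (fun v : Fin 1 → ℝ => v 0) '' Z with hZ'
  have hlip : LipschitzWith 1 (fun v : Fin 1 → ℝ => v 0) := LipschitzWith.eval 0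
  have hdim : dimH Z' ≤ ENNReal.ofReal (σ / τ) := (hlip.dimH_image_le Z).trans hZ1
  have hvol : σ < τ → volume Z' = 0 := by
    intro hlt
    have h0 : volume Z = 0 := hZ2 (by simpa using hlt)
    have hpre : Z' = (fun t : ℝ => (fun _ : Fin 1 => t)) ⁻¹' Z := by
      ext t
      constructor
      · rintro ⟨v, hv, rfl⟩
        have : (fun _ : Fin 1 => v 0) = v := by
          funext i
          rw [Subsingleton.elim i 0]
        show (fun _ : Fin 1 => v 0) ∈ Z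
        rw [this]
        exact hv
      · intro ht
        exact ⟨_, ht, rfl⟩
    have hmp := (MeasureTheory.volume_preserving_funUnique (Fin 1) ℝ).symm
    have e : (fun t : ℝ => (fun _ : Fin 1 => t)) = (MeasurableEquiv.funUnique (Fin 1) ℝ).symm := by
      funext t
      rfl
    rw [hpre, e]
    exact hmp.quasiMeasurePreserving.preimage_null h0
  refine ⟨Z' ∪ Set.range ((↑) : ℚ → ℝ), ?_, ?_, ?_⟩
  · rw [dimH_union]
    refine max_le hdim ?_
    rw [dimH_countable (Set.countable_range _)]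
    exact bot_le
  · intro hlt
    exact measure_union_null (hvol hlt) ((Set.countable_range _).measure_zero _)
  · intro y hy
    have hy1 : y ∉ Z' := fun hh => hy (Or.inl hh)
    have hy2 : y ∉ Set.range ((↑) : ℚ → ℝ) := fun hh => hy (Or.inr hh)
    refine ⟨fun hh => hy2 hh, ?_⟩
    have hy3 : (fun _ : Fin 1 => y) ∉ Z := fun hh => hy1 ⟨_, hh, rfl⟩
    obtain ⟨M, hM⟩ := exists_nat_ge (|y| + 1)
    obtain ⟨B, hB⟩ := hZ3 _ hy3 M
    filter_upwards [hB, eventually_ge_atTop (1 : ℝ)] with T hT hT1 x hx hxy hxE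
    have h1 : T ^ (-τ) ≤ 1 := Real.rpow_le_one_of_one_le_of_nonpos hT1 (by linarith)
    refine hT (one x) (fun j => hxy) ⟨x, ⟨hxE, ?_, hx⟩, rfl⟩
    have h2 : |(x : ℝ)| ≤ |y| + |y - x| := by
      have := abs_sub_abs_le_abs_sub (x : ℝ) y
      rw [abs_sub_comm] at this
      linarith
    linarith

/-- the form with the denominators of the rational numbers -/
theorem finite_den {E : Set ℚ} {τ y : ℝ} (hτ : 0 < τ)
    (h : ∀ᶠ T : ℝ in atTop, ∀ x : ℚ, (x.den : ℝ) ≤ T → |y - x| ≤ T ^ (-τ) → x ∉ E) :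
    {x : ℚ | x ∈ E ∧ |y - x| ≤ (x.den : ℝ) ^ (-τ)}.Finite := by
  obtain ⟨T₀, hT₀⟩ := eventually_atTop.1 h
  obtain ⟨N, hN⟩ := exists_nat_ge T₀
  obtain ⟨M, hM⟩ := exists_nat_ge (|y| + 1)
  -- the rational numbers with `den ≤ N` and `|x| ≤ M`
  have hfin : {x : ℚ | x.den ≤ N ∧ |(x : ℝ)| ≤ M}.Finite := by
    have : {x : ℚ | x.den ≤ N ∧ |(x : ℝ)| ≤ M} ⊆
        (fun p : ℤ × ℕ => (p.1 : ℚ) / p.2) '' ((Set.Icc (-(N * M : ℤ)) (N * M)) ×ˢ (Set.Iic N)) := by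
      rintro x ⟨h1, h2⟩
      refine ⟨(x.num, x.den), ⟨?_, h1⟩, Rat.num_div_den x⟩
      have hd : (0 : ℝ) < x.den := by exact_mod_cast x.pos
      have h3 : |(x.num : ℝ)| ≤ N * M := by
        have e : (x.num : ℝ) = x * x.den := by
          exact_mod_cast (Rat.mul_den_eq_num x).symm
        rw [e, abs_mul, abs_of_pos hd, mul_comm]
        exact mul_le_mul (by exact_mod_cast h1) h2 (abs_nonneg _) (Nat.cast_nonneg _)
      have h4 : |x.num| ≤ (N * M : ℤ) := by exact_mod_cast h3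
      exact ⟨(abs_le.1 h4).1, (abs_le.1 h4).2⟩
    exact (((Set.finite_Icc _ _).prod (Set.finite_Iic _)).image _).subset this
  refine hfin.subset ?_
  rintro x ⟨h1, h2⟩
  have hd : (1 : ℝ) ≤ x.den := by exact_mod_cast x.pos
  refine ⟨?_, ?_⟩
  · by_contra hcon
    push Not at hcon
    have h3 : T₀ ≤ x.den := hN.trans (by exact_mod_cast hcon.le)
    exact hT₀ _ h3 x le_rfl h2 h1
  · have h3 : (x.den : ℝ) ^ (-τ) ≤ 1 := Real.rpow_le_one_of_one_le_of_nonpos hd (by linarith)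
    have h4 := abs_sub_abs_le_abs_sub (x : ℝ) y
    rw [abs_sub_comm] at h4
    linarith

/-- a count of the elements of `E` in the sets `V X` gives a count by denominators -/
theorem pts_of {E F : Set ℚ} (hF : F.Finite) (V : ℝ → Set ℚ) {β γ : ℝ} (hγ : 0 ≤ γ)
    (hfin : ∀ X : ℝ, 1 ≤ X → (V X).Finite)
    (hcount : ∃ C : ℝ, ∀ X : ℝ, 1 ≤ X → ((E ∩ V X).ncard : ℝ) ≤ C * X ^ β)
    (hV : ∀ M : ℕ, ∃ C : ℝ, 1 ≤ C ∧ ∀ T : ℝ, 1 ≤ T → ∀ x : ℚ, x ∉ F → |(x : ℝ)| ≤ M → (x.den : ℝ) ≤ T →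
      x ∈ V (C * T ^ γ)) (M : ℕ) :
    ∃ C : ℝ, ∀ T : ℝ, 1 ≤ T → (Pts E M T).Finite ∧ ((Pts E M T).ncard : ℝ) ≤ C * T ^ (max (β * γ) 0) := by
  obtain ⟨C, hC⟩ := hcount
  obtain ⟨D, hD1, hD⟩ := hV M
  refine ⟨F.ncard + max C 0 * D ^ β, fun T hT => ?_⟩
  have hT0 : 0 < T := by linarith
  have hTγ : 1 ≤ T ^ γ := Real.one_le_rpow hT hγ
  have hDT : 1 ≤ D * T ^ γ := by nlinarith
  have hsub : Pts E M T ⊆ F ∪ (E ∩ V (D * T ^ γ)) := by
    rintro x ⟨h1, h2, h3⟩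
    by_cases hx : x ∈ F
    · exact Or.inl hx
    · exact Or.inr ⟨h1, hD T hT x hx h2 h3⟩
  have hfin2 : (E ∩ V (D * T ^ γ)).Finite := (hfin _ hDT).subset Set.inter_subset_right
  refine ⟨(hF.union hfin2).subset hsub, ?_⟩
  have h1 : ((Pts E M T).ncard : ℝ) ≤ F.ncard + (E ∩ V (D * T ^ γ)).ncard := by
    exact_mod_cast (Set.ncard_le_ncard hsub (hF.union hfin2)).trans (Set.ncard_union_le _ _)
  have h2 := hC _ hDT
  have hpow : (D * T ^ γ) ^ β = D ^ β * T ^ (β * γ) := by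
    rw [Real.mul_rpow (by linarith) (by positivity), ← Real.rpow_mul hT0.le, mul_comm γ β]
  have hm : T ^ (β * γ) ≤ T ^ (max (β * γ) 0) := Real.rpow_le_rpow_of_exponent_le hT (le_max_left _ _)
  have hm1 : 1 ≤ T ^ (max (β * γ) 0) := Real.one_le_rpow hT (le_max_right _ _)
  have hDβ : 0 < D ^ β := Real.rpow_pos_of_pos (by linarith) _
  have h3 : C * (D * T ^ γ) ^ β ≤ max C 0 * D ^ β * T ^ (max (β * γ) 0) := by
    rw [hpow]
    calc C * (D ^ β * T ^ (β * γ)) ≤ max C 0 * (D ^ β * T ^ (β * γ)) :=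
          mul_le_mul_of_nonneg_right (le_max_left _ _) (by positivity)
      _ ≤ max C 0 * (D ^ β * T ^ (max (β * γ) 0)) :=
          mul_le_mul_of_nonneg_left (mul_le_mul_of_nonneg_left hm hDβ.le) (le_max_right _ _)
      _ = _ := by ring
  have h4 : (F.ncard : ℝ) ≤ F.ncard * T ^ (max (β * γ) 0) := le_mul_of_one_le_right (Nat.cast_nonneg _) hm1
  linarith

end Pool.Agent.Q229.RAQ
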