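import Pool.Agent.Q229.RAJ
import Pool.Agent.Y728.AK.JSz

/-!
# Rational invariants whose denominator has a large radical (helper229)
-/

set_option autoImplicit false

namespace Pool.Agent.Q229.RAS

open Height NumberField IsDedekindDomain TH951 Module
open Pool.Agent.TH942 (sw sw_ell)
open Pool.Agent.TH910.LS Pool.Agent.Y725.LS Pool.Agent.Y728.AK
open Pool.Agent.H328R2.ABC (rad)

/-- the prime of the ring of integers of `ℚ` above a prime number -/
noncomputable def pr (p : ℕ) (hp : p.Prime) : HeightOneSpectrum (𝓞 ℚ) where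
  asIdeal := Ideal.span {(p : 𝓞 ℚ)}
  isPrime := by
    have h0 : (p : 𝓞 ℚ) ≠ 0 := by exact_mod_cast hp.ne_zero
    rw [Ideal.span_singleton_prime h0]
    have h1 : Prime (Rat.ringOfIntegersEquiv (p : 𝓞 ℚ)) := by
      rw [map_natCast]
      exact Nat.prime_iff_prime_int.1 hp
    exact (MulEquiv.prime_iff Rat.ringOfIntegersEquiv.toMulEquiv).1 h1
  ne_bot := by
    rw [Ne, Ideal.span_singleton_eq_bot]
    exact_mod_cast hp.ne_zero

theorem norm_pr (p : ℕ) (hp : p.Prime) : Ideal.absNorm (pr p hp).asIdeal = p := by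
  show Ideal.absNorm (Ideal.span {(p : 𝓞 ℚ)}) = p
  rw [Ideal.absNorm_span_singleton]
  have h1 : Algebra.norm ℤ ((p : ℤ) : 𝓞 ℚ) = (p : ℤ) ^ Module.finrank ℤ (𝓞 ℚ) := by
    have := Algebra.norm_algebraMap (S := 𝓞 ℚ) (p : ℤ)
    simpa using this
  have h2 : Module.finrank ℤ (𝓞 ℚ) = 1 := by
    rw [RingOfIntegers.rank, Module.finrank_self]
  rw [h2, pow_one] at h1
  have h3 : ((p : ℕ) : 𝓞 ℚ) = ((p : ℤ) : 𝓞 ℚ) := by push_cast; rfl
  rw [h3, h1]
  simp

theorem pr_inj {p q : ℕ} (hp : p.Prime) (hq : q.Prime) (h : pr p hp = pr q hq) : p = q := by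
  rw [← norm_pr p hp, h, norm_pr q hq]

theorem mem_pr {p : ℕ} (hp : p.Prime) (n : ℤ) : (n : 𝓞 ℚ) ∈ (pr p hp).asIdeal ↔ (p : ℤ) ∣ n := by
  show (n : 𝓞 ℚ) ∈ Ideal.span {(p : 𝓞 ℚ)} ↔ _
  rw [Ideal.mem_span_singleton]
  constructor
  · rintro ⟨c, hc⟩
    refine ⟨Rat.ringOfIntegersEquiv c, ?_⟩
    have := congrArg Rat.ringOfIntegersEquiv hc
    simpa using this
  · rintro ⟨c, hc⟩
    exact ⟨(c : 𝓞 ℚ), by rw [hc]; push_cast; rfl⟩

theorem one_lt_pr {j : ℚ} {p : ℕ} (hp : p.Prime) (hpj : p ∣ j.den) : 1 < (pr p hp).valuation ℚ j := by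
  have hd : (j.den : ℚ) ≠ 0 := by exact_mod_cast j.pos.ne'
  have e : j * ((j.den : ℤ) : 𝓞 ℚ) = ((j.num : 𝓞 ℚ) : ℚ) := by
    have h1 : ((j.num : 𝓞 ℚ) : ℚ) = j.num := by simp
    have h2 : (((j.den : ℤ) : 𝓞 ℚ) : ℚ) = j.den := by simp
    rw [h1, h2]
    exact Rat.mul_den_eq_num j
  have h1 : (pr p hp).valuation ℚ (((j.den : ℤ) : 𝓞 ℚ) : ℚ) < 1 :=
    ((pr p hp).valuation_lt_one_iff_mem _).2 ((mem_pr hp _).2 (by exact_mod_cast hpj))
  have h2 : ¬ (pr p hp).valuation ℚ ((j.num : 𝓞 ℚ) : ℚ) < 1 := by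
    intro h
    have h3 := (mem_pr hp _).1 (((pr p hp).valuation_lt_one_iff_mem _).1 h)
    have h4 : p ∣ j.num.natAbs := by
      rw [← Int.natCast_dvd_natCast, Int.dvd_natAbs]
      exact h3
    have h5 := Nat.dvd_gcd h4 hpj
    have h6 : Nat.gcd j.num.natAbs j.den = 1 := j.reduced
    rw [h6] at h5
    exact hp.one_lt.ne' (Nat.dvd_one.1 h5)
  by_contra hcon
  rw [not_lt] at hcon
  apply h2
  rw [← e, map_mul]
  exact lt_of_le_of_lt (mul_le_of_le_one_left' hcon) h1

theorem jbad_ge (j : ℚ) : Real.log (rad j.den) ≤ jbad j := by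
  classical
  have hfin : {v : HeightOneSpectrum (𝓞 ℚ) | 1 < v.valuation ℚ j}.Finite :=
    HeightOneSpectrum.Support.finite (𝓞 ℚ) j
  unfold jbad
  rw [finsum_eq_sum_of_support_subset (s := hfin.toFinset)]
  · have h1 : Real.log (rad j.den) = ∑ p ∈ j.den.primeFactors.attach, Real.log (p.1 : ℝ) := by
      rw [Finset.sum_attach j.den.primeFactors fun p => Real.log (p : ℝ)]
      unfold rad
      push_cast
      exact Real.log_prod fun p hp => by exact_mod_cast (Nat.prime_of_mem_primeFactors hp).ne_zero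
    set f : {p // p ∈ j.den.primeFactors} → HeightOneSpectrum (𝓞 ℚ) :=
      fun p => pr p.1 (Nat.prime_of_mem_primeFactors p.2) with hf
    have hinj : Set.InjOn f (j.den.primeFactors.attach : Set {p // p ∈ j.den.primeFactors}) := by
      intro p _ q _ h
      exact Subtype.ext (pr_inj _ _ h)
    have hmem : ∀ p ∈ j.den.primeFactors.attach, 1 < (f p).valuation ℚ j := fun p _ =>
      one_lt_pr _ (Nat.dvd_of_mem_primeFactors p.2)
    have h2 : ∑ p ∈ j.den.primeFactors.attach, Real.log (p.1 : ℝ) =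
        ∑ v ∈ j.den.primeFactors.attach.image f,
          if 1 < v.valuation ℚ j then Real.log (Ideal.absNorm v.asIdeal : ℝ) else 0 := by
      rw [Finset.sum_image hinj]
      refine Finset.sum_congr rfl fun p hp => ?_
      rw [if_pos (hmem p hp)]
      show _ = Real.log ((Ideal.absNorm (pr p.1 _).asIdeal : ℕ) : ℝ)
      rw [norm_pr]
    rw [h1, h2]
    refine Finset.sum_le_sum_of_subset_of_nonneg ?_ fun v _ _ => ?_
    · intro v hv
      obtain ⟨p, hp, rfl⟩ := Finset.mem_image.1 hv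
      rw [Set.Finite.mem_toFinset]
      exact hmem p hp
    · split_ifs
      · exact Real.log_natCast_nonneg _
      · exact le_rfl
  · intro v hv
    rw [Function.mem_support] at hv
    rw [Finset.mem_coe, Set.Finite.mem_toFinset]
    by_contra h
    exact hv (if_neg h)

theorem logHeight_rat (j : ℚ) : logHeight₁ j = Real.log ((max j.num.natAbs j.den : ℕ) : ℝ) := by
  rw [logHeight₁_eq_log_mulHeight₁, Rat.mulHeight₁_eq_max]

/-- **the truncated Szpiro-type bound**, for any ratio -/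
theorem szp' {K : Type} [Field K] [NumberField K] {j : K} {s : ℝ} (hs : 0 ≤ s)
    (hj : logHeight₁ j ≤ s * jbad j) {a b : 𝓞 K}
    (hab : 4 * (a : K) ^ 3 + 27 * (b : K) ^ 2 ≠ 0) (hjab : jinv (a : K) b = j)
    (L : Type) [Field L] [NumberField L] [Algebra K L] {δ : ℝ} (hδ : 0 ≤ δ) :
    SzpiroLe s δ 0 1 a b L := by
  classical
  choose up hup using exists_above (K := K) (L := L)
  refine ⟨∅, (fplace_finite j).toFinset.image up, by simp, ?_, ?_⟩
  · intro w hw
    obtain ⟨v, hv, rfl⟩ := Finset.mem_image.1 hw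
    rw [Set.Finite.mem_toFinset] at hv
    left
    intro hgood
    have hab' : 4 * (algebraMap K L a) ^ 3 + 27 * (algebraMap K L b) ^ 2 ≠ 0 := by
      have h1 : algebraMap K L (4 * (a : K) ^ 3 + 27 * (b : K) ^ 2) ≠ 0 := by
        rw [ne_eq, map_eq_zero]
        exact hab
      rw [map_add, map_mul, map_mul, map_pow, map_pow, map_ofNat, map_ofNat] at h1
      exact h1
    haveI hell := sw_ell hab'
    have h2 := good_j (up v) _ hgood
    rw [jinv_eq _ _ hell] at h2
    have e1 : jinv (algebraMap K L (a : K)) (algebraMap K L (b : K)) = algebraMap K L j := by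
      rw [← hjab]
      unfold jinv
      rw [map_div₀, map_add, map_mul, map_mul, map_mul, map_pow, map_pow, map_ofNat, map_ofNat,
        map_ofNat]
    rw [e1, ext_apply (K := K), hup] at h2
    have hv' : 1 < v.val j := hv
    have h3 : 1 < v.val j ^ ldeg K (up v) := one_lt_pow₀ hv' (ldeg_pos K (up v)).ne'
    linarith
  · intro S hS
    rw [hjab]
    have hinj : Set.InjOn up ((fplace_finite j).toFinset : Set (FinitePlace K)) := by
      intro v₁ _ v₂ _ h
      rw [← hup v₁, ← hup v₂, h]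
    rw [Finset.sum_image hinj]
    have h1 : ∑ v ∈ (fplace_finite j).toFinset, Real.log (NF.Nm v) ≤
        ∑ v ∈ (fplace_finite j).toFinset,
          Real.log (Ideal.absNorm (up v).maximalIdeal.asIdeal) := by
      refine Finset.sum_le_sum fun v _ => ?_
      have h2 := Nm_below K (up v)
      rw [hup v] at h2
      have h3 : NF.Nm v ≤ Ideal.absNorm (up v).maximalIdeal.asIdeal := by
        have h4 : Ideal.absNorm (up v).maximalIdeal.asIdeal = NF.Nm (up v) := rfl
        rw [h4, h2]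
        refine Nat.le_self_pow ?_ _
        have := inert_pos K (up v)
        rw [hup v] at this
        exact this.ne'
      have h5 : 0 < NF.Nm v := by
        have := NF.one_lt_Nm v
        omega
      exact Real.log_le_log (by exact_mod_cast h5) (by exact_mod_cast h3)
    rw [← jbad_places] at h1
    have h2 : ∑ v ∈ S, Real.log (v.val j) ≤ logHeight₁ j := by
      have h3 := FE.posLog_sum_le j S
      have h4 : (0 : ℝ) ≤ ∑ v : InfinitePlace K, (v.mult : ℝ) * Real.posLog (v.val j) :=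
        Finset.sum_nonneg fun v _ => mul_nonneg (Nat.cast_nonneg _) Real.posLog_nonneg
      have h5 : ∑ v ∈ S, Real.log (v.val j) ≤ ∑ v ∈ S, Real.posLog (v.val j) :=
        Finset.sum_le_sum fun v _ => by
          rw [Real.posLog]
          exact le_max_right _ _
      linarith
    have h3 : 0 ≤ δ * logHeight₁ j := mul_nonneg hδ (zero_le_logHeight₁ j)
    have h4 := mul_le_mul_of_nonneg_left h1 hs
    linarith

/-- near real numbers outside a small set all rational invariants satisfy the Szpiro-type bound -/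
theorem near_szp {s : ℝ} (hs : 0 < s) (τ : ℝ) (hτ : 0 < τ) :
    ∃ Z : Set ℝ, dimH Z ≤ ENNReal.ofReal ((1 + 1 / s) / τ) ∧ (1 + 1 / s < τ → MeasureTheory.volume Z = 0) ∧
      ∀ y : ℝ, y ∉ Z → Irrational y ∧ ∀ᶠ T : ℝ in Filter.atTop, ∀ x : ℚ, (x.den : ℝ) ≤ T → |y - x| ≤ T ^ (-τ) →
        logHeight₁ x ≤ s * jbad x := by
  obtain ⟨Z, h1, h2, h3⟩ := RAJ.near_rad hs τ hτ
  refine ⟨Z, h1, h2, fun y hy => ⟨(h3 y hy).1, ?_⟩⟩
  filter_upwards [(h3 y hy).2] with T hT x hx hxy
  rw [logHeight_rat]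
  exact (hT x hx hxy).trans (mul_le_mul_of_nonneg_left (jbad_ge x) hs.le)

end Pool.Agent.Q229.RAS
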