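import Pool.Agent.Q229.RAP2
import Pool.Agent.Q229.RAS
import Pool.Agent.Q19.JL.LS
import Pool.Agent.H691R3.Rep
import Pool.Agent.H691R3.Places

/-!
# The simple poles of rational invariants (helper229)
-/

set_option autoImplicit false

namespace Pool.Agent.Q229.RAT

open Height NumberField IsDedekindDomain Module Pool.Agent.H691R3 Pool.Agent.W223.AK
open Pool.Agent.Q229.RAS (pr norm_pr pr_inj mem_pr)
open Pool.Agent.Q229.RAP (sf Ex)
open Pool.Agent.Y733.LS (Sp sp)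

theorem nv1 (v : Pr ℚ) : 1 < Nv v := by linarith [two_le_Nv v]

theorem fv_int_one {p : ℕ} (hp : p.Prime) {n : ℤ} (hn : ¬ (p : ℤ) ∣ n) : fv (pr p hp) (n : ℚ) = 1 := by
  have h1 : ¬ fv (pr p hp) (((n : 𝓞 ℚ)) : ℚ) ≤ (Nv (pr p hp)) ^ (-((1 : ℕ) : ℤ)) := by
    intro h
    have h2 := (fv_le_pow_iff (pr p hp) (n : 𝓞 ℚ) 1).1 h
    rw [pow_one] at h2
    exact hn ((mem_pr hp n).1 h2)
  have hn0 : ((n : 𝓞 ℚ) : ℚ) ≠ 0 := by
    intro h
    have h2 : n = 0 := by
      have : (n : ℚ) = 0 := by simpa using h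
      exact_mod_cast this
    exact hn (h2 ▸ dvd_zero _)
  obtain ⟨m, hm⟩ := fv_zpow (pr p hp) hn0
  have h3 := (fv_le_pow_iff (pr p hp) (n : 𝓞 ℚ) 0).2 (by simp)
  rw [hm, zpow_le_zpow_iff_right₀ (nv1 (pr p hp))] at h1 h3
  have h4 : m = 0 := by push_cast at h1 h3; omega
  have e : ((n : 𝓞 ℚ) : ℚ) = n := by simp
  rw [← e, hm, h4, zpow_zero]

theorem fv_p {p : ℕ} (hp : p.Prime) : fv (pr p hp) (p : ℚ) = (Nv (pr p hp))⁻¹ := by
  have h0 : (((p : ℤ) : 𝓞 ℚ) : ℚ) ≠ 0 := by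
    have e : (((p : ℤ) : 𝓞 ℚ) : ℚ) = p := by simp
    rw [e]
    exact_mod_cast hp.ne_zero
  obtain ⟨m, hm⟩ := fv_zpow (pr p hp) h0
  have h3 := (fv_le_pow_iff (pr p hp) ((p : ℤ) : 𝓞 ℚ) 1).2 (by
    rw [pow_one]
    exact (mem_pr hp _).2 dvd_rfl)
  have h4 : ¬ fv (pr p hp) (((p : ℤ) : 𝓞 ℚ) : ℚ) ≤ (Nv (pr p hp)) ^ (-((2 : ℕ) : ℤ)) := by
    intro h
    have h5 := (fv_le_pow_iff (pr p hp) ((p : ℤ) : 𝓞 ℚ) 2).1 h
    have h6 : (pr p hp).asIdeal ^ 2 = Ideal.span {(((p : ℤ) * p : ℤ) : 𝓞 ℚ)} := by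
      show (Ideal.span {(p : 𝓞 ℚ)}) ^ 2 = _
      rw [Ideal.span_singleton_pow, sq]
      push_cast
      rfl
    rw [h6, Ideal.mem_span_singleton] at h5
    obtain ⟨c, hc⟩ := h5
    have h7 : (p : ℤ) = (p : ℤ) * p * Rat.ringOfIntegersEquiv c := by
      have := congrArg Rat.ringOfIntegersEquiv hc
      simpa using this
    have h8 : (p : ℤ) * (1 - p * Rat.ringOfIntegersEquiv c) = 0 := by linear_combination h7
    have h9 : (p : ℤ) ≠ 0 := by exact_mod_cast hp.ne_zero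
    have h10 : (1 : ℤ) - p * Rat.ringOfIntegersEquiv c = 0 := (mul_eq_zero.1 h8).resolve_left h9
    have h11 : (p : ℤ) ∣ 1 := ⟨Rat.ringOfIntegersEquiv c, by linarith⟩
    exact hp.one_lt.ne' (by exact_mod_cast Int.eq_one_of_dvd_one (by positivity) h11)
  rw [hm, zpow_le_zpow_iff_right₀ (nv1 (pr p hp))] at h3 h4
  have h5 : m = -1 := by push_cast at h3 h4; omega
  have e : (((p : ℤ) : 𝓞 ℚ) : ℚ) = p := by simp
  rw [← e, hm, h5, zpow_neg_one]

theorem sp_pr {j : ℚ} {p : ℕ} (hp : p.Prime) (h1 : j.den.factorization p = 1) (h6 : ¬ p ∣ 6) : Sp j (pr p hp) := by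
  have hd0 : j.den ≠ 0 := j.pos.ne'
  have hpd : p ∣ j.den := by
    have := Nat.ordProj_dvd j.den p
    rw [h1, pow_one] at this
    exact this
  obtain ⟨m, hm⟩ := hpd
  have hpm : ¬ p ∣ m := by
    rintro ⟨k, hk⟩
    have h2 : p ^ 2 ∣ j.den := ⟨k, by rw [hm, hk]; ring⟩
    have h3 := (hp.pow_dvd_iff_le_factorization hd0).1 h2
    omega
  have hnum : ¬ (p : ℤ) ∣ j.num := by
    intro h3
    have h4 : p ∣ j.num.natAbs := by
      rw [← Int.natCast_dvd_natCast, Int.dvd_natAbs]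
      exact h3
    have h5 := Nat.dvd_gcd h4 (⟨m, hm⟩ : p ∣ j.den)
    have h7 : Nat.gcd j.num.natAbs j.den = 1 := j.reduced
    rw [h7] at h5
    exact hp.one_lt.ne' (Nat.dvd_one.1 h5)
  refine ⟨?_, ?_, ?_⟩
  · have := fv_int_one hp (n := 2) (fun h => h6 (by
      have : p ∣ 2 := by exact_mod_cast h
      exact this.trans (by norm_num)))
    simpa using this
  · have := fv_int_one hp (n := 3) (fun h => h6 (by
      have : p ∣ 3 := by exact_mod_cast h
      exact this.trans (by norm_num)))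
    simpa using this
  · have e1 : j = (j.num : ℚ) / ((p : ℚ) * ((m : ℤ) : ℚ)) := by
      have h8 : (j.den : ℚ) = (p : ℚ) * ((m : ℤ) : ℚ) := by
        rw [hm]
        push_cast
        ring
      rw [← h8]
      exact (Rat.num_div_den j).symm
    have e2 := fv_int_one hp hnum
    have e3 := fv_int_one hp (n := (m : ℤ)) (fun h => hpm (by exact_mod_cast h))
    rw [e1, map_div₀, map_mul, e2, e3, fv_p hp, mul_one, one_div, inv_inv]

theorem sp_ge (j : ℚ) : Real.log (sf j.den) ≤ sp j := by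
  classical
  have hfin := Pool.Agent.Y733.LS.Fs_sp j
  have hset : {v : Pr ℚ | Sp j v}.Finite := by
    refine hfin.subset fun v hv => ?_
    have hv' : Sp j v := hv
    rw [Function.mem_support, if_pos hv']
    exact (Real.log_pos (nv1 v)).ne'
  unfold Pool.Agent.Y733.LS.sp
  rw [finsum_eq_sum_of_support_subset (s := hset.toFinset)]
  · obtain ⟨P, hP⟩ : ∃ P : Finset ℕ, P = j.den.primeFactors.filter
        (fun p => j.den.factorization p = 1 ∧ ¬ p ∣ 6) := ⟨_, rfl⟩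
    have hPm : ∀ p ∈ P, p ∈ j.den.primeFactors ∧ j.den.factorization p = 1 ∧ ¬ p ∣ 6 := fun p hp => by
      rw [hP] at hp
      exact Finset.mem_filter.1 hp
    have hPp : ∀ p ∈ P, p.Prime := fun p hp => Nat.prime_of_mem_primeFactors (hPm p hp).1
    have h1 : Real.log (sf j.den) = ∑ p ∈ P.attach, Real.log (p.1 : ℝ) := by
      rw [Finset.sum_attach P fun p => Real.log (p : ℝ)]
      unfold sf
      rw [← hP]
      push_cast
      exact Real.log_prod fun p hp => by exact_mod_cast (hPp p hp).ne_zero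
    set f : {p // p ∈ P} → Pr ℚ := fun p => pr p.1 (hPp p.1 p.2) with hf
    have hinj : Set.InjOn f (P.attach : Set {p // p ∈ P}) := by
      intro p _ q _ h
      exact Subtype.ext (pr_inj _ _ h)
    have hmem : ∀ p ∈ P.attach, Sp j (f p) := fun p _ => sp_pr _ (hPm p.1 p.2).2.1 (hPm p.1 p.2).2.2
    have h2 : ∑ p ∈ P.attach, Real.log (p.1 : ℝ) =
        ∑ v ∈ P.attach.image f, if Sp j v then Real.log (Nv v) else 0 := by
      rw [Finset.sum_image hinj]
      refine Finset.sum_congr rfl fun p hp => ?_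
      rw [if_pos (hmem p hp)]
      show _ = Real.log ((Ideal.absNorm (pr p.1 _).asIdeal : ℕ) : ℝ)
      rw [norm_pr]
    rw [h1, h2]
    refine Finset.sum_le_sum_of_subset_of_nonneg ?_ fun v _ _ => ?_
    · intro v hv
      obtain ⟨p, hp, rfl⟩ := Finset.mem_image.1 hv
      rw [Set.Finite.mem_toFinset]
      exact hmem p hp
    · split_ifs
      · exact (Real.log_pos (nv1 v)).le
      · exact le_rfl
  · intro v hv
    rw [Function.mem_support] at hv
    rw [Finset.mem_coe, Set.Finite.mem_toFinset]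
    by_contra h
    exact hv (if_neg h)

theorem ht_rat (j : ℚ) : ht j = Real.log ((max j.num.natAbs j.den : ℕ) : ℝ) := by
  rw [← Pool.Agent.Q19.JL.ht_log, Pool.Agent.Q229.RAS.logHeight_rat]

/-- the rational numbers of bounded height -/
theorem ht_fin (B : ℝ) : {j : ℚ | ht j ≤ B}.Finite := by
  refine (Northcott.finite_le (h := Height.logHeight₁ (K := ℚ)) B).subset fun x hx => ?_
  have h1 : ht x ≤ B := hx
  rw [← Pool.Agent.Q19.JL.ht_log] at h1
  exact h1

/-- **near real numbers outside a small set all rational numbers have the property**, if it holds for all large rational numbers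
whose simple poles (prime to six) have more than the part `1 - η₀` of the height -/
theorem near_sp (P : ℚ → Prop) {η₀ : ℝ} (h0 : 0 < η₀) (h1 : η₀ ≤ 1)
    (h : ∀ η : ℝ, 0 < η → η < η₀ → ∃ F : Set ℚ, F.Finite ∧ ∀ x : ℚ, x ∉ F → (1 - η) * ht x ≤ sp x → P x)
    (τ : ℝ) (hτ : 0 < τ) :
    ∃ Z : Set ℝ, dimH Z ≤ ENNReal.ofReal ((2 - η₀ / 2) / τ) ∧ (2 - η₀ / 2 < τ → MeasureTheory.volume Z = 0) ∧
      ∀ y : ℝ, y ∉ Z → Irrational y ∧ ∀ᶠ T : ℝ in Filter.atTop, ∀ x : ℚ, (x.den : ℝ) ≤ T → |y - x| ≤ T ^ (-τ) →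
        P x := by
  obtain ⟨Z, h2, h3, h4⟩ := Pool.Agent.Q229.RAP.near_sf {x : ℚ | ¬ P x} h0 h1 (fun η hη0 hη1 => by
    obtain ⟨F, hF, hFP⟩ := h η hη0 hη1
    refine ⟨F, hF, fun x hx hxF => ?_⟩
    by_contra hcon
    have h5 : (1 - η) * Real.log ((max x.num.natAbs x.den : ℕ) : ℝ) ≤ Real.log (sf x.den) := not_lt.1 hcon
    apply hx
    apply hFP x hxF
    rw [ht_rat]
    exact h5.trans (sp_ge x)) τ hτ
  refine ⟨Z, h2, h3, fun y hy => ⟨(h4 y hy).1, ?_⟩⟩
  filter_upwards [(h4 y hy).2] with T hT x hx hxy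
  exact not_not.1 (hT x hx hxy)

end Pool.Agent.Q229.RAT
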