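import Pool.Agent.Q229.RAT
import Pool.Agent.Q19.JL.Fin2

/-!
# From counting by radicals to rational invariants near real numbers (helper229)
-/

set_option autoImplicit false

namespace Pool.Agent.Q229.RAV

open NumberField IsDedekindDomain
open Pool.Agent.Q19.JL (Iv RR zz RR_le ht_two Iv_fin Iv_upper)
open Pool.Agent.Q229.RAQ (Pts)

/-- rational numbers in `[-M, M]` of denominator `≤ T` have radical `O (T ^ 3)` -/
theorem iv_real (M : ℕ) : ∃ C : ℝ, 1 ≤ C ∧ ∀ T : ℝ, 1 ≤ T → ∀ x : ℚ, x ∉ ({0, 1728} : Set ℚ) → |(x : ℝ)| ≤ M →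
    (x.den : ℝ) ≤ T → x ∈ Iv ℚ (C * T ^ (3 : ℝ)) := by
  obtain ⟨c0, hc0⟩ : ∃ c0 : ℝ, c0 = Height.logHeight₁ (1728 : ℚ) + Module.finrank ℚ ℚ * Real.log 2 := ⟨_, rfl⟩
  have hc0' : 0 ≤ c0 := by
    rw [hc0]
    have h1 := Height.zero_le_logHeight₁ (1728 : ℚ)
    have h2 : 0 ≤ Real.log 2 := Real.log_nonneg (by norm_num)
    positivity
  have hM0 : (0 : ℝ) ≤ M := Nat.cast_nonneg M
  refine ⟨((M : ℝ) + 1) ^ (3 : ℝ) * Real.exp (3 * c0), ?_, fun T hT x hx hxM hxT => ?_⟩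
  · have h1 : 1 ≤ ((M : ℝ) + 1) ^ (3 : ℝ) := Real.one_le_rpow (by linarith) (by norm_num)
    have h2 : 1 ≤ Real.exp (3 * c0) := Real.one_le_exp (by positivity)
    nlinarith
  have h0 : x ≠ 0 := fun h => hx (Or.inl h)
  have h1 : x ≠ 1728 := fun h => hx (Or.inr h)
  have hT0 : 0 < T := by linarith
  have hd0 : (0 : ℝ) < x.den := by exact_mod_cast x.pos
  have hnum : |(x.num : ℝ)| ≤ M * x.den := by
    have e : (x.num : ℝ) = x * x.den := by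
      exact_mod_cast (Rat.mul_den_eq_num x).symm
    rw [e, abs_mul, abs_of_pos hd0]
    exact mul_le_mul_of_nonneg_right hxM hd0.le
  have h6 : ((max x.num.natAbs x.den : ℕ) : ℝ) ≤ ((M : ℝ) + 1) * T := by
    rw [Nat.cast_max, Nat.cast_natAbs, Int.cast_abs]
    refine max_le ?_ ?_
    · nlinarith
    · nlinarith
  have h7 : (0 : ℝ) < ((max x.num.natAbs x.den : ℕ) : ℝ) := by
    exact_mod_cast lt_of_lt_of_le x.pos (le_max_right _ _)
  have h8 : Height.logHeight₁ x ≤ Real.log (((M : ℝ) + 1) * T) := by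
    rw [Pool.Agent.Q229.RAS.logHeight_rat]
    exact Real.log_le_log h7 h6
  refine ⟨h0, h1, ?_⟩
  have h9 := RR_le h0 h1
  have h10 := ht_two x h0 h1
  rw [← hc0] at h10
  have hMT : 0 < ((M : ℝ) + 1) * T := by positivity
  have h11 : RR (zz x) ≤ Real.log ((((M : ℝ) + 1) * T) ^ (3 : ℝ)) + 3 * c0 := by
    rw [Real.log_rpow hMT]
    linarith
  calc Real.exp (RR (zz x)) ≤ Real.exp (Real.log ((((M : ℝ) + 1) * T) ^ (3 : ℝ)) + 3 * c0) := Real.exp_le_exp.2 h11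
    _ = ((M : ℝ) + 1) ^ (3 : ℝ) * Real.exp (3 * c0) * T ^ (3 : ℝ) := by
        rw [Real.exp_add, Real.exp_log (Real.rpow_pos_of_pos hMT _), Real.mul_rpow (by positivity) hT0.le]
        ring

/-- **a set of invariants with a power saving in the order by radicals** has a power saving among the rational numbers of
bounded denominator in bounded intervals -/
theorem pts_iv (S : Set ℚ) (h : ∃ ν X₀ : ℝ, 0 < ν ∧ ∀ X : ℝ, X₀ ≤ X →
      ((S ∩ Iv ℚ X).ncard : ℝ) ≤ X ^ (-ν) * (Iv ℚ X).ncard) :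
    ∃ σ : ℝ, 0 ≤ σ ∧ σ < 2 ∧ ∀ M : ℕ, ∃ C : ℝ, ∀ T : ℝ, 1 ≤ T → (Pts S M T).Finite ∧
      ((Pts S M T).ncard : ℝ) ≤ C * T ^ σ := by
  classical
  obtain ⟨ν, X₀, hν, h⟩ := h
  obtain ⟨X1, hX1, h1⟩ := Iv_upper ℚ (ν / 2) (by positivity)
  obtain ⟨X2, hX2⟩ : ∃ X2 : ℝ, X2 = max X₀ X1 := ⟨_, rfl⟩
  have h20 : X₀ ≤ X2 := by rw [hX2]; exact le_max_left _ _
  have h21 : X1 ≤ X2 := by rw [hX2]; exact le_max_right _ _
  have h2' : 1 ≤ X2 := hX1.trans h21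
  obtain ⟨β, hβ⟩ : ∃ β : ℝ, β = max (2 / 3 - ν / 2) 0 := ⟨_, rfl⟩
  have hβ0 : 0 ≤ β := by rw [hβ]; exact le_max_right _ _
  have hβ1 : 2 / 3 - ν / 2 ≤ β := by rw [hβ]; exact le_max_left _ _
  have hβ2 : β < 2 / 3 := by
    rw [hβ]
    exact max_lt (by linarith) (by norm_num)
  have hcount : ∃ C : ℝ, ∀ X : ℝ, 1 ≤ X → ((S ∩ Iv ℚ X).ncard : ℝ) ≤ C * X ^ β := by
    refine ⟨1 + (Iv ℚ X2).ncard, fun X hX => ?_⟩
    have hXβ : 1 ≤ X ^ β := Real.one_le_rpow hX hβ0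
    have hn : (0 : ℝ) ≤ (Iv ℚ X2).ncard := Nat.cast_nonneg _
    rcases le_total X2 X with h3 | h3
    · have h4 := h X (h20.trans h3)
      have h5 := h1 X (h21.trans h3)
      have hX0 : 0 < X := by linarith
      calc ((S ∩ Iv ℚ X).ncard : ℝ) ≤ X ^ (-ν) * (Iv ℚ X).ncard := h4
        _ ≤ X ^ (-ν) * X ^ (2 / 3 + ν / 2) := mul_le_mul_of_nonneg_left h5 (by positivity)
        _ = X ^ (2 / 3 - ν / 2) := by
            rw [← Real.rpow_add hX0]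
            congr 1
            ring
        _ ≤ X ^ β := Real.rpow_le_rpow_of_exponent_le hX hβ1
        _ ≤ (1 + (Iv ℚ X2).ncard) * X ^ β := by nlinarith
    · have h4 : S ∩ Iv ℚ X ⊆ Iv ℚ X2 := by
        rintro x ⟨-, h5, h6, h7⟩
        exact ⟨h5, h6, h7.trans h3⟩
      have h5 : ((S ∩ Iv ℚ X).ncard : ℝ) ≤ (Iv ℚ X2).ncard := by
        exact_mod_cast Set.ncard_le_ncard h4 (Iv_fin ℚ h2')
      nlinarith
  refine ⟨max (β * 3) 0, le_max_right _ _, max_lt (by linarith) (by norm_num), fun M => ?_⟩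
  exact Pool.Agent.Q229.RAQ.pts_of (F := ({0, 1728} : Set ℚ)) ((Set.finite_singleton _).insert _) (Iv ℚ)
    (by norm_num : (0 : ℝ) ≤ 3) (fun X hX => Iv_fin ℚ hX) hcount iv_real M

end Pool.Agent.Q229.RAV
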