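import Pool.Agent.Q229.RAF2
import Pool.Agent.Q19.JL.Fin2

set_option autoImplicit false

/-! From the order by radicals to the order by heights, for invariants in a number field (helper229). -/

namespace Pool.Agent.Q229.RAW

open NumberField IsDedekindDomain
open Pool.Agent.Q19.JL (Iv RR zz RR_le ht_two Iv_fin Iv_upper)

/-- the radical is at most `C H ^ 3` -/
theorem inv_of (L : Type) [Field L] [NumberField L] : ∃ C : ℝ, 1 ≤ C ∧ ∀ T : ℝ, 1 ≤ T → ∀ j : L, j ≠ 0 → j ≠ 1728 →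
    Height.mulHeight₁ j ≤ T → j ∈ Iv L (C * T ^ (3 : ℝ)) := by
  obtain ⟨c0, hc0⟩ : ∃ c0 : ℝ, c0 = Height.logHeight₁ (1728 : L) + Module.finrank ℚ L * Real.log 2 := ⟨_, rfl⟩
  have hc0' : 0 ≤ c0 := by
    rw [hc0]
    have h1 := Height.zero_le_logHeight₁ (1728 : L)
    have h2 : 0 ≤ Real.log 2 := Real.log_nonneg (by norm_num)
    positivity
  refine ⟨Real.exp (3 * c0), Real.one_le_exp (by positivity), fun T hT x h0 h1 hxT => ?_⟩
  have hT0 : 0 < T := by linarith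
  have h8 : Height.logHeight₁ x ≤ Real.log T := by
    rw [Height.logHeight₁_eq_log_mulHeight₁]
    exact Real.log_le_log (lt_of_lt_of_le one_pos (Height.one_le_mulHeight₁ x)) hxT
  refine ⟨h0, h1, ?_⟩
  have h9 := RR_le h0 h1
  have h10 := ht_two x h0 h1
  rw [← hc0] at h10
  have h11 : RR (zz x) ≤ Real.log (T ^ (3 : ℝ)) + 3 * c0 := by
    rw [Real.log_rpow hT0]
    linarith
  calc Real.exp (RR (zz x)) ≤ Real.exp (Real.log (T ^ (3 : ℝ)) + 3 * c0) := Real.exp_le_exp.2 h11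
    _ = Real.exp (3 * c0) * T ^ (3 : ℝ) := by
        rw [Real.exp_add, Real.exp_log (Real.rpow_pos_of_pos hT0 _), mul_comm]

/-- a set with a power saving in the order by radicals has one in the order by heights -/
theorem count (L : Type) [Field L] [NumberField L] (S : Set L) (h : ∃ ν X₀ : ℝ, 0 < ν ∧ ∀ X : ℝ, X₀ ≤ X →
    (({j | j ∈ Iv L X ∧ j ∈ S} : Set L).ncard : ℝ) ≤ X ^ (-ν) * (Iv L X).ncard) :
    ∃ s C T₀ : ℝ, s < 2 ∧ ∀ T : ℝ, T₀ ≤ T →
      {j | j ∈ S ∧ Height.mulHeight₁ j ≤ T}.Finite ∧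
      ({j | j ∈ S ∧ Height.mulHeight₁ j ≤ T}.ncard : ℝ) ≤ C * T ^ s := by
  obtain ⟨ν, X₁, hν, h3⟩ := h
  obtain ⟨X₂, hX₂, h4⟩ := Iv_upper L (ν / 2) (by positivity)
  obtain ⟨A, hA1, hA⟩ := inv_of L
  set s : ℝ := max (3 * (2 / 3 - ν / 2)) 0 with hs
  refine ⟨s, A ^ (2 / 3 - ν / 2 : ℝ) + 2, max 1 (max X₁ X₂), ?_, fun T hT => ?_⟩
  · rw [hs]
    refine max_lt ?_ two_pos
    linarith
  have hT1 : 1 ≤ T := (le_max_left _ _).trans hT
  have hT2 : max X₁ X₂ ≤ T := (le_max_right _ _).trans hT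
  have hT0 : 0 < T := by linarith
  have hX : T ≤ A * T ^ (3 : ℝ) := by
    have h5 : T ≤ T ^ (3 : ℝ) := by
      calc T = T ^ (1 : ℝ) := (Real.rpow_one T).symm
        _ ≤ T ^ (3 : ℝ) := Real.rpow_le_rpow_of_exponent_le hT1 (by norm_num)
    have h6 : 0 < T ^ (3 : ℝ) := Real.rpow_pos_of_pos hT0 _
    nlinarith
  have hX0 : 0 < A * T ^ (3 : ℝ) := lt_of_lt_of_le hT0 hX
  have h6 : ((Iv L (A * T ^ (3 : ℝ))).ncard : ℝ) ≤ (A * T ^ (3 : ℝ)) ^ (2 / 3 + ν / 2) := by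
    have := h4 (A * T ^ (3 : ℝ)) (((le_max_right _ _).trans hT2).trans hX)
    first
      | exact this
      | exact this.2
  have h7 := h3 (A * T ^ (3 : ℝ)) (((le_max_left _ _).trans hT2).trans hX)
  have hfin : (Iv L (A * T ^ (3 : ℝ))).Finite := Iv_fin L (hT1.trans hX)
  set V : Set L := {j | j ∈ Iv L (A * T ^ (3 : ℝ)) ∧ j ∈ S} with hV
  have hVfin : V.Finite := hfin.subset fun x hx => hx.1
  have hsub : {j | j ∈ S ∧ Height.mulHeight₁ j ≤ T} ⊆ V ∪ {0, 1728} := by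
    rintro x ⟨h8, h9⟩
    by_cases h10 : x = 0
    · exact Or.inr (Or.inl h10)
    by_cases h11 : x = 1728
    · exact Or.inr (Or.inr h11)
    exact Or.inl ⟨hA T hT1 x h10 h11 h9, h8⟩
  have hfin2 := hVfin.union ((Set.finite_singleton (1728 : L)).insert 0)
  refine ⟨hfin2.subset hsub, ?_⟩
  have h8 : (({j | j ∈ S ∧ Height.mulHeight₁ j ≤ T}.ncard : ℕ) : ℝ) ≤ (V.ncard : ℝ) + 2 := by
    have h9 : {j | j ∈ S ∧ Height.mulHeight₁ j ≤ T}.ncard ≤ V.ncard + 2 := by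
      refine (Set.ncard_le_ncard hsub hfin2).trans ((Set.ncard_union_le _ _).trans ?_)
      have : ({0, 1728} : Set L).ncard ≤ 2 := by
        refine (Set.ncard_insert_le _ _).trans ?_
        rw [Set.ncard_singleton]
      omega
    exact_mod_cast h9
  have h9 : (V.ncard : ℝ) ≤ A ^ (2 / 3 - ν / 2 : ℝ) * T ^ s := by
    calc (V.ncard : ℝ)
        ≤ (A * T ^ (3 : ℝ)) ^ (-ν) * (Iv L (A * T ^ (3 : ℝ))).ncard := h7
      _ ≤ (A * T ^ (3 : ℝ)) ^ (-ν) * (A * T ^ (3 : ℝ)) ^ (2 / 3 + ν / 2) :=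
          mul_le_mul_of_nonneg_left h6 (Real.rpow_nonneg hX0.le _)
      _ = (A * T ^ (3 : ℝ)) ^ (2 / 3 - ν / 2) := by
          rw [← Real.rpow_add hX0]
          congr 1
          ring
      _ = A ^ (2 / 3 - ν / 2 : ℝ) * T ^ (3 * (2 / 3 - ν / 2)) := by
          rw [Real.mul_rpow (by linarith) (Real.rpow_nonneg hT0.le _), ← Real.rpow_mul hT0.le]
      _ ≤ A ^ (2 / 3 - ν / 2 : ℝ) * T ^ s := by
          refine mul_le_mul_of_nonneg_left ?_ (Real.rpow_nonneg (by linarith) _)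
          exact Real.rpow_le_rpow_of_exponent_le hT1 (le_max_left _ _)
  have h10 : (1 : ℝ) ≤ T ^ s := Real.one_le_rpow hT1 (le_max_right _ _)
  nlinarith

end Pool.Agent.Q229.RAW
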